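import Pool.Agent.Work.MP_c709de_al_sid.Partial

/-! Lower bounds from `B_h` sets. -/

namespace MPc709deS

open Finset MPc709de

/-- multisets of at most `h` elements of `X` -/
def lowH {m : ℕ} (h : ℕ) (X : Finset (ZMod m)) : Set (Multiset (ZMod m)) :=
  {u | Multiset.card u ≤ h ∧ ∀ x ∈ u, x ∈ X}

section

variable {m : ℕ} [NeZero m] {κ : Type*} (ι : κ → ZMod m) (w : κ → ℕ)

/-- the value of a generator -/
def gW (x : κ) : ℕ := m * w x + (ι x).val

omit [NeZero m] in
theorem vl_gW (u : Multiset κ) :
    vl (gW ι w) u = m * (u.map w).sum + (u.map (fun x => (ι x).val)).sum := by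
  induction u using Multiset.induction_on with
  | empty => simp [vl]
  | cons x u ih =>
    rw [← Multiset.singleton_add, vl_add, ih]
    simp only [vl, gW, Multiset.map_singleton, Multiset.sum_singleton, Multiset.map_add,
      Multiset.sum_add]
    ring

theorem cast_vl_gW (u : Multiset κ) : ((vl (gW ι w) u : ℕ) : ZMod m) = (u.map ι).sum := by
  induction u using Multiset.induction_on with
  | empty => simp [vl]
  | cons x u ih =>
    rw [← Multiset.singleton_add, vl_add, Nat.cast_add, ih]
    simp only [vl, gW, Multiset.map_singleton, Multiset.sum_singleton, Multiset.map_add,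
      Multiset.sum_add]
    simp

theorem vl_gW_le {c : ℕ} (hw : ∀ x, w x ≤ c) (u : Multiset κ) :
    vl (gW ι w) u ≤ Multiset.card u * (m * c + (m - 1)) := by
  unfold vl
  have := Multiset.sum_le_card_nsmul (u.map (gW ι w)) (m * c + (m - 1)) (by
    intro y hy
    rw [Multiset.mem_map] at hy
    obtain ⟨x, -, rfl⟩ := hy
    unfold gW
    have h1 := ZMod.val_lt (ι x)
    have h2 := Nat.mul_le_mul_left m (hw x)
    omega)
  rwa [Multiset.card_map, smul_eq_mul] at this

theorem le_vl_gW {c : ℕ} (hw : ∀ x, c ≤ w x) (u : Multiset κ) :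
    Multiset.card u * (m * c) ≤ vl (gW ι w) u := by
  unfold vl
  have := Multiset.card_nsmul_le_sum (s := u.map (gW ι w)) (a := m * c) (by
    intro y hy
    rw [Multiset.mem_map] at hy
    obtain ⟨x, -, rfl⟩ := hy
    unfold gW
    have h2 := Nat.mul_le_mul_left m (hw x)
    omega)
  rwa [Multiset.card_map, smul_eq_mul] at this

end

/-- Lower bound from a `B_h` set with `k < e` elements. -/
theorem lower_bh {m e k h : ℕ} [NeZero m] (hh : 1 ≤ h) {X : Finset (ZMod m)} (hX : X.card = k)
    (hinj : Set.InjOn Multiset.sum (lowH h X)) (hke : k < e) (he : 2 ≤ e)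
    (hroom : e - k + (k + h).choose h ≤ m) :
    (((k + h).choose (h + 1) - m : ℕ) : ℕ∞) ≤ maxRho e m := by
  classical
  have hm : 0 < m := Nat.pos_of_ne_zero (NeZero.ne m)
  -- zero is not in X
  have h0X : (0 : ZMod m) ∉ X := by
    intro h0
    have h1 : ({0} : Multiset (ZMod m)) ∈ lowH h X :=
      ⟨by simpa using hh, fun x hx => by rw [Multiset.mem_singleton] at hx; rw [hx]; exact h0⟩
    have h2 : (0 : Multiset (ZMod m)) ∈ lowH h X := ⟨by simp, by simp⟩
    exact Multiset.singleton_ne_zero _ (hinj h1 h2 (by simp))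
  -- the set of sums
  set D : Finset (ZMod m) := (mset (insert 0 X) h).image Multiset.sum with hD
  have hDcard : D.card ≤ (k + h).choose h := by
    refine Finset.card_image_le.trans ?_
    rw [card_mset, Finset.card_insert_of_notMem h0X, hX]
    have : k + 1 + h - 1 = k + h := by omega
    rw [this]
  have hDmem : ∀ u ∈ lowH h X, u.sum ∈ D := by
    rintro u ⟨hu1, hu2⟩
    rw [hD, Finset.mem_image]
    refine ⟨u + Multiset.replicate (h - Multiset.card u) 0, ?_, by simp⟩
    rw [mem_mset, Multiset.card_add, Multiset.card_replicate]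
    refine ⟨by omega, ?_⟩
    intro x hx
    rw [Multiset.mem_add] at hx
    rw [Finset.mem_insert]
    rcases hx with hx | hx
    · exact Or.inr (hu2 x hx)
    · exact Or.inl (Multiset.eq_of_mem_replicate hx)
  have hDmem' : ∀ c ∈ D, ∃ u ∈ lowH h X, u.sum = c := by
    intro c hc
    rw [hD, Finset.mem_image] at hc
    obtain ⟨u, hu, rfl⟩ := hc
    rw [mem_mset] at hu
    refine ⟨u.filter (fun x => x ≠ 0), ⟨?_, ?_⟩, ?_⟩
    · exact (Multiset.card_le_card (Multiset.filter_le _ _)).trans hu.1.le
    · intro x hx
      rw [Multiset.mem_filter] at hx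
      exact (Finset.mem_insert.1 (hu.2 x hx.1)).resolve_left hx.2
    · conv_rhs => rw [← Multiset.filter_add_not (fun x : ZMod m => x ≠ 0) u]
      rw [Multiset.sum_add]
      have : (u.filter (fun x => ¬ x ≠ 0)).sum = 0 := by
        apply Multiset.sum_eq_zero
        intro x hx
        rw [Multiset.mem_filter] at hx
        exact not_not.1 hx.2
      rw [this, add_zero]
  have h0D : (0 : ZMod m) ∈ D := by
    have := hDmem 0 ⟨by simp, by simp⟩
    simpa using this
  have hXD : X ⊆ D := by
    intro x hx
    have := hDmem {x} ⟨by simpa using hh, fun y hy => by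
      rw [Multiset.mem_singleton] at hy; rw [hy]; exact hx⟩
    simpa using this
  -- heavy residues
  obtain ⟨H, hHD, hHc, hH1⟩ : ∃ H : Finset (ZMod m), (∀ x ∈ H, x ∉ D) ∧ H.card = e - k ∧
      ((1 : ZMod m) ∈ D ∨ (1 : ZMod m) ∈ H) := by
    have hc : e - k ≤ (univ \ D).card := by
      rw [Finset.card_sdiff_of_subset (Finset.subset_univ _), Finset.card_univ, ZMod.card]
      omega
    by_cases h1 : (1 : ZMod m) ∈ D
    · obtain ⟨H, hH, hHc⟩ := Finset.exists_subset_card_eq hc
      exact ⟨H, fun x hx => (Finset.mem_sdiff.1 (hH hx)).2, hHc, Or.inl h1⟩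
    · obtain ⟨H, hH1, hH, hHc⟩ := Finset.exists_subsuperset_card_eq
        (s := {(1 : ZMod m)}) (t := univ \ D) (n := e - k)
        (by
          intro x hx
          rw [Finset.mem_singleton] at hx
          rw [hx, Finset.mem_sdiff]
          exact ⟨Finset.mem_univ _, h1⟩)
        (by rw [Finset.card_singleton]; omega) hc
      exact ⟨H, fun x hx => (Finset.mem_sdiff.1 (hH hx)).2, hHc,
        Or.inr (hH1 (Finset.mem_singleton_self _))⟩
  let κ := {x : ZMod m // x ∈ X ∪ H}
  have hdisj : Disjoint X H := by
    rw [Finset.disjoint_left]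
    intro x hx hx'
    exact hHD x hx' (hXD hx)
  have hκ : Fintype.card κ = e := by
    rw [Fintype.card_coe, Finset.card_union_of_disjoint hdisj, hX, hHc]
    omega
  set B := (h + 1) * (h + 2) with hB
  let w : κ → ℕ := fun x => if x.1 ∈ X then h + 2 else B - 1
  have hB2 : h + 2 ≤ B - 1 := by
    have : (h + 1) * (h + 2) = h * (h + 2) + (h + 2) := by ring
    have h3 : 1 * 3 ≤ h * (h + 2) := Nat.mul_le_mul hh (by omega)
    omega
  have hwX : ∀ x : κ, x.1 ∈ X → w x = h + 2 := fun x hx => if_pos hx
  have hwH : ∀ x : κ, x.1 ∉ X → w x = B - 1 := fun x hx => if_neg hx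
  have hwle : ∀ x : κ, h + 2 ≤ w x := by
    intro x
    by_cases hx : x.1 ∈ X
    · rw [hwX x hx]
    · rw [hwH x hx]; exact hB2
  have hne0 : ∀ x : κ, x.1 ≠ 0 := by
    rintro ⟨x, hx⟩ h0
    simp only at h0
    subst h0
    rcases Finset.mem_union.1 hx with hx | hx
    · exact h0X hx
    · exact hHD _ hx h0D
  set g : κ → ℕ := gW (fun x : κ => x.1) w with hg
  have hgm : ∀ x, m < g x := by
    intro x
    have h1 : 0 < x.1.val := by
      rw [Nat.pos_iff_ne_zero, Ne, ZMod.val_eq_zero]
      exact hne0 x
    have h2 := hwle x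
    have h3 : m * 1 ≤ m * w x := Nat.mul_le_mul_left m (by omega)
    change m < m * w x + x.1.val
    omega
  -- small monomials
  let S : Set (Multiset κ) := {u | (Multiset.card u ≤ h ∧ ∀ x ∈ u, x.1 ∈ X) ∨ Multiset.card u = 1}
  have hcl : ∀ u : Multiset κ, ((vl g u : ℕ) : ZMod m) = (u.map (fun x : κ => x.1)).sum :=
    fun u => cast_vl_gW _ _ u
  have hlow : ∀ u : Multiset κ, (Multiset.card u ≤ h ∧ ∀ x ∈ u, x.1 ∈ X) →
      u.map (fun x : κ => x.1) ∈ lowH h X := by
    rintro u ⟨h1, h2⟩
    refine ⟨by rw [Multiset.card_map]; exact h1, ?_⟩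
    intro y hy
    rw [Multiset.mem_map] at hy
    obtain ⟨x, hx, rfl⟩ := hy
    exact h2 x hx
  have hSinj : ∀ u ∈ S, ∀ v ∈ S, (u.map (fun x : κ => x.1)).sum = (v.map (fun x : κ => x.1)).sum →
      u = v := by
    have key : ∀ u v : Multiset κ, Multiset.card u = 1 → v ∈ S →
        (u.map (fun x : κ => x.1)).sum = (v.map (fun x : κ => x.1)).sum → u = v := by
      intro u v hu hv he
      obtain ⟨x, rfl⟩ := Multiset.card_eq_one.1 hu
      rcases hv with hv | hv
      · by_cases hx : x.1 ∈ X
        · have h1 := hlow {x} ⟨by simpa using hh, fun y hy => by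
            rw [Multiset.mem_singleton] at hy; rw [hy]; exact hx⟩
          have h2 := hinj h1 (hlow v hv) he
          exact Multiset.map_injective Subtype.val_injective h2
        · exfalso
          have hxH : x.1 ∈ H := (Finset.mem_union.1 x.2).resolve_left hx
          apply hHD _ hxH
          rw [Multiset.map_singleton, Multiset.sum_singleton] at he
          rw [he]
          exact hDmem _ (hlow v hv)
      · obtain ⟨y, rfl⟩ := Multiset.card_eq_one.1 hv
        rw [Multiset.map_singleton, Multiset.sum_singleton, Multiset.map_singleton,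
          Multiset.sum_singleton] at he
        rw [Subtype.ext he]
    intro u hu v hv he
    rcases hu with hu | hu
    · rcases hv with hv | hv
      · exact Multiset.map_injective Subtype.val_injective (hinj (hlow u hu) (hlow v hv) he)
      · exact (key v u hv (Or.inl hu) he.symm).symm
    · exact key u v hu hv he
  have hSup : ∀ u ∈ S, vl g u < m * B := by
    intro u hu
    rcases hu with ⟨h1, h2⟩ | h1
    · have h3 : (u.map w).sum = Multiset.card u * (h + 2) := by
        have : u.map w = u.map (fun _ => h + 2) := by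
          apply Multiset.map_congr rfl
          intro x hx
          exact hwX x (h2 x hx)
        rw [this, Multiset.map_const', Multiset.sum_replicate, smul_eq_mul]
      have h4 : (u.map (fun x : κ => x.1.val)).sum ≤ Multiset.card u * (m - 1) := by
        have := Multiset.sum_le_card_nsmul (u.map (fun x : κ => x.1.val)) (m - 1) (by
          intro y hy
          rw [Multiset.mem_map] at hy
          obtain ⟨x, -, rfl⟩ := hy
          have := ZMod.val_lt x.1
          omega)
        rwa [Multiset.card_map, smul_eq_mul] at this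
      have h5 : vl g u = m * (u.map w).sum + (u.map (fun x : κ => x.1.val)).sum := vl_gW _ _ u
      rw [h5, h3]
      have h6 : Multiset.card u * (m - 1) ≤ h * m := Nat.mul_le_mul h1 (by omega)
      have h7 : m * (Multiset.card u * (h + 2)) ≤ m * (h * (h + 2)) :=
        Nat.mul_le_mul_left _ (Nat.mul_le_mul_right _ h1)
      have h8 : m * (h * (h + 2)) + h * m < m * B := by
        have : m * B = m * (h * (h + 2)) + h * m + 2 * m := by rw [hB]; ring
        omega
      omega
    · obtain ⟨x, rfl⟩ := Multiset.card_eq_one.1 h1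
      have h2 : vl g {x} = m * w x + x.1.val := by
        simp [vl, hg, gW]
      rw [h2]
      have h3 := ZMod.val_lt x.1
      have h4 : w x ≤ B - 1 := by
        by_cases hx : x.1 ∈ X
        · rw [hwX x hx]; exact hB2
        · rw [hwH x hx]
      have h5 : m * w x ≤ m * (B - 1) := Nat.mul_le_mul_left _ h4
      have h6 : m * (B - 1) + m = m * B := by
        have : B = (B - 1) + 1 := by omega
        conv_rhs => rw [this]
        ring
      omega
  have hSlow : ∀ v, v ∉ S → m * B ≤ vl g v := by
    intro v hv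
    have hv' : ¬ ((Multiset.card v ≤ h ∧ ∀ x ∈ v, x.1 ∈ X) ∨ Multiset.card v = 1) := hv
    push Not at hv'
    obtain ⟨h1, h2⟩ := hv'
    have hge := le_vl_gW (m := m) (fun x : κ => x.1) w hwle v
    rcases Nat.lt_or_ge h (Multiset.card v) with h3 | h3
    · calc m * B = (h + 1) * (m * (h + 2)) := by rw [hB]; ring
        _ ≤ Multiset.card v * (m * (h + 2)) := Nat.mul_le_mul_right _ h3
        _ ≤ _ := hge
    · obtain ⟨y, hy, hyX⟩ := h1 h3
      obtain ⟨v', rfl⟩ := Multiset.exists_cons_of_mem hy
      rw [Multiset.card_cons] at h2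
      have hge' := le_vl_gW (m := m) (fun x : κ => x.1) w hwle v'
      have h5 : vl g (y ::ₘ v') = g y + vl g v' := by simp [vl]
      rw [h5]
      have h6 : g y = m * (B - 1) + y.1.val := by
        change m * w y + y.1.val = _
        rw [hwH y hyX]
      have h7 : 1 ≤ Multiset.card v' := by omega
      have h8 : 1 * (m * (h + 2)) ≤ Multiset.card v' * (m * (h + 2)) := Nat.mul_le_mul_right _ h7
      have h9 : m * 1 ≤ m * (h + 2) := Nat.mul_le_mul_left _ (by omega)
      have h10 : m * (B - 1) + m = m * B := by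
        have : B = (B - 1) + 1 := by omega
        conv_rhs => rw [this]
        ring
      have hge'' : Multiset.card v' * (m * (h + 2)) ≤ vl g v' := hge'
      omega
  have hrig : ∀ u ∈ S, ∀ p : ℕ × Multiset κ, mval m g p = vl g u → p = (0, u) := by
    intro u hu p hp
    rw [mval_apply] at hp
    change p.1 * m + vl g p.2 = vl g u at hp
    have h1 : p.2 ∈ S := by
      by_contra hcon
      have h2 := hSlow _ hcon
      have h3 := hSup u hu
      omega
    have h2 : p.2 = u := by
      apply hSinj _ h1 _ hu
      rw [← hcl, ← hcl, ← hp]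
      push_cast
      simp
    rw [h2] at hp
    have h3 : p.1 * m = 0 := by omega
    rcases Nat.mul_eq_zero.1 h3 with h | h
    · exact Prod.ext h h2
    · omega
  -- all classes are represented
  have hsurj : ∀ c : ℕ, ∃ v : Multiset κ, vl g v ≡ c [MOD m] := by
    obtain ⟨u, hu⟩ : ∃ u : Multiset κ, (u.map (fun x : κ => x.1)).sum = 1 := by
      rcases hH1 with h1 | h1
      · obtain ⟨u, hu, hu1⟩ := hDmem' _ h1
        have h2 : ∀ x ∈ u, x ∈ X ∪ H := fun x hx => Finset.mem_union_left _ (hu.2 x hx)
        refine ⟨u.pmap (fun x hx => ⟨x, hx⟩) h2, ?_⟩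
        rw [Multiset.map_pmap]
        have h3 : Multiset.pmap (fun (x : ZMod m) (_ : x ∈ X ∪ H) => x) u h2 = u :=
          (Multiset.pmap_eq_map _ id u h2).trans (Multiset.map_id u)
        rw [h3, hu1]
      · exact ⟨{⟨1, Finset.mem_union_right _ h1⟩}, by simp⟩
    intro c
    refine ⟨c • u, ?_⟩
    rw [← ZMod.natCast_eq_natCast_iff, hcl, Multiset.map_nsmul, Multiset.sum_nsmul, hu]
    simp
  -- candidates
  set X' : Finset κ := univ.filter (fun x : κ => x.1 ∈ X) with hX'
  have hX'c : X'.card = k := by
    rw [← hX]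
    apply Finset.card_bij (fun x _ => x.1)
    · intro x hx
      exact (Finset.mem_filter.1 hx).2
    · intro x _ y _ hxy
      exact Subtype.ext hxy
    · intro x hx
      exact ⟨⟨x, Finset.mem_union_left _ hx⟩, by
        rw [hX', Finset.mem_filter]; exact ⟨Finset.mem_univ _, hx⟩, rfl⟩
  have hmain := lower_partial hm g hgm hsurj S hrig (Or.inl ⟨by simp, by simp⟩)
    (fun x => Or.inr (by simp)) (mset X' (h + 1)) (by
      intro u hu v hv
      rw [mem_mset] at hu
      left
      have h1 := Multiset.card_lt_card hv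
      refine ⟨by omega, fun x hx => ?_⟩
      exact (Finset.mem_filter.1 (hu.2 x (Multiset.mem_of_le hv.le hx))).2) he hκ
  rw [card_mset, hX'c] at hmain
  have h1 : k + (h + 1) - 1 = k + h := by omega
  rw [h1] at hmain
  exact hmain

end MPc709deS
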