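import Pool.Agent.Work.MP_c709de_al_sid.FFun

/-! Monomials all of whose immediate divisors lie in a given finite set. -/

namespace MPc709deS

open Finset

variable {κ : Type*} [Fintype κ] [DecidableEq κ]

/-- multisets of size `n` over `S` -/
def mset (S : Finset κ) (n : ℕ) : Finset (Multiset κ) :=
  (univ : Finset (Sym S n)).image (fun σ : Sym S n => (σ : Multiset S).map Subtype.val)

omit [Fintype κ] in
theorem mem_mset {S : Finset κ} {n : ℕ} {u : Multiset κ} :
    u ∈ mset S n ↔ Multiset.card u = n ∧ ∀ x ∈ u, x ∈ S := by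
  unfold mset
  simp only [Finset.mem_image, Finset.mem_univ, true_and]
  constructor
  · rintro ⟨σ, rfl⟩
    refine ⟨by rw [Multiset.card_map]; exact σ.2, ?_⟩
    intro x hx
    rw [Multiset.mem_map] at hx
    obtain ⟨y, -, rfl⟩ := hx
    exact y.2
  · rintro ⟨h1, h2⟩
    lift u to Multiset S using h2
    rw [Multiset.card_map] at h1
    exact ⟨⟨u, h1⟩, rfl⟩

omit [Fintype κ] in
theorem card_mset (S : Finset κ) (n : ℕ) : (mset S n).card = (S.card + n - 1).choose n := by
  unfold mset
  rw [Finset.card_image_of_injective, Finset.card_univ, Sym.card_sym_eq_choose, Fintype.card_coe]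
  intro σ τ h
  exact Subtype.ext (Multiset.map_injective Subtype.val_injective h)

/-- monomials all of whose immediate divisors lie in `N` -/
def cc (N : Finset (Multiset κ)) : Finset (Multiset κ) :=
  ((univ ×ˢ N).image (fun p : κ × Multiset κ => p.1 ::ₘ p.2)).filter
    (fun u => ∀ x ∈ u, u.erase x ∈ N)

theorem mem_cc {N : Finset (Multiset κ)} {u : Multiset κ} :
    u ∈ cc N ↔ u ≠ 0 ∧ ∀ x ∈ u, u.erase x ∈ N := by
  unfold cc
  rw [Finset.mem_filter, Finset.mem_image]
  constructor
  · rintro ⟨⟨p, -, rfl⟩, h⟩
    exact ⟨Multiset.cons_ne_zero, h⟩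
  · rintro ⟨h1, h2⟩
    obtain ⟨x, hx⟩ := Multiset.exists_mem_of_ne_zero h1
    refine ⟨⟨(x, u.erase x), ?_, Multiset.cons_erase hx⟩, h2⟩
    rw [Finset.mem_product]
    exact ⟨Finset.mem_univ _, h2 x hx⟩

/-- neighbours of `x` in the graph of the quadratic monomials of `N` -/
def nb (N : Finset (Multiset κ)) (x : κ) : Finset κ := univ.filter (fun z => ({x, z} : Multiset κ) ∈ N)

theorem mem_nb {N : Finset (Multiset κ)} {x z : κ} : z ∈ nb N x ↔ ({x, z} : Multiset κ) ∈ N := by
  unfold nb; simp

omit [Fintype κ] [DecidableEq κ] in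
theorem pair_inj {x z z' : κ} (h : ({x, z} : Multiset κ) = {x, z'}) : z = z' := by
  change x ::ₘ {z} = x ::ₘ {z'} at h
  rw [Multiset.cons_inj_right] at h
  exact Multiset.singleton_inj.1 h

omit [Fintype κ] [DecidableEq κ] in
theorem card_two_of_mem {u : Multiset κ} (h : Multiset.card u = 2) {x : κ} (hx : x ∈ u) :
    ∃ z, u = {x, z} := by
  obtain ⟨v, rfl⟩ := Multiset.exists_cons_of_mem hx
  rw [Multiset.card_cons] at h
  obtain ⟨z, rfl⟩ := Multiset.card_eq_one.1 (by omega : Multiset.card v = 1)
  exact ⟨z, rfl⟩

/-- the quadratic elements containing `x` -/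
theorem card_nb (N : Finset (Multiset κ)) (x : κ) :
    (N.filter (fun v => x ∈ v ∧ Multiset.card v = 2)).card = (nb N x).card := by
  symm
  apply Finset.card_bij (fun z _ => ({x, z} : Multiset κ))
  · intro z hz
    rw [mem_nb] at hz
    rw [Finset.mem_filter]
    exact ⟨hz, by simp, by simp⟩
  · intro z _ z' _ h
    exact pair_inj h
  · intro v hv
    rw [Finset.mem_filter] at hv
    obtain ⟨z, rfl⟩ := card_two_of_mem hv.2.2 hv.2.1
    exact ⟨z, mem_nb.2 hv.1, rfl⟩

/-- elements of degree at least two obtained by dividing by `x`. -/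
def dv (N : Finset (Multiset κ)) (x : κ) : Finset (Multiset κ) :=
  (N.filter (fun v => x ∈ v ∧ 3 ≤ Multiset.card v)).image (fun v => v.erase x)

omit [Fintype κ] in
theorem mem_dv {N : Finset (Multiset κ)} {x : κ} {v : Multiset κ} :
    v ∈ dv N x ↔ x ::ₘ v ∈ N ∧ 2 ≤ Multiset.card v := by
  unfold dv
  rw [Finset.mem_image]
  constructor
  · rintro ⟨u, hu, rfl⟩
    rw [Finset.mem_filter] at hu
    rw [Multiset.cons_erase hu.2.1, Multiset.card_erase_of_mem hu.2.1, Nat.pred_eq_sub_one]
    exact ⟨hu.1, by omega⟩
  · rintro ⟨h1, h2⟩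
    refine ⟨x ::ₘ v, ?_, Multiset.erase_cons_head _ _⟩
    rw [Finset.mem_filter]
    exact ⟨h1, Multiset.mem_cons_self _ _, by rw [Multiset.card_cons]; omega⟩

omit [Fintype κ] in
theorem card_dv (N : Finset (Multiset κ)) (x : κ) :
    (dv N x).card = (N.filter (fun v => x ∈ v ∧ 3 ≤ Multiset.card v)).card := by
  unfold dv
  apply Finset.card_image_of_injOn
  intro u hu v hv h
  rw [Finset.mem_coe, Finset.mem_filter] at hu hv
  have h' : u.erase x = v.erase x := h
  rw [← Multiset.cons_erase hu.2.1, h', Multiset.cons_erase hv.2.1]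

theorem card_split (N : Finset (Multiset κ)) (hN : ∀ v ∈ N, 2 ≤ Multiset.card v) (x : κ) :
    N.card = (nb N x).card + (dv N x).card + (N.filter (fun v => x ∉ v)).card := by
  rw [← card_nb, card_dv]
  have h1 : (N.filter (fun v => x ∈ v)).card =
      (N.filter (fun v => x ∈ v ∧ Multiset.card v = 2)).card +
      (N.filter (fun v => x ∈ v ∧ 3 ≤ Multiset.card v)).card := by
    rw [← Finset.card_union_of_disjoint]
    · congr 1
      ext v
      simp only [Finset.mem_filter, Finset.mem_union]
      constructor
      · rintro ⟨h1, h2⟩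
        have := hN v h1
        rcases Nat.lt_or_ge (Multiset.card v) 3 with h | h
        · left; exact ⟨h1, h2, by omega⟩
        · right; exact ⟨h1, h2, h⟩
      · rintro (h | h) <;> exact ⟨h.1, h.2.1⟩
    · rw [Finset.disjoint_left]
      intro v hv hv'
      rw [Finset.mem_filter] at hv hv'
      omega
  rw [← h1, Finset.card_filter_add_card_filter_not]

/-- the splitting of `cc` -/
theorem cc_split (N : Finset (Multiset κ)) (hN : ∀ v ∈ N, 2 ≤ Multiset.card v) (x : κ) :
    (cc N).card ≤ (mset (nb N x) 2 ∩ N).card + (cc (dv N x)).card +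
      (cc (N.filter (fun v => x ∉ v))).card := by
  rw [← Finset.card_filter_add_card_filter_not (s := cc N) (fun v => x ∈ v)]
  have h1 : ((cc N).filter (fun v => ¬ x ∈ v)).card ≤ (cc (N.filter (fun v => x ∉ v))).card := by
    apply Finset.card_le_card
    intro u hu
    rw [Finset.mem_filter, mem_cc] at hu
    rw [mem_cc]
    refine ⟨hu.1.1, fun z hz => ?_⟩
    rw [Finset.mem_filter]
    exact ⟨hu.1.2 z hz, fun h => hu.2 (Multiset.mem_of_mem_erase h)⟩
  have h2 : ((cc N).filter (fun v => x ∈ v)).card ≤
      (mset (nb N x) 2 ∩ N ∪ cc (dv N x)).card := by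
    apply Finset.card_le_card_of_injOn (fun u => u.erase x)
    · intro u hu
      rw [Finset.mem_coe, Finset.mem_filter, mem_cc] at hu
      obtain ⟨⟨h0, h⟩, hx⟩ := hu
      obtain ⟨v, rfl⟩ := Multiset.exists_cons_of_mem hx
      have hv := h x (Multiset.mem_cons_self _ _)
      simp only [Multiset.erase_cons_head] at hv ⊢
      have hcv := hN v hv
      have key : ∀ z ∈ v, x ::ₘ v.erase z ∈ N := by
        intro z hz
        have := h z (Multiset.mem_cons_of_mem hz)
        by_cases hzx : z = x
        · subst hzx
          rw [Multiset.erase_cons_head] at this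
          rw [Multiset.cons_erase hz]
          exact this
        · rw [Multiset.erase_cons_tail _ (by simpa using Ne.symm hzx)] at this
          exact this
      rw [Finset.mem_coe, Finset.mem_union]
      rcases Nat.lt_or_ge (Multiset.card v) 3 with hc | hc
      · left
        rw [Finset.mem_inter, mem_mset]
        refine ⟨⟨by omega, ?_⟩, hv⟩
        intro z hz
        obtain ⟨y, rfl⟩ := card_two_of_mem (by omega) hz
        rw [mem_nb]
        have h3 := key y (by simp)
        have h4 : ({z, y} : Multiset κ).erase y = {z} := by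
          rw [Multiset.pair_comm]; exact Multiset.erase_cons_head _ _
        rw [h4] at h3
        exact h3
      · right
        rw [mem_cc]
        refine ⟨by rintro rfl; simp at hc, ?_⟩
        intro z hz
        rw [mem_dv, Multiset.card_erase_of_mem hz, Nat.pred_eq_sub_one]
        exact ⟨key z hz, by omega⟩
    · intro u hu v hv h
      rw [Finset.mem_coe, Finset.mem_filter] at hu hv
      have h' : u.erase x = v.erase x := h
      rw [← Multiset.cons_erase hu.2, h', Multiset.cons_erase hv.2]
  have h3 := Finset.card_union_le (mset (nb N x) 2 ∩ N) (cc (dv N x))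
  omega

/-- minimal degree bound -/
theorem choose_le_card (d : ℕ) : ∀ A : Finset (Multiset κ), (∀ v ∈ A, Multiset.card v = 2) →
    A.Nonempty → (∀ x, (nb A x).Nonempty → d ≤ (nb A x).card) → (d + 1).choose 2 ≤ A.card := by
  induction d with
  | zero => intro A _ _ _; simp
  | succ d ih =>
    intro A hA hne hd
    obtain ⟨v, hv⟩ := hne
    obtain ⟨x, hx⟩ : ∃ x, x ∈ v := Multiset.card_pos_iff_exists_mem.1 (by rw [hA v hv]; omega)
    obtain ⟨z, rfl⟩ := card_two_of_mem (hA v hv) hx
    have hdx := hd x ⟨z, mem_nb.2 hv⟩
    have hsplit := card_split A (fun v hv => by rw [hA v hv]) x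
    have hdv : dv A x = ∅ := by
      rw [Finset.eq_empty_iff_forall_notMem]
      intro w hw
      rw [mem_dv] at hw
      have := hA _ hw.1
      rw [Multiset.card_cons] at this
      omega
    rw [hdv, Finset.card_empty, add_zero] at hsplit
    rcases Nat.eq_zero_or_pos d with h0 | h0
    · subst h0
      simp only [zero_add, Nat.reduceAdd, Nat.choose_self]
      omega
    · set A' := A.filter (fun v => x ∉ v) with hA'
      have hne' : A'.Nonempty := by
        obtain ⟨y, hy, hyx⟩ : ∃ y ∈ nb A x, y ≠ x := by
          by_contra hcon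
          push Not at hcon
          have : (nb A x).card ≤ 1 := Finset.card_le_one.2
            (fun a ha b hb => (hcon a ha).trans (hcon b hb).symm)
          omega
        have hyx' : ({y, x} : Multiset κ) ∈ A := by
          rw [Multiset.pair_comm]; exact mem_nb.1 hy
        have hdy := hd y ⟨x, mem_nb.2 hyx'⟩
        obtain ⟨w, hw, hwx⟩ : ∃ w ∈ nb A y, w ≠ x := by
          by_contra hcon
          push Not at hcon
          have : (nb A y).card ≤ 1 := Finset.card_le_one.2
            (fun a ha b hb => (hcon a ha).trans (hcon b hb).symm)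
          omega
        refine ⟨{y, w}, ?_⟩
        rw [hA', Finset.mem_filter]
        refine ⟨mem_nb.1 hw, ?_⟩
        simp only [Multiset.insert_eq_cons, Multiset.mem_cons, Multiset.mem_singleton, not_or]
        exact ⟨Ne.symm hyx, Ne.symm hwx⟩
      have h1 := ih A' (fun v hv => hA v (Finset.mem_filter.1 hv).1) hne' (by
        intro w hw
        obtain ⟨u, hu⟩ := hw
        rw [mem_nb, hA', Finset.mem_filter] at hu
        have hwx : w ≠ x := by
          rintro rfl
          exact hu.2 (by simp)
        have hdw := hd w ⟨u, mem_nb.2 hu.1⟩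
        have h2 : (nb A w).erase x ⊆ nb A' w := by
          intro y hy
          rw [Finset.mem_erase, mem_nb] at hy
          rw [mem_nb, hA', Finset.mem_filter]
          refine ⟨hy.2, ?_⟩
          simp only [Multiset.insert_eq_cons, Multiset.mem_cons, Multiset.mem_singleton, not_or]
          exact ⟨Ne.symm hwx, Ne.symm hy.1⟩
        have h3 := Finset.card_le_card h2
        have h4 := Finset.pred_card_le_card_erase (s := nb A w) (a := x)
        omega)
      have e1 := choose2 d
      have e2 := choose2 (d + 1)
      nlinarith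

theorem exists_small_degree {A : Finset (Multiset κ)} (hA : ∀ v ∈ A, Multiset.card v = 2)
    (hne : A.Nonempty) : ∃ x, (nb A x).Nonempty ∧ (nb A x).card ≤ kk A.card := by
  by_contra hcon
  push Not at hcon
  have h1 := choose_le_card (kk A.card + 1) A hA hne (fun x hx => hcon x hx)
  have h2 := kk_le_of h1
  omega

/-- the sum of the degrees -/
def mu (N : Finset (Multiset κ)) : ℕ := ∑ v ∈ N, Multiset.card v

theorem cc_empty : cc (∅ : Finset (Multiset κ)) = ∅ := by
  rw [Finset.eq_empty_iff_forall_notMem]
  intro u hu
  rw [mem_cc] at hu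
  obtain ⟨x, hx⟩ := Multiset.exists_mem_of_ne_zero hu.1
  exact absurd (hu.2 x hx) (Finset.notMem_empty _)

omit [Fintype κ] [DecidableEq κ] in
theorem mu_filter_lt {N : Finset (Multiset κ)} (p : Multiset κ → Prop) [DecidablePred p]
    {v : Multiset κ} (hv : v ∈ N) (hp : ¬ p v) (hc : 0 < Multiset.card v) :
    mu (N.filter p) < mu N := by
  unfold mu
  apply Finset.sum_lt_sum_of_subset (Finset.filter_subset _ _) hv
  · intro h; exact hp (Finset.mem_filter.1 h).2
  · exact hc
  · intros; exact Nat.zero_le _

omit [Fintype κ] in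
theorem mu_dv_lt {N : Finset (Multiset κ)} {x : κ} {v : Multiset κ} (hv : v ∈ N)
    (hx : x ∈ v) : mu (dv N x) < mu N := by
  have h1 : mu (dv N x) + (N.filter (fun v => x ∈ v ∧ 3 ≤ Multiset.card v)).card =
      mu (N.filter (fun v => x ∈ v ∧ 3 ≤ Multiset.card v)) := by
    unfold mu dv
    rw [Finset.sum_image, Finset.card_eq_sum_ones, ← Finset.sum_add_distrib]
    · apply Finset.sum_congr rfl
      intro u hu
      rw [Finset.mem_filter] at hu
      rw [Multiset.card_erase_of_mem hu.2.1, Nat.pred_eq_sub_one]
      omega
    · intro u hu w hw h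
      rw [Finset.mem_coe, Finset.mem_filter] at hu hw
      have h' : u.erase x = w.erase x := h
      rw [← Multiset.cons_erase hu.2.1, h', Multiset.cons_erase hw.2.1]
  rcases Finset.eq_empty_or_nonempty (N.filter (fun v => x ∈ v ∧ 3 ≤ Multiset.card v)) with h | h
  · rw [h] at h1
    have h2 : mu (dv N x) = 0 := by
      have : mu (∅ : Finset (Multiset κ)) = 0 := rfl
      rw [this] at h1
      omega
    rw [h2]
    unfold mu
    have hpos : 0 < Multiset.card v := Multiset.card_pos_iff_exists_mem.2 ⟨x, hx⟩
    exact lt_of_lt_of_le hpos (Finset.single_le_sum (f := fun v => Multiset.card v)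
      (fun _ _ => Nat.zero_le _) hv)
  · have h2 := Finset.card_pos.2 h
    have h3 : mu (N.filter (fun v => x ∈ v ∧ 3 ≤ Multiset.card v)) ≤ mu N := by
      unfold mu
      exact Finset.sum_le_sum_of_subset (Finset.filter_subset _ _)
    omega

/-- Macaulay-type bound -/
theorem card_cc_le : ∀ (n : ℕ) (N : Finset (Multiset κ)), mu N = n →
    (∀ v ∈ N, 2 ≤ Multiset.card v) → (cc N).card ≤ ff N.card := by
  intro n
  induction n using Nat.strong_induction_on with
  | _ n ih =>
    intro N hn hN
    rcases Finset.eq_empty_or_nonempty N with h0 | h0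
    · subst h0; rw [cc_empty]; simp
    · obtain ⟨x, ⟨v, hv, hxv⟩, hd⟩ : ∃ x, (∃ v ∈ N, x ∈ v) ∧ (nb N x).card ≤ kk N.card := by
        by_cases hA : (N.filter (fun v => Multiset.card v = 2)).Nonempty
        · obtain ⟨x, hx1, hx2⟩ := exists_small_degree
            (A := N.filter (fun v => Multiset.card v = 2))
            (fun v hv => (Finset.mem_filter.1 hv).2) hA
          have hnb : nb (N.filter (fun v => Multiset.card v = 2)) x = nb N x := by
            ext z
            rw [mem_nb, mem_nb, Finset.mem_filter]
            simp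
          rw [hnb] at hx1 hx2
          obtain ⟨z, hz⟩ := hx1
          refine ⟨x, ⟨_, mem_nb.1 hz, by simp⟩, hx2.trans (kk_mono ?_)⟩
          exact Finset.card_le_card (Finset.filter_subset _ _)
        · obtain ⟨v, hv⟩ := h0
          obtain ⟨x, hx⟩ : ∃ x, x ∈ v :=
            Multiset.card_pos_iff_exists_mem.1 (by have := hN v hv; omega)
          refine ⟨x, ⟨v, hv, hx⟩, ?_⟩
          have : nb N x = ∅ := by
            rw [Finset.eq_empty_iff_forall_notMem]
            intro z hz
            apply hA
            refine ⟨{x, z}, ?_⟩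
            rw [Finset.mem_filter]
            exact ⟨mem_nb.1 hz, by simp⟩
          rw [this]
          simp
      have h1 := card_split N hN x
      have h2 := cc_split N hN x
      have h3 := ih _ (by rw [← hn]; exact mu_dv_lt hv hxv) (dv N x) rfl
        (fun v hv => (mem_dv.1 hv).2)
      have h4 := ih _ (by
        rw [← hn]
        exact mu_filter_lt (fun v => x ∉ v) hv (by simpa using hxv)
          (by have := hN v hv; omega)) (N.filter (fun v => x ∉ v)) rfl
        (fun v hv => hN v (Finset.mem_filter.1 hv).1)
      have h5 : (mset (nb N x) 2 ∩ N).card ≤ ((nb N x).card + 1).choose 2 := by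
        refine (Finset.card_le_card Finset.inter_subset_left).trans ?_
        rw [card_mset]
        have : (nb N x).card + 2 - 1 = (nb N x).card + 1 := by omega
        rw [this]
      have h6 := ff_superadd (dv N x).card (N.filter (fun v => x ∉ v)).card
      have h7 := ff_remove (a := N.card) (d := (nb N x).card) hd
      have h8 : N.card - (nb N x).card = (dv N x).card + (N.filter (fun v => x ∉ v)).card := by
        omega
      rw [h8] at h7
      omega

theorem cc_le {N : Finset (Multiset κ)} (hN : ∀ v ∈ N, 2 ≤ Multiset.card v) :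
    (cc N).card ≤ ff N.card := card_cc_le _ N rfl hN

/-- equality for graphs: a clique with loops. -/
theorem clique_of_eq : ∀ (n : ℕ) (A : Finset (Multiset κ)), A.card = n →
    (∀ v ∈ A, Multiset.card v = 2) → ff A.card ≤ (cc A).card →
    ∃ K : Finset κ, K.card = kk A.card ∧ mset K 2 ⊆ A := by
  intro n
  induction n using Nat.strong_induction_on with
  | _ n ih =>
    intro A hn hA heq
    rcases Finset.eq_empty_or_nonempty A with h0 | h0
    · subst h0
      refine ⟨∅, by simp [kk, st], ?_⟩
      intro u hu
      rw [mem_mset] at hu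
      obtain ⟨x, hx⟩ : ∃ x, x ∈ u := Multiset.card_pos_iff_exists_mem.1 (by omega)
      exact absurd (hu.2 x hx) (Finset.notMem_empty _)
    · obtain ⟨x, hx1, hx2⟩ := exists_small_degree hA h0
      have hA2 : ∀ v ∈ A, 2 ≤ Multiset.card v := fun v hv => by rw [hA v hv]
      have h1 := card_split A hA2 x
      have h2 := cc_split A hA2 x
      have hdv : dv A x = ∅ := by
        rw [Finset.eq_empty_iff_forall_notMem]
        intro w hw
        rw [mem_dv] at hw
        have := hA _ hw.1
        rw [Multiset.card_cons] at this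
        omega
      rw [hdv] at h1 h2
      rw [cc_empty] at h2
      simp only [Finset.card_empty, add_zero] at h1 h2
      set A' := A.filter (fun v => x ∉ v) with hA'
      have h3 : (cc A').card ≤ ff A'.card :=
        cc_le (fun v hv => hA2 v (Finset.mem_filter.1 hv).1)
      have h4 : (mset (nb A x) 2).card = ((nb A x).card + 1).choose 2 := by
        rw [card_mset]
        have : (nb A x).card + 2 - 1 = (nb A x).card + 1 := by omega
        rw [this]
      have h5 : (mset (nb A x) 2 ∩ A).card ≤ (mset (nb A x) 2).card :=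
        Finset.card_le_card Finset.inter_subset_left
      have h7 := ff_remove (a := A.card) (d := (nb A x).card) hx2
      have h8 : A.card - (nb A x).card = A'.card := by omega
      rw [h8] at h7
      have hpos := Finset.card_pos.2 hx1
      have h9 : (mset (nb A x) 2).card ≤ (mset (nb A x) 2 ∩ A).card := by omega
      have h10 : mset (nb A x) 2 ⊆ A := by
        have := Finset.eq_of_subset_of_card_le
          (Finset.inter_subset_left (s₁ := mset (nb A x) 2) (s₂ := A)) h9
        rw [← this]
        exact Finset.inter_subset_right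
      have h11 : ff A'.card ≤ (cc A').card := by omega
      have h12 := ff_remove_eq (a := A.card) (d := (nb A x).card) hx2 (by rw [h8]; omega)
      rcases h12 with h | h | h
      · omega
      · obtain ⟨K, hK1, hK2⟩ := ih A'.card (by omega) A' rfl
          (fun v hv => hA v (Finset.mem_filter.1 hv).1) h11
        refine ⟨K, ?_, hK2.trans (Finset.filter_subset _ _)⟩
        rw [hK1]
        have h13 := kt_spec A.card
        exact (kt_unique (k := kk A.card) (t := 0) (Nat.zero_le _) (by omega)).1
      · exact ⟨nb A x, h, h10⟩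

end MPc709deS
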