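import Pool.Agent.Work.MP_c709de_al_sid.LowerM

/-! Lower bound from a family of multisets of residues with distinct sums. -/

namespace MPc709deS

open Finset MPc709de

variable {m : ℕ} [NeZero m]

/-- a finite family of multisets, closed under division, with distinct sums -/
structure Fam (S : Finset (Multiset (ZMod m))) : Prop where
  zero : 0 ∈ S
  down : ∀ u ∈ S, ∀ x ∈ u, u.erase x ∈ S
  inj : Set.InjOn Multiset.sum (S : Set (Multiset (ZMod m)))

theorem Fam.of_le {S : Finset (Multiset (ZMod m))} (h : Fam S) :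
    ∀ {u v : Multiset (ZMod m)}, u ∈ S → v ≤ u → v ∈ S := by
  intro u
  induction hn : Multiset.card u using Nat.strong_induction_on generalizing u with
  | _ n ih =>
    intro v hu hvu
    rcases eq_or_lt_of_le hvu with rfl | hlt
    · exact hu
    · obtain ⟨x, hx⟩ := Multiset.lt_iff_cons_le.1 hlt
      have hxu : x ∈ u := Multiset.mem_of_le hx (Multiset.mem_cons_self _ _)
      have hc := Multiset.card_le_card hx
      rw [Multiset.card_cons] at hc
      have h1 : v ≤ u.erase x := by
        have := Multiset.erase_le_erase x hx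
        rwa [Multiset.erase_cons_head] at this
      have h2 := h.down u hu x hxu
      have h3 : Multiset.card (u.erase x) = Multiset.card u - 1 := by
        rw [Multiset.card_erase_of_mem hxu, Nat.pred_eq_sub_one]
      exact ih _ (by omega) h3 h2 h1

/-- residues of the generators -/
abbrev KK (S : Finset (Multiset (ZMod m))) : Type :=
  {r : ZMod m // r ≠ 0 ∧ ∀ u ∈ S, 2 ≤ Multiset.card u → u.sum ≠ r}

theorem Fam.mem_KK {S : Finset (Multiset (ZMod m))} (h : Fam S) {u : Multiset (ZMod m)}
    (hu : u ∈ S) {x : ZMod m} (hx : x ∈ u) :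
    x ≠ 0 ∧ ∀ u ∈ S, 2 ≤ Multiset.card u → u.sum ≠ x := by
  have h1 : ({x} : Multiset (ZMod m)) ∈ S := h.of_le hu (Multiset.singleton_le.2 hx)
  constructor
  · rintro rfl
    have h2 : ({0} : Multiset (ZMod m)) = 0 := h.inj h1 h.zero (by simp)
    exact Multiset.singleton_ne_zero 0 h2
  · intro v hv hc hvx
    have h2 : v = {x} := h.inj hv h1 (by rw [hvx]; simp)
    rw [h2] at hc
    simp at hc

/-- the order ideal -/
noncomputable def TS (S : Finset (Multiset (ZMod m))) : Finset (Multiset (KK S)) := by
  classical exact (univ.image (fun x : KK S => ({x} : Multiset (KK S)))) ∪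
    S.preimage (Multiset.map Subtype.val) (Multiset.map_injective Subtype.val_injective).injOn

theorem mem_TS {S : Finset (Multiset (ZMod m))} {u : Multiset (KK S)} :
    u ∈ TS S ↔ Multiset.card u = 1 ∨ u.map Subtype.val ∈ S := by
  classical
  unfold TS
  rw [Finset.mem_union, Finset.mem_preimage, Finset.mem_image]
  constructor
  · rintro (⟨x, -, rfl⟩ | h)
    · left; simp
    · right; exact h
  · rintro (h | h)
    · left
      obtain ⟨x, rfl⟩ := Multiset.card_eq_one.1 h
      exact ⟨x, Finset.mem_univ _, rfl⟩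
    · right; exact h

theorem isIdeal_TS {S : Finset (Multiset (ZMod m))} (h : Fam S) : IsIdeal (TS S) where
  zero := by rw [mem_TS]; right; rw [Multiset.map_zero]; exact h.zero
  one x := by rw [mem_TS]; left; simp
  down u hu x hx := by
    rw [mem_TS] at hu ⊢
    right
    rcases hu with hu | hu
    · obtain ⟨y, rfl⟩ := Multiset.card_eq_one.1 hu
      rw [Multiset.mem_singleton] at hx
      subst hx
      rw [Multiset.erase_singleton, Multiset.map_zero]
      exact h.zero
    · rw [Multiset.map_erase _ Subtype.val_injective]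
      exact h.down _ hu _ (Multiset.mem_map_of_mem _ hx)

/-- the value of the generators -/
def gS {S : Finset (Multiset (ZMod m))} (W : ZMod m → ℕ) (x : KK S) : ℕ := m * W x.1 + x.1.val

theorem vl_gS {S : Finset (Multiset (ZMod m))} (W : ZMod m → ℕ) (u : Multiset (KK S)) :
    vl (gS W) u = m * ((u.map Subtype.val).map W).sum + ((u.map Subtype.val).map ZMod.val).sum := by
  induction u using Multiset.induction_on with
  | empty => simp [vl]
  | cons x u ih =>
    rw [← Multiset.singleton_add, vl_add, ih]
    simp only [vl, gS, Multiset.map_singleton, Multiset.sum_singleton, Multiset.map_add,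
      Multiset.sum_add]
    ring

theorem cast_vl_gS {S : Finset (Multiset (ZMod m))} (W : ZMod m → ℕ) (u : Multiset (KK S)) :
    ((vl (gS W) u : ℕ) : ZMod m) = (u.map Subtype.val).sum := by
  induction u using Multiset.induction_on with
  | empty => simp [vl]
  | cons x u ih =>
    rw [← Multiset.singleton_add, vl_add, Nat.cast_add, ih]
    simp only [vl, gS, Multiset.map_singleton, Multiset.sum_singleton, Multiset.map_add,
      Multiset.sum_add]
    simp

theorem modEq_iff {S : Finset (Multiset (ZMod m))} (W : ZMod m → ℕ) (u v : Multiset (KK S)) :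
    vl (gS W) u ≡ vl (gS W) v [MOD m] ↔ (u.map Subtype.val).sum = (v.map Subtype.val).sum := by
  rw [← ZMod.natCast_eq_natCast_iff, cast_vl_gS, cast_vl_gS]

theorem inj_TS {S : Finset (Multiset (ZMod m))} (h : Fam S) {u v : Multiset (KK S)}
    (hu : u ∈ TS S) (hv : v ∈ TS S) (he : (u.map Subtype.val).sum = (v.map Subtype.val).sum) :
    u = v := by
  have key : ∀ u v : Multiset (KK S), Multiset.card u = 1 → v ∈ TS S →
      (u.map Subtype.val).sum = (v.map Subtype.val).sum → u = v := by
    intro u v hu hv he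
    obtain ⟨x, rfl⟩ := Multiset.card_eq_one.1 hu
    rw [Multiset.map_singleton, Multiset.sum_singleton] at he
    rw [mem_TS] at hv
    rcases Nat.lt_or_ge (Multiset.card v) 2 with h2 | h2
    · rcases Nat.eq_zero_or_pos (Multiset.card v) with h3 | h3
      · rw [Multiset.card_eq_zero] at h3
        subst h3
        exact absurd he x.2.1
      · obtain ⟨y, rfl⟩ := Multiset.card_eq_one.1 (by omega : Multiset.card v = 1)
        rw [Multiset.map_singleton, Multiset.sum_singleton] at he
        rw [Subtype.ext he]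
    · rcases hv with hv | hv
      · omega
      · exact absurd he.symm (x.2.2 _ hv (by rw [Multiset.card_map]; exact h2))
  rw [mem_TS] at hu
  rcases hu with hu | hu
  · exact key u v hu hv he
  · have hv' := hv
    rw [mem_TS] at hv
    rcases hv with hv | hv
    · exact (key v u hv (mem_TS.2 (Or.inr hu)) he.symm).symm
    · exact Multiset.map_injective Subtype.val_injective (h.inj hu hv he)

/-- lifting -/
theorem Fam.lift {S : Finset (Multiset (ZMod m))} (h : Fam S) {u : Multiset (ZMod m)}
    (hu : ∀ x ∈ u, ∃ w ∈ S, x ∈ w) : ∃ v : Multiset (KK S), v.map Subtype.val = u := by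
  have h1 : ∀ x ∈ u, x ≠ 0 ∧ ∀ u ∈ S, 2 ≤ Multiset.card u → u.sum ≠ x := by
    intro x hx
    obtain ⟨w, hw, hxw⟩ := hu x hx
    exact h.mem_KK hw hxw
  exact ⟨u.pmap (fun x hx => ⟨x, hx⟩) h1, by
    rw [Multiset.map_pmap]; exact (Multiset.pmap_eq_map _ id u h1).trans (Multiset.map_id u)⟩

theorem surj_TS {S : Finset (Multiset (ZMod m))} (h : Fam S) (c : ZMod m) :
    ∃ u ∈ TS S, (u.map Subtype.val).sum = c := by
  by_cases h0 : c = 0
  · exact ⟨0, (isIdeal_TS h).zero, by simp [h0]⟩
  by_cases h1 : ∀ u ∈ S, 2 ≤ Multiset.card u → u.sum ≠ c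
  · exact ⟨{⟨c, h0, h1⟩}, (isIdeal_TS h).one _, by simp⟩
  · push Not at h1
    obtain ⟨u, hu, -, rfl⟩ := h1
    obtain ⟨v, hv⟩ := h.lift (u := u) (fun x hx => ⟨u, hu, hx⟩)
    exact ⟨v, by rw [mem_TS, hv]; exact Or.inr hu, by rw [hv]⟩

theorem card_TS {S : Finset (Multiset (ZMod m))} (h : Fam S) : (TS S).card = m := by
  have h1 : (TS S).card = (univ : Finset (ZMod m)).card := by
    apply Finset.card_bij (fun u _ => (u.map Subtype.val).sum)
    · intro _ _; exact Finset.mem_univ _
    · intro u hu v hv he
      exact inj_TS h hu hv he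
    · intro c _
      obtain ⟨u, hu, hc⟩ := surj_TS h c
      exact ⟨u, hu, hc⟩
  rw [h1, Finset.card_univ, ZMod.card]

theorem card_two_TS {S : Finset (Multiset (ZMod m))} (h : Fam S) :
    (two (TS S)).card = (two S).card := by
  apply Finset.card_bij (fun u _ => u.map Subtype.val)
  · intro u hu
    rw [mem_two, mem_TS] at hu
    rw [mem_two, Multiset.card_map]
    rcases hu.1 with h1 | h1
    · omega
    · exact ⟨h1, hu.2⟩
  · intro u _ v _ he
    exact Multiset.map_injective Subtype.val_injective he
  · intro u hu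
    rw [mem_two] at hu
    obtain ⟨v, hv⟩ := h.lift (u := u) (fun x hx => ⟨u, hu.1, hx⟩)
    refine ⟨v, ?_, hv⟩
    rw [mem_two, mem_TS, hv]
    refine ⟨Or.inr hu.1, ?_⟩
    rw [← hv, Multiset.card_map] at hu
    exact hu.2

theorem card_cc_TS {S : Finset (Multiset (ZMod m))} (h : Fam S) :
    (cc (two S)).card ≤ (cc (two (TS S))).card := by
  have hsub : cc (two S) ⊆ (cc (two (TS S))).image (fun u => u.map Subtype.val) := by
    intro u hu
    rw [mem_cc] at hu
    obtain ⟨hu0, hu⟩ := hu
    have hc : ∀ x ∈ u, ∃ w ∈ S, x ∈ w := by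
      intro x hx
      have h1 := (mem_two.1 (hu x hx))
      obtain ⟨y, hy⟩ : ∃ y, y ∈ u.erase x := Multiset.card_pos_iff_exists_mem.1 (by omega)
      have hyu : y ∈ u := Multiset.mem_of_mem_erase hy
      by_cases hxy : x = y
      · subst hxy
        exact ⟨_, h1.1, hy⟩
      · refine ⟨_, (mem_two.1 (hu y hyu)).1, ?_⟩
        exact (Multiset.mem_erase_of_ne hxy).2 hx
    obtain ⟨v, rfl⟩ := h.lift hc
    rw [Finset.mem_image]
    refine ⟨v, ?_, rfl⟩
    rw [mem_cc]
    refine ⟨by rintro rfl; exact hu0 rfl, fun x hx => ?_⟩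
    have h1 := hu x.1 (Multiset.mem_map_of_mem _ hx)
    rw [← Multiset.map_erase _ Subtype.val_injective, mem_two, Multiset.card_map] at h1
    rw [mem_two, mem_TS]
    exact ⟨Or.inr h1.1, h1.2⟩
  exact (Finset.card_le_card hsub).trans Finset.card_image_le

/-- The lower bound attached to a family with suitable weights. -/
theorem lower_of_fam {e : ℕ} (he : 2 ≤ e) {S : Finset (Multiset (ZMod m))} (h : Fam S)
    (hs : m = e + 1 + (two S).card) (W : ZMod m → ℕ) (hW1 : ∀ r, 1 ≤ W r)
    (hW : ∀ u v : Multiset (ZMod m), (u ∈ S ∨ Multiset.card u = 1) → v ∉ S →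
      2 ≤ Multiset.card v → u.sum = v.sum → (u.map W).sum + Multiset.card u ≤ (v.map W).sum) :
    (((e + 1).choose 2 + (cc (two S)).card - (two S).card : ℕ) : ℕ∞) ≤ maxRho e m := by
  classical
  have hm : 0 < m := Nat.pos_of_ne_zero (NeZero.ne m)
  have hI := isIdeal_TS h
  have hg : ∀ x : KK S, m < gS W x := by
    intro x
    unfold gS
    have h1 := hW1 x.1
    have h2 : 0 < x.1.val := by
      rw [Nat.pos_iff_ne_zero, Ne, ZMod.val_eq_zero]
      exact x.2.1
    have h3 : m * 1 ≤ m * W x.1 := Nat.mul_le_mul_left m h1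
    omega
  have hκ : Fintype.card (KK S) = e := by
    have h1 := hI.card_eq
    rw [card_TS h, card_two_TS h] at h1
    omega
  have hinj : Set.InjOn (fun u => vl (gS W) u % m) (TS S : Set (Multiset (KK S))) := by
    intro u hu v hv he
    exact inj_TS h hu hv ((modEq_iff W u v).1 he)
  have hval : ∀ u ∈ TS S, ∀ v, v ∉ TS S → vl (gS W) u ≡ vl (gS W) v [MOD m] →
      vl (gS W) u < vl (gS W) v := by
    intro u hu v hv he
    rw [modEq_iff] at he
    have hv2 : 2 ≤ Multiset.card v := by
      by_contra hcon
      apply hv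
      rcases Nat.eq_zero_or_pos (Multiset.card v) with h0 | h0
      · rw [Multiset.card_eq_zero.1 h0]; exact hI.zero
      · rw [mem_TS]; left; omega
    have hvS : v.map Subtype.val ∉ S := fun hcon => hv (mem_TS.2 (Or.inr hcon))
    have hu' : u.map Subtype.val ∈ S ∨ Multiset.card (u.map Subtype.val) = 1 := by
      rw [Multiset.card_map]
      exact (mem_TS.1 hu).symm
    have h1 := hW _ _ hu' hvS (by rw [Multiset.card_map]; exact hv2) he
    rw [Multiset.card_map] at h1
    rw [vl_gS, vl_gS]
    have h2 : ∀ w : Multiset (ZMod m), (w.map ZMod.val).sum ≤ Multiset.card w * (m - 1) := by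
      intro w
      have := Multiset.sum_le_card_nsmul (w.map ZMod.val) (m - 1) (by
        intro x hx
        rw [Multiset.mem_map] at hx
        obtain ⟨y, -, rfl⟩ := hx
        have := ZMod.val_lt y
        omega)
      rwa [Multiset.card_map, smul_eq_mul] at this
    have h3 := h2 (u.map Subtype.val)
    rw [Multiset.card_map] at h3
    have h4 := Nat.mul_le_mul_left m h1
    rw [mul_add] at h4
    have h5 : 0 < ((v.map Subtype.val).map ZMod.val).sum := by
      obtain ⟨x, hx⟩ : ∃ x, x ∈ v := Multiset.card_pos_iff_exists_mem.1 (by omega)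
      obtain ⟨v', rfl⟩ := Multiset.exists_cons_of_mem hx
      rw [Multiset.map_cons, Multiset.map_cons, Multiset.sum_cons]
      have h2 : 0 < x.1.val := by
        rw [Nat.pos_iff_ne_zero, Ne, ZMod.val_eq_zero]
        exact x.2.1
      omega
    have h6 : Multiset.card u * (m - 1) ≤ m * Multiset.card u := by
      rw [mul_comm]
      exact Nat.mul_le_mul_right _ (by omega)
    omega
  have hmain := lower_of_ideal hm (gS W) hg hI hinj (card_TS h) hval he hκ
  refine le_trans ?_ hmain
  have h1 := hI.count
  rw [card_two_TS h, hκ] at h1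
  have h2 := card_cc_TS h
  have h3 : (e + 1).choose 2 + (cc (two S)).card - (two S).card ≤ (mn (TS S)).card := by omega
  exact_mod_cast h3

end MPc709deS
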