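import Pool.Agent.Work.MP_c709de_al_sid.Struct

/-! Counting the minimal non-members of an order ideal. -/

namespace MPc709deS

open Finset

variable {κ : Type*} [Fintype κ] [DecidableEq κ]

/-- an order ideal of monomials containing all the variables. -/
structure IsIdeal (T : Finset (Multiset κ)) : Prop where
  zero : 0 ∈ T
  one : ∀ x, ({x} : Multiset κ) ∈ T
  down : ∀ u ∈ T, ∀ x ∈ u, u.erase x ∈ T

/-- the part of degree at least two -/
def two (T : Finset (Multiset κ)) : Finset (Multiset κ) := T.filter (fun v => 2 ≤ Multiset.card v)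

/-- the minimal non-members -/
def mn (T : Finset (Multiset κ)) : Finset (Multiset κ) := (cc T).filter (fun u => u ∉ T)

omit [Fintype κ] in
theorem mem_two {T : Finset (Multiset κ)} {v : Multiset κ} :
    v ∈ two T ↔ v ∈ T ∧ 2 ≤ Multiset.card v := by
  unfold two; rw [Finset.mem_filter]

theorem mem_mn {T : Finset (Multiset κ)} {u : Multiset κ} :
    u ∈ mn T ↔ (u ≠ 0 ∧ ∀ x ∈ u, u.erase x ∈ T) ∧ u ∉ T := by
  unfold mn; rw [Finset.mem_filter, mem_cc]

theorem IsIdeal.closed {T : Finset (Multiset κ)} (h : IsIdeal T) : Closed (two T) := by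
  refine ⟨fun v hv => (mem_two.1 hv).2, fun v hv x hx hc => ?_⟩
  rw [mem_two, Multiset.card_erase_of_mem hx, Nat.pred_eq_sub_one]
  exact ⟨h.down v (mem_two.1 hv).1 x hx, by omega⟩

theorem IsIdeal.card_eq {T : Finset (Multiset κ)} (h : IsIdeal T) :
    T.card = 1 + Fintype.card κ + (two T).card := by
  have h1 : T.card = (T.filter (fun v => ¬ 2 ≤ Multiset.card v)).card + (two T).card := by
    rw [add_comm]
    exact (Finset.card_filter_add_card_filter_not _).symm
  have h2 : T.filter (fun v => ¬ 2 ≤ Multiset.card v) =
      insert 0 ((univ : Finset κ).image (fun x => ({x} : Multiset κ))) := by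
    ext v
    rw [Finset.mem_filter, Finset.mem_insert, Finset.mem_image]
    constructor
    · rintro ⟨h3, h4⟩
      rcases Nat.eq_zero_or_pos (Multiset.card v) with h5 | h5
      · left; exact Multiset.card_eq_zero.1 h5
      · right
        obtain ⟨x, rfl⟩ := Multiset.card_eq_one.1 (by omega : Multiset.card v = 1)
        exact ⟨x, Finset.mem_univ _, rfl⟩
    · rintro (rfl | ⟨x, -, rfl⟩)
      · exact ⟨h.zero, by simp⟩
      · exact ⟨h.one x, by simp⟩
  rw [h1, h2, Finset.card_insert_of_notMem, Finset.card_image_of_injective, Finset.card_univ]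
  · ring
  · intro x y hxy; exact Multiset.singleton_inj.1 hxy
  · rw [Finset.mem_image]
    rintro ⟨x, -, hx⟩
    exact Multiset.singleton_ne_zero x hx

theorem IsIdeal.count {T : Finset (Multiset κ)} (h : IsIdeal T) :
    (mn T).card + (two T).card = (Fintype.card κ + 1).choose 2 + (cc (two T)).card := by
  have hQ : mn T ∪ two T = mset univ 2 ∪ cc (two T) := by
    ext u
    rw [Finset.mem_union, Finset.mem_union, mem_mn, mem_two, mem_mset, mem_cc]
    constructor
    · rintro (⟨⟨h1, h2⟩, h3⟩ | ⟨h1, h2⟩)
      · have h4 : 2 ≤ Multiset.card u := by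
          by_contra hcon
          apply h3
          have h5 : 0 < Multiset.card u := Multiset.card_pos.2 h1
          obtain ⟨x, rfl⟩ := Multiset.card_eq_one.1 (by omega : Multiset.card u = 1)
          exact h.one x
        rcases Nat.lt_or_ge (Multiset.card u) 3 with h5 | h5
        · left; exact ⟨by omega, fun x _ => Finset.mem_univ x⟩
        · right
          refine ⟨h1, fun x hx => ?_⟩
          rw [mem_two, Multiset.card_erase_of_mem hx, Nat.pred_eq_sub_one]
          exact ⟨h2 x hx, by omega⟩
      · rcases Nat.lt_or_ge (Multiset.card u) 3 with h5 | h5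
        · left; exact ⟨by omega, fun x _ => Finset.mem_univ x⟩
        · right
          refine ⟨by rintro rfl; simp at h2, fun x hx => ?_⟩
          rw [mem_two, Multiset.card_erase_of_mem hx, Nat.pred_eq_sub_one]
          exact ⟨h.down u h1 x hx, by omega⟩
    · rintro (⟨h1, -⟩ | ⟨h1, h2⟩)
      · by_cases h3 : u ∈ T
        · right; exact ⟨h3, by omega⟩
        · left
          refine ⟨⟨by rintro rfl; simp at h1, fun x hx => ?_⟩, h3⟩
          obtain ⟨z, rfl⟩ := card_two_of_mem h1 hx
          change (x ::ₘ {z}).erase x ∈ T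
          rw [Multiset.erase_cons_head]
          exact h.one z
      · have h4 : 3 ≤ Multiset.card u := h.closed.card_cc (mem_cc.2 ⟨h1, h2⟩)
        by_cases h3 : u ∈ T
        · right; exact ⟨h3, by omega⟩
        · left
          exact ⟨⟨h1, fun x hx => (mem_two.1 (h2 x hx)).1⟩, h3⟩
  have hd1 : Disjoint (mn T) (two T) := by
    rw [Finset.disjoint_left]
    intro u hu hu'
    exact (mem_mn.1 hu).2 (mem_two.1 hu').1
  have hd2 : Disjoint (mset (univ : Finset κ) 2) (cc (two T)) := by
    rw [Finset.disjoint_left]
    intro u hu hu'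
    have := h.closed.card_cc hu'
    have := (mem_mset.1 hu).1
    omega
  have := congrArg Finset.card hQ
  rw [Finset.card_union_of_disjoint hd1, Finset.card_union_of_disjoint hd2, card_mset,
    Finset.card_univ] at this
  rw [this]
  have : Fintype.card κ + 2 - 1 = Fintype.card κ + 1 := by omega
  rw [this]

/-- The Elias-Robbiano-Valla bound in the range of the second degree. -/
theorem IsIdeal.card_mn_le {T : Finset (Multiset κ)} (h : IsIdeal T) :
    (mn T).card + (two T).card ≤ (Fintype.card κ + 1).choose 2 + ff (two T).card := by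
  rw [h.count]
  exact Nat.add_le_add_left (cc_le (fun v hv => (mem_two.1 hv).2)) _

end MPc709deS
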