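import Pool.Agent.Work.MP_c709de_al.UpperSgp
import Pool.Agent.Work.MP_c709de_al_sid.Count

/-! From numerical semigroups to order ideals. -/

namespace MPc709deS

open Finset MPc709de

section

variable {κ : Type*} [Fintype κ] [LinearOrder κ] (m : ℕ) (φ : (κ →₀ ℕ) →+ ℕ)

/-- standard monomials as multisets -/
noncomputable def TT (hm : 0 < m) : Finset (Multiset κ) :=
  (std_finite m φ hm).toFinset.map Multiset.toFinsupp.symm.toEquiv.toEmbedding

theorem mem_TT (hm : 0 < m) {u : Multiset κ} : u ∈ TT m φ hm ↔ Std m φ (Multiset.toFinsupp u) := by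
  unfold TT
  rw [Finset.mem_map]
  constructor
  · rintro ⟨a, ha, rfl⟩
    have h1 : Std m φ a := by simpa using ha
    change Std m φ (Multiset.toFinsupp (Finsupp.toMultiset a))
    rw [Finsupp.toMultiset_toFinsupp]
    exact h1
  · intro h
    refine ⟨Multiset.toFinsupp u, by simpa using h, ?_⟩
    exact Multiset.toFinsupp_toMultiset u

omit [Fintype κ] in
theorem toFinsupp_erase {u : Multiset κ} {x : κ} (hx : x ∈ u) :
    Multiset.toFinsupp u = Multiset.toFinsupp (u.erase x) + Finsupp.single x 1 := by
  conv_lhs => rw [← Multiset.cons_erase hx]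
  rw [← Multiset.singleton_add, map_add, Multiset.toFinsupp_singleton, add_comm]

theorem card_TT_le (hm : 0 < m) : (TT m φ hm).card ≤ m := by
  unfold TT
  rw [Finset.card_map]
  exact std_card m φ hm

theorem isIdeal_TT (hm : 0 < m) (h1 : ∀ x, Std m φ (Finsupp.single x 1)) :
    IsIdeal (TT m φ hm) where
  zero := by
    rw [mem_TT, map_zero]
    exact std_zero m φ
  one x := by
    rw [mem_TT, Multiset.toFinsupp_singleton]
    exact h1 x
  down u hu x hx := by
    rw [mem_TT] at hu ⊢
    rw [toFinsupp_erase hx] at hu
    exact hu.of_add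

theorem minNon_le_mn (hm : 0 < m) :
    (minNon_finite m φ hm).toFinset.card ≤ (mn (TT m φ hm)).card := by
  apply Finset.card_le_card_of_injOn (fun a => Finsupp.toMultiset a)
  · intro a ha
    have ha' : a ∈ MinNon m φ := by simpa using ha
    rw [Finset.mem_coe, mem_mn, mem_TT, Finsupp.toMultiset_toFinsupp]
    refine ⟨⟨?_, ?_⟩, ha'.1⟩
    · intro h0
      have h2 : a = 0 := by
        have := congrArg Multiset.toFinsupp h0
        rwa [Finsupp.toMultiset_toFinsupp, map_zero] at this
      apply ha'.1
      rw [h2]
      exact std_zero m φ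
    · intro x hx
      rw [mem_TT]
      have h2 := toFinsupp_erase hx
      rw [Finsupp.toMultiset_toFinsupp] at h2
      have h3 : a x ≠ 0 := by rw [h2]; simp
      have h4 := ha'.2 x h3
      have h5 : a - Finsupp.single x 1 = Multiset.toFinsupp ((Finsupp.toMultiset a).erase x) := by
        conv_lhs => rw [h2]
        exact add_tsub_cancel_right _ _
      rw [h5] at h4
      exact h4
  · intro a _ b _ h
    exact Multiset.toFinsupp.symm.injective h

theorem genKer_TT (hm : 0 < m) : (∃ R, GenKer (Phi m φ) R) ∧
    presRank (Phi m φ) ≤ (mn (TT m φ hm)).card := by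
  classical
  have h1 := genKer_relOf m φ hm (minNon_finite m φ hm).toFinset (by intro u; simp)
  refine ⟨⟨_, h1⟩, ?_⟩
  exact (presRank_le h1).trans (Finset.card_image_le.trans (minNon_le_mn m φ hm))

end

/-- The order ideal attached to a numerical semigroup. -/
theorem exists_ideal {Γ : AddSubmonoid ℕ} (h : IsNumerical Γ) {e : ℕ} (hed : edim Γ = e + 1) :
    ∃ (κ : Type) (_ : Fintype κ) (_ : DecidableEq κ) (g : κ → ℕ) (T : Finset (Multiset κ)),
      Fintype.card κ = e ∧ IsIdeal T ∧ T.card = mult Γ ∧
      Set.InjOn (fun u : Multiset κ => (((u.map g).sum : ℕ) : ZMod (mult Γ))) T ∧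
      rho Γ ≤ (mn T).card := by
  classical
  have hfin : (minGens Γ).Finite := Set.finite_of_ncard_ne_zero (by
    have : (minGens Γ).ncard = e + 1 := hed
    omega)
  obtain ⟨hm1, hm2⟩ := mult_mem h
  have hmg := mult_mem_minGens h
  set m := mult Γ with hm
  have : Fintype (minGens Γ) := hfin.fintype
  set κ := {x : minGens Γ // (x : ℕ) ≠ m} with hκ
  have hcard1 : Fintype.card (minGens Γ) = e + 1 := by
    have : (minGens Γ).ncard = e + 1 := hed
    rw [← this, Set.ncard_eq_toFinset_card', Set.toFinset_card]
  have hcard : Fintype.card κ = e := by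
    have h1 : Fintype.card κ = (univ.erase (⟨m, hmg⟩ : minGens Γ)).card := by
      rw [Fintype.card_subtype]
      congr 1
      ext x
      simp only [Finset.mem_filter, Finset.mem_univ, true_and, Finset.mem_erase, and_true, ne_eq]
      constructor
      · intro h hx; exact h (by rw [hx])
      · intro h hx; exact h (Subtype.ext hx)
    rw [h1, Finset.card_erase_of_mem (Finset.mem_univ _), Finset.card_univ, hcard1]
    omega
  let hh : Option κ → ℕ := fun o => o.elim m (fun k => (k.1 : ℕ))
  have hinj : Function.Injective hh := by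
    intro a b hab
    cases a with
    | none =>
      cases b with
      | none => rfl
      | some b => exact absurd hab.symm b.2
    | some a =>
      cases b with
      | none => exact absurd hab a.2
      | some b =>
        have : a = b := Subtype.ext (Subtype.ext hab)
        rw [this]
  have hr : Set.range hh = minGens Γ := by
    ext x
    constructor
    · rintro ⟨o, rfl⟩
      cases o with
      | none => exact hmg
      | some k => exact k.1.2
    · intro hx
      by_cases hxm : x = m
      · exact ⟨none, hxm.symm⟩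
      · exact ⟨some ⟨⟨x, hx⟩, hxm⟩, rfl⟩
  let φ : (κ →₀ ℕ) →+ ℕ :=
    (comb (fun k : κ => (k.1 : ℕ))).comp (Finsupp.coeFnAddHom : (κ →₀ ℕ) →+ (κ → ℕ))
  have hcomb : comb hh = (Phi m φ).comp (optEquiv κ).toAddMonoidHom := by
    ext a
    simp only [comb_apply, AddMonoidHom.coe_comp, Function.comp_apply, Phi_apply, φ]
    rw [Fintype.sum_option]
    rfl
  have hφ : ∀ a : κ →₀ ℕ, φ a = ((Finsupp.toMultiset a).map (fun k : κ => (k.1 : ℕ))).sum := by
    intro a
    induction a using Finsupp.induction_linear with
    | zero => simp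
    | add f g hf hg => rw [map_add, hf, hg, map_add, Multiset.map_add, Multiset.sum_add]
    | single x n =>
      rw [Finsupp.toMultiset_single, Multiset.map_nsmul, Multiset.sum_nsmul]
      simp only [φ, AddMonoidHom.coe_comp, Function.comp_apply, Finsupp.coeFnAddHom_apply,
        comb_apply, Multiset.map_singleton, Multiset.sum_singleton, smul_eq_mul]
      rw [Finset.sum_eq_single x]
      · simp
      · intro b _ hb; simp [Finsupp.single_apply, hb.symm]
      · simp
  have hφ1 : ∀ x : κ, φ (Finsupp.single x 1) = (x.1 : ℕ) := by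
    intro x
    rw [hφ]
    simp
  -- values lie in Γ
  have hval : ∀ p : ℕ × (κ →₀ ℕ), Phi m φ p ∈ Γ := by
    intro p
    rw [Phi_apply]
    apply Γ.add_mem
    · rw [← smul_eq_mul]; exact Γ.nsmul_mem hm1 _
    · rw [hφ]
      apply AddSubmonoid.multiset_sum_mem
      intro y hy
      rw [Multiset.mem_map] at hy
      obtain ⟨x, -, rfl⟩ := hy
      exact x.1.2.1
  -- generation
  have hgen : ∀ n ∈ Γ, ∃ p : ℕ × (κ →₀ ℕ), Phi m φ p = n := by
    intro n
    induction n using Nat.strong_induction_on with
    | _ n ih =>
      intro hn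
      by_cases h0 : n = 0
      · exact ⟨0, by rw [h0, map_zero]⟩
      by_cases hmin : n ∈ minGens Γ
      · by_cases hnm : n = m
        · exact ⟨(1, 0), by rw [Phi_apply, hnm]; simp⟩
        · exact ⟨(0, Finsupp.single ⟨⟨n, hmin⟩, hnm⟩ 1), by rw [Phi_apply, hφ1]; simp⟩
      · have : ¬ ∀ a ∈ Γ, ∀ b ∈ Γ, a + b = n → a = 0 ∨ b = 0 := fun hcon => hmin ⟨hn, h0, hcon⟩
        push Not at this
        obtain ⟨a, ha, b, hb, hab, ha0, hb0⟩ := this
        obtain ⟨p, hp⟩ := ih a (by omega) ha
        obtain ⟨q, hq⟩ := ih b (by omega) hb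
        exact ⟨p + q, by rw [map_add, hp, hq, hab]⟩
  -- variables are standard
  have hone : ∀ x : κ, Std m φ (Finsupp.single x 1) := by
    intro x b hb hlt
    have hle : φ b ≤ φ (Finsupp.single x 1) := by
      rw [prec_iff] at hlt; omega
    obtain ⟨t, ht⟩ := (Nat.modEq_iff_dvd' hle).1 hb
    rw [hφ1] at hle ht
    have hxeq : Phi m φ (t, b) = (x.1 : ℕ) := by
      rw [Phi_apply]
      simp only
      rw [mul_comm]; omega
    -- the expression of a minimal generator is trivial
    have hmin := x.1.2.2.2
    have hb1 : φ b ∈ Γ := by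
      have := hval (0, b)
      rwa [Phi_apply, zero_mul, zero_add] at this
    have htm : t * m ∈ Γ := by
      rw [← smul_eq_mul]; exact Γ.nsmul_mem hm1 _
    rw [Phi_apply] at hxeq
    simp only at hxeq
    rcases hmin (t * m) htm (φ b) hb1 hxeq with h1 | h1
    · -- t = 0
      have hbx : φ b = (x.1 : ℕ) := by omega
      -- b is a single variable
      have hb0 : b ≠ 0 := by
        rintro rfl
        rw [map_zero] at hbx
        exact x.1.2.2.1 hbx.symm
      obtain ⟨y, hy⟩ : ∃ y, b y ≠ 0 := by
        by_contra hcon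
        push Not at hcon
        exact hb0 (Finsupp.ext hcon)
      have hle' : Finsupp.single y 1 ≤ b := by
        rw [Finsupp.single_le_iff]; omega
      have hsplit : φ (Finsupp.single y 1) + φ (b - Finsupp.single y 1) = φ b := by
        rw [← map_add, add_tsub_cancel_of_le hle']
      have h2 : φ (b - Finsupp.single y 1) ∈ Γ := by
        have := hval (0, b - Finsupp.single y 1)
        rwa [Phi_apply, zero_mul, zero_add] at this
      rw [hφ1, hbx] at hsplit
      rcases hmin _ y.1.2.1 _ h2 hsplit with h3 | h3
      · exact y.1.2.2.1 h3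
      · have h4 : x = y := by
          apply Subtype.ext; apply Subtype.ext
          omega
        have h5 : b - Finsupp.single y 1 = 0 := by
          by_contra hcon
          obtain ⟨z, hz⟩ : ∃ z : κ, (b - Finsupp.single y 1 : κ →₀ ℕ) z ≠ 0 := by
            by_contra hcon'
            push Not at hcon'
            exact hcon (Finsupp.ext hcon')
          have hle'' : Finsupp.single z 1 ≤ b - Finsupp.single y 1 := by
            rw [Finsupp.single_le_iff]; omega
          have hsplit' : φ (Finsupp.single z 1) + φ (b - Finsupp.single y 1 - Finsupp.single z 1) =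
              φ (b - Finsupp.single y 1) := by
            rw [← map_add, add_tsub_cancel_of_le hle'']
          rw [hφ1, h3] at hsplit'
          have := z.1.2.2.1
          omega
        have h6 : b = Finsupp.single x 1 := by
          rw [h4, ← add_tsub_cancel_of_le hle', h5, add_zero]
        rw [h6] at hlt
        exact prec_irrefl φ _ hlt
    · -- φ b = 0 : then x = t m, so t = 1 and x = m
      have hxt : t * m = (x.1 : ℕ) := by omega
      have hx0 := x.1.2.2.1
      have ht1 : 1 ≤ t := by
        rcases Nat.eq_zero_or_pos t with h2 | h2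
        · rw [h2, zero_mul] at hxt; exact absurd hxt.symm hx0
        · exact h2
      have h2 : (t - 1) * m ∈ Γ := by
        rw [← smul_eq_mul]; exact Γ.nsmul_mem hm1 _
      have h3 : m + (t - 1) * m = (x.1 : ℕ) := by
        rw [← hxt]
        obtain ⟨r, rfl⟩ := Nat.exists_eq_add_of_le ht1
        rw [Nat.add_sub_cancel_left]; ring
      rcases hmin _ hm1 _ h2 h3 with h4 | h4
      · omega
      · exact x.2 (by omega)
  -- cardinality
  have hcardT : (TT m φ hm2).card = m := by
    apply le_antisymm (card_TT_le m φ hm2)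
    have hfin2 : ((Γ : Set ℕ)ᶜ).Finite := h
    obtain ⟨B, hB⟩ := hfin2.bddAbove
    have hsurj : ∀ r ∈ Finset.range m, ∃ a ∈ (std_finite m φ hm2).toFinset, φ a % m = r := by
      intro r hr
      rw [Finset.mem_range] at hr
      have hn : r + m * (B + 1) ∈ Γ := by
        by_contra hcon
        have := hB hcon
        have h2 : B + 1 ≤ m * (B + 1) := Nat.le_mul_of_pos_left _ hm2
        omega
      obtain ⟨p, hp⟩ := hgen _ hn
      refine ⟨nf m φ p.2, by simpa using nf_std m φ p.2, ?_⟩
      have h3 := nf_modEq m φ p.2
      rw [Phi_apply] at hp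
      have h4 : φ p.2 % m = r := by
        have h5 := congrArg (· % m) hp
        simp only [Nat.mul_add_mod', Nat.add_mul_mod_self_left] at h5
        rw [h5, Nat.mod_eq_of_lt hr]
      rw [← h4]
      exact h3
    unfold TT
    rw [Finset.card_map]
    calc m = (Finset.range m).card := (Finset.card_range m).symm
      _ ≤ ((std_finite m φ hm2).toFinset.image (fun a => φ a % m)).card := by
          apply Finset.card_le_card
          intro r hr
          rw [Finset.mem_image]
          exact hsurj r hr
      _ ≤ _ := Finset.card_image_le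
  obtain ⟨⟨R, hR⟩, hle⟩ := genKer_TT m φ hm2
  have hne : ∃ R, GenKer (comb hh) R := by
    rw [hcomb]; exact ⟨_, hR.comp_equiv _⟩
  refine ⟨κ, inferInstance, (inferInstance : LinearOrder κ).toDecidableEq, fun k => (k.1 : ℕ),
    TT m φ hm2, hcard, isIdeal_TT m φ hm2 hone, hcardT, ?_, ?_⟩
  · intro u hu v hv huv
    have hu' : Std m φ (Multiset.toFinsupp u) := (mem_TT m φ hm2).1 hu
    have hv' : Std m φ (Multiset.toFinsupp v) := (mem_TT m φ hm2).1 hv
    have h1 : φ (Multiset.toFinsupp u) ≡ φ (Multiset.toFinsupp v) [MOD m] := by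
      rw [← ZMod.natCast_eq_natCast_iff, hφ, hφ, Multiset.toFinsupp_toMultiset,
        Multiset.toFinsupp_toMultiset]
      exact huv
    exact Multiset.toFinsupp.injective (hu'.unique m φ hv' h1)
  · rw [rho_eq hinj hr hne, hcomb]
    exact (presRank_comp_equiv_le _ _ ⟨R, hR⟩).trans hle

end MPc709deS
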