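import Pool.Agent.Work.MP_c709de_al_sid.Defs
import Pool.Agent.Work.MP_c709de_al_sid.Lift
import Pool.Agent.Work.MP_c709de_al_sid.UpperM

/-! Configurations in `ℤ/m`. -/

namespace MPc709deS

open Finset MPc709de

section

variable {m : ℕ}

/-- finite version of `low` -/
def base (X : Finset (ZMod m)) : Finset (Multiset (ZMod m)) := mset X 0 ∪ mset X 1 ∪ mset X 2

theorem mem_base {X : Finset (ZMod m)} {u : Multiset (ZMod m)} :
    u ∈ base X ↔ Multiset.card u ≤ 2 ∧ ∀ x ∈ u, x ∈ X := by
  unfold base
  rw [Finset.mem_union, Finset.mem_union, mem_mset, mem_mset, mem_mset]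
  constructor
  · rintro ((⟨h1, h2⟩ | ⟨h1, h2⟩) | ⟨h1, h2⟩)
    · exact ⟨by omega, h2⟩
    · exact ⟨by omega, h2⟩
    · exact ⟨by omega, h2⟩
  · rintro ⟨h1, h2⟩
    rcases (by omega : Multiset.card u = 0 ∨ Multiset.card u = 1 ∨ Multiset.card u = 2) with
      h | h | h
    · exact Or.inl (Or.inl ⟨h, h2⟩)
    · exact Or.inl (Or.inr ⟨h, h2⟩)
    · exact Or.inr ⟨h, h2⟩

theorem coe_base (X : Finset (ZMod m)) : (base X : Set (Multiset (ZMod m))) = low X := by
  ext u
  rw [Finset.mem_coe, mem_base]; rfl

theorem base_down {X : Finset (ZMod m)} {u : Multiset (ZMod m)} (hu : u ∈ base X) {x : ZMod m}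
    (hx : x ∈ u) : u.erase x ∈ base X := by
  rw [mem_base] at hu ⊢
  refine ⟨(Multiset.card_le_card (Multiset.erase_le x u)).trans hu.1, ?_⟩
  intro y hy
  exact hu.2 y (Multiset.mem_of_mem_erase hy)

theorem zero_mem_base (X : Finset (ZMod m)) : 0 ∈ base X := by
  rw [mem_base]; simp

theorem two_base (X : Finset (ZMod m)) : two (base X) = mset X 2 := by
  ext u
  rw [mem_two, mem_base, mem_mset]
  constructor
  · rintro ⟨⟨h1, h2⟩, h3⟩; exact ⟨by omega, h2⟩
  · rintro ⟨h1, h2⟩; exact ⟨⟨by omega, h2⟩, by omega⟩

theorem card_mset2 {κ : Type*} [DecidableEq κ] (X : Finset κ) :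
    (mset X 2).card = (X.card + 1).choose 2 := by
  rw [card_mset]
  have : X.card + 2 - 1 = X.card + 1 := by omega
  rw [this]

theorem card_mset3 {κ : Type*} [DecidableEq κ] (X : Finset κ) :
    (mset X 3).card = (X.card + 2).choose 3 := by
  rw [card_mset]
  have : X.card + 3 - 1 = X.card + 2 := by omega
  rw [this]

theorem mset3_erase {X : Finset (ZMod m)} {u : Multiset (ZMod m)} (hu : u ∈ mset X 3) {x : ZMod m}
    (hx : x ∈ u) : u.erase x ∈ mset X 2 := by
  rw [mem_mset] at hu ⊢
  rw [Multiset.card_erase_of_mem hx, Nat.pred_eq_sub_one]
  exact ⟨by omega, fun y hy => hu.2 y (Multiset.mem_of_mem_erase hy)⟩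

/-- weight estimate -/
theorem weight_ge {W : ZMod m → ℕ} {c : ℕ} (hW : ∀ r, c ≤ W r) (v : Multiset (ZMod m)) :
    c * Multiset.card v ≤ (v.map W).sum := by
  have := Multiset.card_nsmul_le_sum (s := v.map W) (a := c) (by
    intro x hx
    rw [Multiset.mem_map] at hx
    obtain ⟨y, -, rfl⟩ := hx
    exact hW y)
  rwa [Multiset.card_map, smul_eq_mul, mul_comm] at this

end

section

variable {m : ℕ} [NeZero m]

/-- type 0 -/
theorem lower0 {e k : ℕ} (he : 2 ≤ e) {X : Finset (ZMod m)} (hX : X.card = k)
    (hinj : Set.InjOn Multiset.sum (low X)) (hm : m = e + 1 + (k + 1).choose 2) :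
    (((e + 1).choose 2 + (k + 2).choose 3 - (k + 1).choose 2 : ℕ) : ℕ∞) ≤ maxRho e m := by
  classical
  have hF : Fam (base X) := ⟨zero_mem_base X, fun u hu x hx => base_down hu hx, by
    rw [coe_base]; exact hinj⟩
  have h2 : (two (base X)).card = (k + 1).choose 2 := by rw [two_base, card_mset2, hX]
  have h3 : (k + 2).choose 3 ≤ (cc (two (base X))).card := by
    rw [← hX, ← card_mset3]
    apply Finset.card_le_card
    intro u hu
    rw [mem_cc, two_base]
    refine ⟨?_, fun x hx => mset3_erase hu hx⟩
    rintro rfl
    rw [mem_mset] at hu
    simp at hu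
  have hmain := lower_of_fam he hF (by rw [h2]; exact hm) (fun r => if r ∈ X then 8 else 16)
    (by intro r; beta_reduce; split_ifs <;> omega) (by
      intro u v hu hv hv2 _
      have hW8 : ∀ r : ZMod m, 8 ≤ (fun r => if r ∈ X then 8 else 16) r := by
        intro r; beta_reduce; split_ifs <;> omega
      have hv24 : 24 ≤ (v.map (fun r => if r ∈ X then 8 else 16)).sum := by
        rcases Nat.lt_or_ge (Multiset.card v) 3 with h | h
        · obtain ⟨a, b, rfl⟩ := Multiset.card_eq_two.1 (by omega : Multiset.card v = 2)
          simp only [Multiset.insert_eq_cons, Multiset.map_cons, Multiset.map_singleton,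
            Multiset.sum_cons, Multiset.sum_singleton]
          by_cases ha : a ∈ X
          · by_cases hb : b ∈ X
            · exfalso
              apply hv
              rw [mem_base]
              refine ⟨by simp, ?_⟩
              intro x hx
              simp only [Multiset.insert_eq_cons, Multiset.mem_cons, Multiset.mem_singleton] at hx
              rcases hx with rfl | rfl <;> assumption
            · rw [if_pos ha, if_neg hb]
          · rw [if_neg ha]
            split_ifs <;> omega
        · have := weight_ge hW8 v
          omega
      have hu18 : (u.map (fun r => if r ∈ X then 8 else 16)).sum + Multiset.card u ≤ 18 := by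
        rcases hu with hu | hu
        · rw [mem_base] at hu
          have h4 : (u.map (fun r => if r ∈ X then 8 else 16)) = u.map (fun _ => 8) := by
            apply Multiset.map_congr rfl
            intro x hx
            rw [if_pos (hu.2 x hx)]
          rw [h4, Multiset.map_const', Multiset.sum_replicate, smul_eq_mul]
          omega
        · obtain ⟨x, rfl⟩ := Multiset.card_eq_one.1 hu
          simp only [Multiset.map_singleton, Multiset.sum_singleton, Multiset.card_singleton]
          split_ifs <;> omega
      omega)
  refine le_trans ?_ hmain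
  rw [h2]
  have : (e + 1).choose 2 + (k + 2).choose 3 - (k + 1).choose 2 ≤
      (e + 1).choose 2 + (cc (two (base X))).card - (k + 1).choose 2 := by omega
  exact_mod_cast this

/-- type 1 -/
theorem lower1 {e k t : ℕ} (he : 2 ≤ e) {X : Finset (ZMod m)} (hX : X.card = k) {y : ZMod m}
    (hy : y ∉ X) {Z : Finset (ZMod m)} (hZ : Z ⊆ insert y X) (hZt : Z.card = t)
    (hinj : Set.InjOn Multiset.sum (low X ∪ {{y}} ∪ {u | ∃ z ∈ Z, u = {y, z}}))
    (hm : m = e + 1 + ((k + 1).choose 2 + t)) :
    (((e + 1).choose 2 + ((k + 2).choose 3 + (t + 1).choose 2) - ((k + 1).choose 2 + t) : ℕ) : ℕ∞)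
      ≤ maxRho e m := by
  classical
  set S : Finset (Multiset (ZMod m)) :=
    base X ∪ {{y}} ∪ Z.image (fun z => ({y, z} : Multiset (ZMod m))) with hS
  have hmem : ∀ u, u ∈ S ↔ (u ∈ base X ∨ u = {y}) ∨ ∃ z ∈ Z, u = {y, z} := by
    intro u
    rw [hS, Finset.mem_union, Finset.mem_union, Finset.mem_singleton, Finset.mem_image]
    constructor
    · rintro (h | ⟨z, hz, rfl⟩)
      · exact Or.inl h
      · exact Or.inr ⟨z, hz, rfl⟩
    · rintro (h | ⟨z, hz, rfl⟩)
      · exact Or.inl h
      · exact Or.inr ⟨z, hz, rfl⟩
  have hF : Fam S := by
    refine ⟨(hmem _).2 (Or.inl (Or.inl (zero_mem_base X))), ?_, ?_⟩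
    · intro u hu x hx
      rw [hmem] at hu ⊢
      rcases hu with (hu | rfl) | ⟨z, hz, rfl⟩
      · exact Or.inl (Or.inl (base_down hu hx))
      · rw [Multiset.mem_singleton] at hx
        subst hx
        rw [Multiset.erase_singleton]
        exact Or.inl (Or.inl (zero_mem_base X))
      · simp only [Multiset.insert_eq_cons, Multiset.mem_cons, Multiset.mem_singleton] at hx
        by_cases hxy : x = y
        · subst hxy
          rw [Multiset.insert_eq_cons, Multiset.erase_cons_head]
          rcases Finset.mem_insert.1 (hZ hz) with h | h
          · left; right; rw [h]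
          · left; left
            rw [mem_base]
            refine ⟨by simp, ?_⟩
            intro a ha
            rw [Multiset.mem_singleton] at ha
            rw [ha]; exact h
        · have hxz : x = z := by tauto
          subst hxz
          have h1 : ({y, x} : Multiset (ZMod m)).erase x = {y} := by
            rw [Multiset.pair_comm]; exact Multiset.erase_cons_head _ _
          rw [h1]
          left; right; rfl
    · have : (S : Set (Multiset (ZMod m))) = low X ∪ {{y}} ∪ {u | ∃ z ∈ Z, u = {y, z}} := by
        ext u
        rw [Finset.mem_coe, hmem, ← coe_base]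
        rfl
      rw [this]
      exact hinj
  have htwo : two S = mset X 2 ∪ Z.image (fun z => ({y, z} : Multiset (ZMod m))) := by
    ext u
    rw [mem_two, hmem, Finset.mem_union, mem_mset, Finset.mem_image, mem_base]
    constructor
    · rintro ⟨(⟨h1, h2⟩ | rfl) | ⟨z, hz, rfl⟩, h3⟩
      · left; exact ⟨by omega, h2⟩
      · simp at h3
      · right; exact ⟨z, hz, rfl⟩
    · rintro (⟨h1, h2⟩ | ⟨z, hz, rfl⟩)
      · exact ⟨Or.inl (Or.inl ⟨by omega, h2⟩), by omega⟩
      · exact ⟨Or.inr ⟨z, hz, rfl⟩, by simp⟩
  have h2 : (two S).card = (k + 1).choose 2 + t := by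
    rw [htwo, Finset.card_union_of_disjoint, card_mset2, hX, Finset.card_image_of_injective, hZt]
    · intro z z' h; exact pair_inj h
    · rw [Finset.disjoint_left]
      intro u hu hu'
      rw [Finset.mem_image] at hu'
      obtain ⟨z, -, rfl⟩ := hu'
      exact hy ((mem_mset.1 hu).2 y (by simp))
  have h3 : (k + 2).choose 3 + (t + 1).choose 2 ≤ (cc (two S)).card := by
    have hc1 : (mset X 3 ∪ (mset Z 2).image (fun w => y ::ₘ w)).card =
        (k + 2).choose 3 + (t + 1).choose 2 := by
      rw [Finset.card_union_of_disjoint, card_mset3, hX, Finset.card_image_of_injective,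
        card_mset2, hZt]
      · intro z z' h; exact (Multiset.cons_inj_right y).1 h
      · rw [Finset.disjoint_left]
        intro u hu hu'
        rw [Finset.mem_image] at hu'
        obtain ⟨z, -, rfl⟩ := hu'
        exact hy ((mem_mset.1 hu).2 y (by simp))
    rw [← hc1]
    apply Finset.card_le_card
    intro u hu
    rw [mem_cc, htwo]
    rw [Finset.mem_union] at hu
    rcases hu with hu | hu
    · refine ⟨?_, fun x hx => ?_⟩
      · rintro rfl
        rw [mem_mset] at hu
        simp at hu
      · rw [Finset.mem_union]; left; exact mset3_erase hu hx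
    · rw [Finset.mem_image] at hu
      obtain ⟨w, hw, rfl⟩ := hu
      rw [mem_mset] at hw
      refine ⟨Multiset.cons_ne_zero, fun x hx => ?_⟩
      rw [Finset.mem_union]
      by_cases hxy : x = y
      · subst hxy
        rw [Multiset.erase_cons_head]
        by_cases hxw : x ∈ w
        · right
          obtain ⟨z, rfl⟩ := card_two_of_mem hw.1 hxw
          rw [Finset.mem_image]
          exact ⟨z, hw.2 z (by simp), rfl⟩
        · left
          rw [mem_mset]
          refine ⟨hw.1, fun z hz => ?_⟩
          rcases Finset.mem_insert.1 (hZ (hw.2 z hz)) with h | h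
          · subst h; exact absurd hz hxw
          · exact h
      · right
        rw [Multiset.mem_cons] at hx
        have hxw : x ∈ w := by tauto
        obtain ⟨z, rfl⟩ := card_two_of_mem hw.1 hxw
        rw [Multiset.erase_cons_tail _ (by simpa using Ne.symm hxy), Multiset.insert_eq_cons,
          Multiset.erase_cons_head, Finset.mem_image]
        exact ⟨z, hw.2 z (by simp), rfl⟩
  set W : ZMod m → ℕ := fun r => if r ∈ X then 8 else if r = y then 11 else 16 with hWdef
  have hWX : ∀ r ∈ X, W r = 8 := by intro r hr; simp only [hWdef, if_pos hr]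
  have hWy : W y = 11 := by simp only [hWdef, if_neg hy, if_pos]
  have hWo : ∀ r, r ∉ X → r ≠ y → W r = 16 := by
    intro r hr hr'; simp only [hWdef, if_neg hr, if_neg hr']
  have hW8 : ∀ r : ZMod m, 8 ≤ W r := by
    intro r; simp only [hWdef]; split_ifs <;> omega
  have hW16 : ∀ r : ZMod m, W r ≤ 16 := by
    intro r; simp only [hWdef]; split_ifs <;> omega
  have hmain := lower_of_fam he hF (by rw [h2]; exact hm) W
    (by intro r; have := hW8 r; omega) (by
      intro u v hu hv hv2 huv
      rw [hmem] at hu hv
      push Not at hv
      -- bound for `u` not of the form `{y, z}`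
      have hu18 : ((u ∈ base X ∨ u = {y}) ∨ Multiset.card u = 1) →
          (u.map W).sum + Multiset.card u ≤ 18 := by
        rintro ((hu | rfl) | hu)
        · rw [mem_base] at hu
          have h4 : u.map W = u.map (fun _ => 8) := by
            apply Multiset.map_congr rfl
            intro x hx
            exact hWX x (hu.2 x hx)
          rw [h4, Multiset.map_const', Multiset.sum_replicate, smul_eq_mul]
          omega
        · simp only [Multiset.map_singleton, Multiset.sum_singleton, Multiset.card_singleton]
          omega
        · obtain ⟨x, rfl⟩ := Multiset.card_eq_one.1 hu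
          simp only [Multiset.map_singleton, Multiset.sum_singleton, Multiset.card_singleton]
          have := hW16 x
          omega
      -- bound for `v`
      rcases Nat.lt_or_ge (Multiset.card v) 3 with h | h
      · obtain ⟨a, b, rfl⟩ := Multiset.card_eq_two.1 (by omega : Multiset.card v = 2)
        have hvW : (({a, b} : Multiset (ZMod m)).map W).sum = W a + W b := by
          simp only [Multiset.insert_eq_cons, Multiset.map_cons, Multiset.map_singleton,
            Multiset.sum_cons, Multiset.sum_singleton]
        rw [hvW]
        -- key case analysis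
        have key : (W a + W b ≥ 24) ∨ (∃ c ∈ X, ({a, b} : Multiset (ZMod m)) = {y, c} ∧
            W a + W b = 19) ∨ (({a, b} : Multiset (ZMod m)) = {y, y} ∧ W a + W b = 22) := by
          by_cases ha : a ∈ X
          · by_cases hb : b ∈ X
            · exfalso
              apply hv.1.1
              rw [mem_base]
              refine ⟨by simp, ?_⟩
              intro x hx
              simp only [Multiset.insert_eq_cons, Multiset.mem_cons, Multiset.mem_singleton] at hx
              rcases hx with rfl | rfl <;> assumption
            · by_cases hby : b = y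
              · right; left
                exact ⟨a, ha, by rw [hby]; exact Multiset.pair_comm _ _, by
                  rw [hWX a ha, hby, hWy]⟩
              · left
                rw [hWX a ha, hWo b hb hby]
          · by_cases hay : a = y
            · by_cases hb : b ∈ X
              · right; left
                exact ⟨b, hb, by rw [hay], by rw [hay, hWy, hWX b hb]⟩
              · by_cases hby : b = y
                · right; right
                  exact ⟨by rw [hay, hby], by rw [hay, hby, hWy]⟩
                · left
                  rw [hay, hWy, hWo b hb hby]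
                  omega
            · left
              rw [hWo a ha hay]
              have := hW8 b
              omega
        rcases key with h24 | ⟨c, hc, hvc, h19⟩ | ⟨hvy, h22⟩
        · by_cases hu' : (u ∈ base X ∨ u = {y}) ∨ Multiset.card u = 1
          · have := hu18 hu'; omega
          · obtain ⟨z, hz, rfl⟩ : ∃ z ∈ Z, u = {y, z} := by tauto
            have huW : (({y, z} : Multiset (ZMod m)).map W).sum = W y + W z := by
              simp only [Multiset.insert_eq_cons, Multiset.map_cons, Multiset.map_singleton,
                Multiset.sum_cons, Multiset.sum_singleton]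
            have hcz : Multiset.card ({y, z} : Multiset (ZMod m)) = 2 := by simp
            rw [huW, hcz, hWy]
            rcases Finset.mem_insert.1 (hZ hz) with h | h
            · rw [h, hWy]; omega
            · rw [hWX z h]; omega
        · by_cases hu' : (u ∈ base X ∨ u = {y}) ∨ Multiset.card u = 1
          · have := hu18 hu'; omega
          · exfalso
            obtain ⟨z, hz, rfl⟩ : ∃ z ∈ Z, u = {y, z} := by tauto
            rw [hvc] at huv
            have hzc : z = c := by
              simpa using huv
            subst hzc
            exact hv.2 z hz hvc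
        · by_cases hu' : (u ∈ base X ∨ u = {y}) ∨ Multiset.card u = 1
          · have := hu18 hu'; omega
          · obtain ⟨z, hz, rfl⟩ : ∃ z ∈ Z, u = {y, z} := by tauto
            have huW : (({y, z} : Multiset (ZMod m)).map W).sum = W y + W z := by
              simp only [Multiset.insert_eq_cons, Multiset.map_cons, Multiset.map_singleton,
                Multiset.sum_cons, Multiset.sum_singleton]
            have hcz : Multiset.card ({y, z} : Multiset (ZMod m)) = 2 := by simp
            rw [huW, hcz, hWy]
            rcases Finset.mem_insert.1 (hZ hz) with h | h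
            · subst h
              exact absurd hvy (hv.2 z hz)
            · rw [hWX z h]; omega
      · have h24 := weight_ge hW8 v
        by_cases hu' : (u ∈ base X ∨ u = {y}) ∨ Multiset.card u = 1
        · have := hu18 hu'; omega
        · obtain ⟨z, hz, rfl⟩ : ∃ z ∈ Z, u = {y, z} := by tauto
          have huW : (({y, z} : Multiset (ZMod m)).map W).sum = W y + W z := by
            simp only [Multiset.insert_eq_cons, Multiset.map_cons, Multiset.map_singleton,
              Multiset.sum_cons, Multiset.sum_singleton]
          have hcz : Multiset.card ({y, z} : Multiset (ZMod m)) = 2 := by simp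
          rw [huW, hcz, hWy]
          rcases Finset.mem_insert.1 (hZ hz) with h | h
          · rw [h, hWy]; omega
          · rw [hWX z h]; omega)
  refine le_trans ?_ hmain
  rw [h2]
  have : (e + 1).choose 2 + ((k + 2).choose 3 + (t + 1).choose 2) - ((k + 1).choose 2 + t) ≤
      (e + 1).choose 2 + (cc (two S)).card - ((k + 1).choose 2 + t) := by omega
  exact_mod_cast this

/-- type 2 -/
theorem lower2 {e k : ℕ} (he : 2 ≤ e) {X : Finset (ZMod m)} (hX : X.card = k) {x : ZMod m}
    (hx : x ∈ X) (hinj : Set.InjOn Multiset.sum (low X ∪ {{x, x, x}}))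
    (hm : m = e + 1 + ((k + 1).choose 2 + 1)) :
    (((e + 1).choose 2 + ((k + 2).choose 3 + (1 + 1).choose 2) - ((k + 1).choose 2 + 1) : ℕ) : ℕ∞)
      ≤ maxRho e m := by
  classical
  set S : Finset (Multiset (ZMod m)) := base X ∪ {{x, x, x}} with hS
  have hmem : ∀ u, u ∈ S ↔ u ∈ base X ∨ u = {x, x, x} := by
    intro u
    rw [hS, Finset.mem_union, Finset.mem_singleton]
  have hrep3 : ({x, x, x} : Multiset (ZMod m)) = Multiset.replicate 3 x := rfl
  have hF : Fam S := by
    refine ⟨(hmem _).2 (Or.inl (zero_mem_base X)), ?_, ?_⟩
    · intro u hu z hz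
      rw [hmem] at hu ⊢
      rcases hu with hu | rfl
      · exact Or.inl (base_down hu hz)
      · have hzx : z = x := by
          simp only [Multiset.insert_eq_cons, Multiset.mem_cons, Multiset.mem_singleton,
            or_self] at hz
          exact hz
        subst hzx
        left
        rw [Multiset.insert_eq_cons, Multiset.erase_cons_head, mem_base]
        refine ⟨by simp, ?_⟩
        intro a ha
        simp only [Multiset.insert_eq_cons, Multiset.mem_cons, Multiset.mem_singleton,
            or_self] at ha
        rw [ha]; exact hx
    · have : (S : Set (Multiset (ZMod m))) = low X ∪ {{x, x, x}} := by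
        ext u
        rw [Finset.mem_coe, hmem, ← coe_base]
        rfl
      rw [this]
      exact hinj
  have htwo : two S = mset X 2 ∪ {{x, x, x}} := by
    ext u
    rw [mem_two, hmem, Finset.mem_union, mem_mset, Finset.mem_singleton, mem_base]
    constructor
    · rintro ⟨⟨h1, h2⟩ | rfl, h3⟩
      · left; exact ⟨by omega, h2⟩
      · right; rfl
    · rintro (⟨h1, h2⟩ | rfl)
      · exact ⟨Or.inl ⟨by omega, h2⟩, by omega⟩
      · exact ⟨Or.inr rfl, by simp⟩
  have h2 : (two S).card = (k + 1).choose 2 + 1 := by
    rw [htwo, Finset.card_union_of_disjoint, card_mset2, hX, Finset.card_singleton]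
    rw [Finset.disjoint_singleton_right, mem_mset]
    rintro ⟨h, -⟩
    simp at h
  have h3 : (k + 2).choose 3 + (1 + 1).choose 2 ≤ (cc (two S)).card := by
    have hc1 : (mset X 3 ∪ {Multiset.replicate 4 x}).card =
        (k + 2).choose 3 + (1 + 1).choose 2 := by
      rw [Finset.card_union_of_disjoint, card_mset3, hX, Finset.card_singleton]
      · rfl
      · rw [Finset.disjoint_singleton_right, mem_mset]
        rintro ⟨h, -⟩
        simp at h
    rw [← hc1]
    apply Finset.card_le_card
    intro u hu
    rw [mem_cc, htwo]
    rw [Finset.mem_union, Finset.mem_singleton] at hu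
    rcases hu with hu | rfl
    · refine ⟨?_, fun x hx => ?_⟩
      · rintro rfl
        rw [mem_mset] at hu
        simp at hu
      · rw [Finset.mem_union]; left; exact mset3_erase hu hx
    · refine ⟨by intro h; have := congrArg Multiset.card h; simp at this, fun z hz => ?_⟩
      rw [Multiset.mem_replicate] at hz
      rw [hz.2, Finset.mem_union, Finset.mem_singleton]
      right
      rw [hrep3]
      have h5 : Multiset.replicate 4 x = x ::ₘ Multiset.replicate 3 x := rfl
      rw [h5, Multiset.erase_cons_head]
  set W : ZMod m → ℕ := fun r => if r = x then 10 else if r ∈ X then 13 else 23 with hWdef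
  have hWx : W x = 10 := by simp only [hWdef, if_pos]
  have hWX : ∀ r ∈ X, r ≠ x → W r = 13 := by
    intro r hr hr'; simp only [hWdef, if_neg hr', if_pos hr]
  have hWo : ∀ r, r ∉ X → W r = 23 := by
    intro r hr
    have hr' : r ≠ x := by rintro rfl; exact hr hx
    simp only [hWdef, if_neg hr, if_neg hr']
  have hW10 : ∀ r : ZMod m, 10 ≤ W r := by
    intro r; simp only [hWdef]; split_ifs <;> omega
  have hW13 : ∀ r ∈ X, W r ≤ 13 := by
    intro r hr
    by_cases h : r = x
    · rw [h, hWx]; omega
    · rw [hWX r hr h]
  have hW23 : ∀ r : ZMod m, W r ≤ 23 := by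
    intro r; simp only [hWdef]; split_ifs <;> omega
  have hmain := lower_of_fam he hF (by rw [h2]; exact hm) W
    (by intro r; have := hW10 r; omega) (by
      intro u v hu hv hv2 huv
      rw [hmem] at hu hv
      push Not at hv
      have hu33 : (u.map W).sum + Multiset.card u ≤ 33 := by
        rcases hu with (hu | rfl) | hu
        · rw [mem_base] at hu
          have h4 : (u.map W).sum ≤ Multiset.card u * 13 := by
            have := Multiset.sum_le_card_nsmul (u.map W) 13 (by
              intro a ha
              rw [Multiset.mem_map] at ha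
              obtain ⟨b, hb, rfl⟩ := ha
              exact hW13 b (hu.2 b hb))
            rwa [Multiset.card_map, smul_eq_mul] at this
          omega
        · simp only [Multiset.insert_eq_cons, Multiset.map_cons, Multiset.map_singleton,
            Multiset.sum_cons, Multiset.sum_singleton, Multiset.card_cons, Multiset.card_singleton,
            hWx]
          omega
        · obtain ⟨a, rfl⟩ := Multiset.card_eq_one.1 hu
          simp only [Multiset.map_singleton, Multiset.sum_singleton, Multiset.card_singleton]
          have := hW23 a
          omega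
      have hv33 : 33 ≤ (v.map W).sum := by
        rcases Nat.lt_or_ge (Multiset.card v) 4 with h | h
        · by_cases hall : ∀ a ∈ v, a ∈ X
          · -- card 3, not all equal to `x`
            have hc3 : Multiset.card v = 3 := by
              by_contra hcon
              apply hv.1
              rw [mem_base]
              exact ⟨by omega, hall⟩
            obtain ⟨a, ha, hax⟩ : ∃ a ∈ v, a ≠ x := by
              by_contra hcon
              push Not at hcon
              apply hv.2
              rw [hrep3]
              exact Multiset.eq_replicate.2 ⟨hc3, hcon⟩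
            obtain ⟨w, rfl⟩ := Multiset.exists_cons_of_mem ha
            rw [Multiset.map_cons, Multiset.sum_cons, hWX a (hall a ha) hax]
            have := weight_ge hW10 w
            rw [Multiset.card_cons] at hc3
            omega
          · push Not at hall
            obtain ⟨a, ha, haX⟩ := hall
            obtain ⟨w, rfl⟩ := Multiset.exists_cons_of_mem ha
            rw [Multiset.map_cons, Multiset.sum_cons, hWo a haX]
            have := weight_ge hW10 w
            rw [Multiset.card_cons] at hv2
            omega
        · have := weight_ge hW10 v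
          omega
      omega)
  refine le_trans ?_ hmain
  rw [h2]
  have : (e + 1).choose 2 + ((k + 2).choose 3 + (1 + 1).choose 2) - ((k + 1).choose 2 + 1) ≤
      (e + 1).choose 2 + (cc (two S)).card - ((k + 1).choose 2 + 1) := by omega
  exact_mod_cast this

/-- The lower bound. -/
theorem lower_of_config {e k t : ℕ} (he : 2 ≤ e) (h : Config k t m)
    (hm : m = e + 1 + ((k + 1).choose 2 + t)) :
    (((e + 1).choose 2 + ((k + 2).choose 3 + (t + 1).choose 2) - ((k + 1).choose 2 + t) : ℕ) : ℕ∞)
      ≤ maxRho e m := by
  obtain ⟨X, hX, ⟨rfl, h⟩ | ⟨y, hy, Z, hZ, hZt, h⟩ | ⟨rfl, x, hx, h⟩⟩ := h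
  · have := lower0 he hX h (by simpa using hm)
    simpa using this
  · exact lower1 he hX hy hZ hZt h hm
  · exact lower2 he hX hx h hm

end

end MPc709deS
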