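import Pool.Agent.Work.MP_c709de_al_sid.Sidon
import Pool.Agent.Work.PNT70.PNT

/-! Consequences of the criterion. -/

namespace MPc709deS

open Finset MPc709de

/-- The value of the Elias-Robbiano-Valla bound `C(e, e+1+s)`, `s = binom(k+1,2) + t`. -/
def cval (e k t : ℕ) : ℕ :=
  (e + 1).choose 2 + ((k + 2).choose 3 + (t + 1).choose 2) - ((k + 1).choose 2 + t)

theorem crit {e k t : ℕ} (hk : 2 ≤ k) (ht : t ≤ k) (he : k < e) :
    maxRho e (e + 1 + ((k + 1).choose 2 + t)) = ((cval e k t : ℕ) : ℕ∞) ↔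
      Config k t (e + 1 + ((k + 1).choose 2 + t)) := criterion (by omega) hk ht

theorem crit_zero {e k : ℕ} (hk : 2 ≤ k) (he : k < e) :
    maxRho e (e + 1 + (k + 1).choose 2) = ((cval e k 0 : ℕ) : ℕ∞) ↔
      ∃ S : Finset (ZMod (e + 1 + (k + 1).choose 2)), S.card = k + 1 ∧ IsSidonSet S := by
  have := crit (t := 0) hk (Nat.zero_le _) he
  rw [add_zero] at this
  rw [this, config_zero_iff]

theorem lt_of_small {e k t : ℕ} (hk : 2 ≤ k) (ht : t ≤ k) (he : k < e)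
    (hlt : e + t < (k + 1).choose 2) :
    maxRho e (e + 1 + ((k + 1).choose 2 + t)) < ((cval e k t : ℕ) : ℕ∞) := by
  refine lt_of_le_of_ne (maxRho_le ht) ?_
  intro heq
  rw [crit hk ht he] at heq
  obtain ⟨S, hS, h⟩ := sidon_of_config heq
  have : NeZero (e + 1 + ((k + 1).choose 2 + t)) := ⟨by omega⟩
  have h1 := h.card_bound
  rw [hS, Nat.add_sub_cancel] at h1
  have e1 := choose2 k
  have e2 : (k + 1) * k = k * (k + 1) := mul_comm _ _
  omega

theorem eq_of_sidon {e k t : ℕ} (ht : t ≤ k) (he : 2 ≤ e)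
    (h : ∃ S : Finset (ZMod (e + 1 + ((k + 1).choose 2 + t))), S.card = k + 2 ∧ IsSidonSet S) :
    maxRho e (e + 1 + ((k + 1).choose 2 + t)) = ((cval e k t : ℕ) : ℕ∞) := by
  have : NeZero (e + 1 + ((k + 1).choose 2 + t)) := ⟨by omega⟩
  exact le_antisymm (maxRho_le ht) (lower_of_config he (config_of_sidon ht h) rfl)

theorem eq_of_prime {e k t p : ℕ} (ht : t ≤ k) (he : 2 ≤ e) (hp : p.Prime) (hkp : k < p)
    (hm : 2 * (p ^ 2 + p + 1) ≤ e + 2 + ((k + 1).choose 2 + t)) :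
    maxRho e (e + 1 + ((k + 1).choose 2 + t)) = ((cval e k t : ℕ) : ℕ∞) := by
  apply eq_of_sidon ht he
  have h1 := singer_sidon hp.isPrimePow
  have : NeZero (p ^ 2 + p + 1) := ⟨by omega⟩
  exact exists_subset_sidon (by omega) (sidon_transfer (by omega) h1)

theorem eq_of_linear {e k t : ℕ} (hk : 1 ≤ k) (ht : t ≤ k)
    (he : 15 * ((k + 1).choose 2 + t) ≤ e) :
    maxRho e (e + 1 + ((k + 1).choose 2 + t)) = ((cval e k t : ℕ) : ℕ∞) := by
  obtain ⟨p, hp, h1, h2⟩ := Nat.exists_prime_lt_and_le_two_mul k (by omega)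
  have e1 := choose2 k
  have e3 : 0 < (k + 1).choose 2 := Nat.choose_pos (by omega)
  apply eq_of_prime ht (by omega) hp h1
  have e2 : p ^ 2 ≤ (2 * k) ^ 2 := Nat.pow_le_pow_left h2 2
  nlinarith

theorem eq_of_asymp {ε : ℝ} (hε : 0 < ε) : ∃ k₀ : ℕ, ∀ k ≥ k₀, ∀ t ≤ k, ∀ e : ℕ,
    (3 + ε) * (((k + 1).choose 2 + t : ℕ) : ℝ) ≤ e →
    maxRho e (e + 1 + ((k + 1).choose 2 + t)) = ((cval e k t : ℕ) : ℕ∞) := by
  set η : ℝ := min 1 (ε / 12) with hη
  have hη0 : 0 < η := lt_min one_pos (by positivity)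
  have hη1 : η ≤ 1 := min_le_left _ _
  have hη2 : η ≤ ε / 12 := min_le_right _ _
  have h1 := Pool.Agent.Work.PNT70.exists_prime_short (ε := η / 2) (by positivity)
  rw [Filter.eventually_atTop] at h1
  obtain ⟨x₀, hx₀⟩ := h1
  refine ⟨max 1 ⌈x₀⌉₊, ?_⟩
  intro k hk t ht e he
  have hk1 : 1 ≤ k := le_trans (le_max_left _ _) hk
  have hk2 : x₀ ≤ k := by
    have : ⌈x₀⌉₊ ≤ k := le_trans (le_max_right _ _) hk
    exact Nat.ceil_le.1 this
  have hkR : (1 : ℝ) ≤ k := by exact_mod_cast hk1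
  obtain ⟨p, hp, hp1, hp2⟩ := hx₀ ((1 + η) * k) (by nlinarith)
  have hkp : k < p := by
    have : (k : ℝ) < p := by
      have h3 : (k : ℝ) ≤ (1 - η / 2) * ((1 + η) * k) := by nlinarith [mul_nonneg hη0.le (sub_nonneg.2 hη1)]
      linarith
    exact_mod_cast this
  have e1 := choose2 k
  have e3 : 0 < (k + 1).choose 2 := Nat.choose_pos (by omega)
  have e1R : 2 * (((k + 1).choose 2 : ℕ) : ℝ) = k * (k + 1) := by exact_mod_cast e1
  have hsR : ((((k + 1).choose 2 : ℕ) : ℝ)) ≤ (((k + 1).choose 2 + t : ℕ) : ℝ) := by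
    push_cast
    have : (0 : ℝ) ≤ t := Nat.cast_nonneg t
    linarith
  have he2 : 2 ≤ e := by
    have h5 : (3 : ℝ) * 1 ≤ e := by
      have : (1 : ℝ) ≤ (((k + 1).choose 2 + t : ℕ) : ℝ) := by
        have : 1 ≤ (k + 1).choose 2 + t := by omega
        exact_mod_cast this
      nlinarith
    have : 3 ≤ e := by exact_mod_cast (by linarith : (3 : ℝ) ≤ e)
    omega
  apply eq_of_prime ht he2 hp hkp
  have hgoal : (2 : ℝ) * ((p : ℝ) ^ 2 + p + 1) ≤ e + 2 + (((k + 1).choose 2 + t : ℕ) : ℝ) := by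
    have h6 : (p : ℝ) * (p + 1) ≤ (1 + η) ^ 2 * (k * (k + 1)) := by
      have hp0 : (0 : ℝ) ≤ p := Nat.cast_nonneg p
      calc (p : ℝ) * (p + 1) ≤ ((1 + η) * k) * ((1 + η) * k + 1) := by
            apply mul_le_mul hp2 (by linarith) (by linarith) (by positivity)
        _ ≤ ((1 + η) * k) * ((1 + η) * k + (1 + η)) := by
            apply mul_le_mul_of_nonneg_left (by linarith) (by positivity)
        _ = _ := by ring
    have h7 : (1 + η) ^ 2 ≤ 1 + ε / 4 := by nlinarith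
    have h8 : (1 + η) ^ 2 * ((k : ℝ) * (k + 1)) ≤ (1 + ε / 4) * (k * (k + 1)) :=
      mul_le_mul_of_nonneg_right h7 (by positivity)
    have h9 : (4 + ε) * (((k + 1).choose 2 : ℕ) : ℝ) ≤ (4 + ε) * (((k + 1).choose 2 + t : ℕ) : ℝ) :=
      mul_le_mul_of_nonneg_left hsR (by linarith)
    nlinarith
  exact_mod_cast hgoal

/-- Singer difference sets give equality at `e = s = q(q+1)/2`. -/
theorem eq_of_singer {q : ℕ} (hq : IsPrimePow q) :
    maxRho ((q + 1).choose 2) (q ^ 2 + q + 1) = ((cval ((q + 1).choose 2) q 0 : ℕ) : ℕ∞) := by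
  have e1 := choose2 q
  have hq2 : 2 ≤ q := hq.two_le
  have hm : q ^ 2 + q + 1 = (q + 1).choose 2 + 1 + ((q + 1).choose 2 + 0) := by nlinarith
  have he : 2 ≤ (q + 1).choose 2 := by nlinarith
  have h1 : Config q 0 (q ^ 2 + q + 1) := config_zero_iff.2 (singer_sidon hq)
  rw [hm] at h1 ⊢
  have : NeZero ((q + 1).choose 2 + 1 + ((q + 1).choose 2 + 0)) := ⟨by omega⟩
  exact le_antisymm (maxRho_le (Nat.zero_le _)) (lower_of_config he h1 rfl)

end MPc709deS
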