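import Pool.Agent.Work.MP_c709de_al_sid.Conf

/-! The criterion. -/

namespace MPc709deS

open Finset MPc709de

/-- The upper bound. -/
theorem rho_bound {Γ : AddSubmonoid ℕ} {e k t : ℕ} (h : IsNumerical Γ) (hed : edim Γ = e + 1)
    (hm : mult Γ = e + 1 + ((k + 1).choose 2 + t)) (ht : t ≤ k) :
    rho Γ + ((k + 1).choose 2 + t) ≤
      (e + 1).choose 2 + ((k + 2).choose 3 + (t + 1).choose 2) := by
  obtain ⟨κ, _, _, g, T, hκ, hT, hcard, -, hrho⟩ := exists_ideal h hed
  have h1 := hT.card_eq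
  have h2 : (two T).card = (k + 1).choose 2 + t := by omega
  have h3 := hT.card_mn_le
  rw [h2, hκ, ff_eq ht rfl] at h3
  omega

theorem maxRho_le {e k t : ℕ} (ht : t ≤ k) :
    maxRho e (e + 1 + ((k + 1).choose 2 + t)) ≤
    (((e + 1).choose 2 + ((k + 2).choose 3 + (t + 1).choose 2) - ((k + 1).choose 2 + t) : ℕ) : ℕ∞) := by
  unfold maxRho
  apply iSup_le
  rintro ⟨Γ, hnum, hed, hmult⟩
  have h1 := rho_bound hnum hed hmult ht
  have h2 : rho Γ ≤ (e + 1).choose 2 + ((k + 2).choose 3 + (t + 1).choose 2) -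
      ((k + 1).choose 2 + t) := by omega
  exact_mod_cast h2

section

variable {κ : Type*} [Fintype κ] [DecidableEq κ] {m : ℕ}

omit [Fintype κ] [DecidableEq κ] in
theorem cast_sum (g : κ → ℕ) (u : Multiset κ) :
    ((((u.map g).sum : ℕ)) : ZMod m) = (u.map (fun x => ((g x : ℕ) : ZMod m))).sum := by
  induction u using Multiset.induction_on with
  | empty => simp
  | cons x u ih => simp [ih]

omit [Fintype κ] [DecidableEq κ] in
theorem injOn_image {q : κ → ZMod m} {T : Finset (Multiset κ)}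
    (hinj : Set.InjOn (fun u : Multiset κ => (u.map q).sum) T) {A : Set (Multiset (ZMod m))}
    (hA : ∀ a ∈ A, ∃ u ∈ T, u.map q = a) : Set.InjOn Multiset.sum A := by
  intro a ha b hb hab
  obtain ⟨u, hu, rfl⟩ := hA a ha
  obtain ⟨v, hv, rfl⟩ := hA b hb
  have : u = v := hinj hu hv hab
  rw [this]

/-- configurations from extremal ideals -/
theorem config_of_ideal {e k t : ℕ} {g : κ → ℕ} {T : Finset (Multiset κ)}
    (hT : IsIdeal T) (hinj : Set.InjOn (fun u : Multiset κ => (((u.map g).sum : ℕ) : ZMod m)) T)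
    (hk : 2 ≤ k) (ht : t ≤ k) (h2 : (two T).card = (k + 1).choose 2 + t)
    (hcc : ff (two T).card ≤ (cc (two T)).card) : Config k t m := by
  set q : κ → ZMod m := fun x => ((g x : ℕ) : ZMod m) with hq
  have hinj' : Set.InjOn (fun u : Multiset κ => (u.map q).sum) T := by
    intro u hu v hv huv
    apply hinj hu hv
    change (((u.map g).sum : ℕ) : ZMod m) = (((v.map g).sum : ℕ) : ZMod m)
    rw [cast_sum, cast_sum]
    exact huv
  have hqinj : Function.Injective q := by
    intro a b hab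
    have : ({a} : Multiset κ) = {b} := hinj' (hT.one a) (hT.one b) (by simpa using hab)
    exact Multiset.singleton_inj.1 this
  have h3 : 3 ≤ (two T).card := by
    have e1 := choose2 k
    have : 2 * (2 + 1) ≤ k * (k + 1) := Nat.mul_le_mul hk (by omega)
    omega
  obtain ⟨hkk, htt⟩ := kt_unique ht h2.symm
  obtain ⟨K, hK, hK2, hrest⟩ := struct hT.closed h3 hcc
  rw [hkk] at hK
  rw [htt] at hrest
  have hlow : ∀ a ∈ low (K.image q), ∃ u ∈ T, u.map q = a := by
    rintro a ⟨ha, ha'⟩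
    rcases (by omega : Multiset.card a = 0 ∨ Multiset.card a = 1 ∨ Multiset.card a = 2) with
      h | h | h
    · rw [Multiset.card_eq_zero] at h
      subst h
      exact ⟨0, hT.zero, rfl⟩
    · obtain ⟨x, rfl⟩ := Multiset.card_eq_one.1 h
      obtain ⟨x', -, hx'⟩ := Finset.mem_image.1 (ha' x (by simp))
      exact ⟨{x'}, hT.one x', by simp [hx']⟩
    · obtain ⟨x, z, rfl⟩ := Multiset.card_eq_two.1 h
      obtain ⟨x', hxK, hx'⟩ := Finset.mem_image.1 (ha' x (by simp))
      obtain ⟨z', hzK, hz'⟩ := Finset.mem_image.1 (ha' z (by simp))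
      refine ⟨{x', z'}, ?_, by simp [hx', hz']⟩
      refine (mem_two.1 (hK2 (mem_mset.2 ⟨by simp, ?_⟩))).1
      intro w hw
      simp only [Multiset.insert_eq_cons, Multiset.mem_cons, Multiset.mem_singleton] at hw
      rcases hw with rfl | rfl <;> assumption
  have hXc : (K.image q).card = k := by rw [Finset.card_image_of_injective _ hqinj, hK]
  rcases hrest with h | ⟨y, hy, Z, hZ, hZt, hZ'⟩ | ⟨h, x, hx, hx'⟩
  · exact ⟨K.image q, hXc, Or.inl ⟨h, injOn_image hinj' hlow⟩⟩
  · refine ⟨K.image q, hXc, Or.inr (Or.inl ⟨q y, ?_, Z.image q, ?_, ?_, ?_⟩)⟩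
    · intro h
      obtain ⟨y', hy', h'⟩ := Finset.mem_image.1 h
      exact hy (hqinj h' ▸ hy')
    · intro w hw
      obtain ⟨w', hw', rfl⟩ := Finset.mem_image.1 hw
      rw [Finset.mem_insert]
      rcases Finset.mem_insert.1 (hZ hw') with h | h
      · left; rw [h]
      · right; exact Finset.mem_image_of_mem _ h
    · rw [Finset.card_image_of_injective _ hqinj, hZt]
    · apply injOn_image hinj'
      rintro a ((ha | ha) | ⟨z, hz, rfl⟩)
      · exact hlow a ha
      · exact ⟨{y}, hT.one y, by rw [Set.mem_singleton_iff.1 ha]; simp⟩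
      · obtain ⟨z', hz', rfl⟩ := Finset.mem_image.1 hz
        exact ⟨{y, z'}, (mem_two.1 (hZ' z' hz')).1, by simp⟩
  · refine ⟨K.image q, hXc, Or.inr (Or.inr ⟨h, q x, Finset.mem_image_of_mem _ hx, ?_⟩)⟩
    apply injOn_image hinj'
    rintro a (ha | ha)
    · exact hlow a ha
    · exact ⟨{x, x, x}, (mem_two.1 hx').1, by rw [Set.mem_singleton_iff.1 ha]; simp⟩

end

/-- The criterion for equality in the Elias-Robbiano-Valla bound. -/
theorem criterion {e k t : ℕ} (he : 2 ≤ e) (hk : 2 ≤ k) (ht : t ≤ k) :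
    maxRho e (e + 1 + ((k + 1).choose 2 + t)) =
      (((e + 1).choose 2 + ((k + 2).choose 3 + (t + 1).choose 2) -
        ((k + 1).choose 2 + t) : ℕ) : ℕ∞) ↔ Config k t (e + 1 + ((k + 1).choose 2 + t)) := by
  have : NeZero (e + 1 + ((k + 1).choose 2 + t)) := ⟨by omega⟩
  constructor
  · intro h
    set N := (e + 1).choose 2 + ((k + 2).choose 3 + (t + 1).choose 2) -
        ((k + 1).choose 2 + t) with hN
    have h3 : 3 ≤ (k + 1).choose 2 + t := by
      have e1 := choose2 k
      have : 2 * (2 + 1) ≤ k * (k + 1) := Nat.mul_le_mul hk (by omega)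
      omega
    have hff := lt_ff h3
    rw [ff_eq ht rfl] at hff
    obtain ⟨⟨Γ, hnum, hed, hmult⟩, hΓ⟩ : ∃ Γ : {Γ : AddSubmonoid ℕ // IsNumerical Γ ∧
        edim Γ = e + 1 ∧ mult Γ = e + 1 + ((k + 1).choose 2 + t)}, N ≤ rho Γ.1 := by
      by_contra hcon
      push Not at hcon
      have h1 : maxRho e (e + 1 + ((k + 1).choose 2 + t)) ≤ ((N - 1 : ℕ) : ℕ∞) := by
        unfold maxRho
        apply iSup_le
        intro Γ
        have := hcon Γ
        have h2 : rho Γ.1 ≤ N - 1 := by omega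
        exact_mod_cast h2
      rw [h] at h1
      have h4 : N ≤ N - 1 := by exact_mod_cast h1
      omega
    simp only at hΓ
    obtain ⟨κ, _, _, g, T, hκ, hT, hcard, hinj, hrho⟩ := exists_ideal hnum hed
    rw [hmult] at hcard hinj
    have h1 := hT.card_eq
    have h2 : (two T).card = (k + 1).choose 2 + t := by omega
    refine config_of_ideal (e := e) hT hinj hk ht h2 ?_
    have h4 := hT.count
    rw [h2, ff_eq ht rfl]
    rw [h2, hκ] at h4
    omega
  · intro h
    exact le_antisymm (maxRho_le ht) (lower_of_config he h rfl)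

end MPc709deS
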