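import Mathlib

/-! Definitions used in the statements: the Elias-Robbiano-Valla bound and the configurations. -/

namespace MPc709deS

/-- `mac d n = n^{<d>}`: with the greedy expansion `n = binom(a,d) + n'`, `a` maximal, one has
`n^{<d>} = binom(a+1,d+1) + n'^{<d-1>}`. -/
def mac : ℕ → ℕ → ℕ
  | 0, _ => 0
  | d + 1, n => if n = 0 then 0 else
      (Nat.findGreatest (fun a => a.choose (d + 1) ≤ n) (n + d + 1) + 1).choose (d + 2) +
        mac d (n - (Nat.findGreatest (fun a => a.choose (d + 1) ≤ n) (n + d + 1)).choose (d + 1))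

/-- the least `r` with `m < binom(e+r,r)` -/
noncomputable def rr (e m : ℕ) : ℕ := sInf {r | m < (e + r).choose r}

/-- The Elias-Robbiano-Valla bound `C(e,m)`. -/
noncomputable def ERV (e m : ℕ) : ℕ :=
  (e + rr e m - 1).choose (rr e m) +
    mac (rr e m) (m - (e + rr e m - 1).choose (rr e m - 1)) -
      (m - (e + rr e m - 1).choose (rr e m - 1))

/-- multisets with at most two elements, all of them in `X` -/
def low {m : ℕ} (X : Finset (ZMod m)) : Set (Multiset (ZMod m)) :=
  {u | Multiset.card u ≤ 2 ∧ ∀ x ∈ u, x ∈ X}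

/-- The configurations: a `k`-element set `X ⊆ ℤ/m` such that the sums of at most two elements of
`X` are pairwise distinct, together with `t` further sums. -/
def Config (k t m : ℕ) : Prop :=
  ∃ X : Finset (ZMod m), X.card = k ∧
    ((t = 0 ∧ Set.InjOn Multiset.sum (low X)) ∨
     (∃ y, y ∉ X ∧ ∃ Z ⊆ insert y X, Z.card = t ∧
        Set.InjOn Multiset.sum (low X ∪ {{y}} ∪ {u | ∃ z ∈ Z, u = {y, z}})) ∨
     (t = 1 ∧ ∃ x ∈ X, Set.InjOn Multiset.sum (low X ∪ {{x, x, x}})))

end MPc709deS
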