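import Mathlib

/-! The function `n ↦ n^{<2>}` and its elementary inequalities. -/

namespace MPc709deS

/-- the state `(k,t)` with `n = k(k+1)/2 + t`, `t ≤ k`. -/
def st : ℕ → ℕ × ℕ
  | 0 => (0, 0)
  | n + 1 => if (st n).2 < (st n).1 then ((st n).1, (st n).2 + 1) else ((st n).1 + 1, 0)

/-- the `k` of `n` -/
def kk (n : ℕ) : ℕ := (st n).1
/-- the `t` of `n` -/
def tt (n : ℕ) : ℕ := (st n).2

theorem choose2 (n : ℕ) : 2 * (n + 1).choose 2 = n * (n + 1) := by
  rw [Nat.choose_two_right, Nat.add_sub_cancel]
  have : 2 ∣ (n + 1) * n := by rw [mul_comm]; exact (Nat.even_mul_succ_self n).two_dvd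
  rw [Nat.mul_div_cancel' this, mul_comm]

theorem choose3 (n : ℕ) : (n + 3).choose 3 = (n + 2).choose 3 + (n + 2).choose 2 := by
  rw [Nat.choose_succ_succ' (n + 2) 2, add_comm]

theorem tt_le (n : ℕ) : tt n ≤ kk n := by
  unfold tt kk
  induction n with
  | zero => simp [st]
  | succ n ih =>
    simp only [st]
    split_ifs with h
    · exact h
    · simp

theorem kt_spec (n : ℕ) : (kk n + 1).choose 2 + tt n = n := by
  induction n with
  | zero => simp [st, kk, tt]
  | succ n ih =>
    have h1 := tt_le n
    unfold kk tt at *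
    simp only [st]
    split_ifs with h
    · simp only; omega
    · have h2 := choose2 (st n).1
      have h3 := choose2 ((st n).1 + 1)
      have h4 : (st n).2 = (st n).1 := by omega
      rw [h4] at ih
      simp only
      nlinarith

theorem kt_unique {k t n : ℕ} (ht : t ≤ k) (h : (k + 1).choose 2 + t = n) :
    kk n = k ∧ tt n = t := by
  have h1 := tt_le n
  have h2 := kt_spec n
  have h3 := choose2 (kk n)
  have h4 := choose2 k
  have h5 : kk n = k := by
    rcases lt_trichotomy (kk n) k with h' | h' | h'
    · exfalso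
      have : (kk n + 1) * (kk n + 1 + 1) ≤ k * (k + 1) := Nat.mul_le_mul (by omega) (by omega)
      nlinarith
    · exact h'
    · exfalso
      have : (k + 1) * (k + 1 + 1) ≤ kk n * (kk n + 1) := Nat.mul_le_mul (by omega) (by omega)
      nlinarith
  refine ⟨h5, ?_⟩
  rw [h5] at h2
  omega

/-- `n^{<2>}` -/
def ff (n : ℕ) : ℕ := (kk n + 2).choose 3 + (tt n + 1).choose 2

theorem ff_eq {k t n : ℕ} (ht : t ≤ k) (h : (k + 1).choose 2 + t = n) :
    ff n = (k + 2).choose 3 + (t + 1).choose 2 := by
  obtain ⟨h1, h2⟩ := kt_unique ht h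
  rw [ff, h1, h2]

theorem kk_mono {a b : ℕ} (h : a ≤ b) : kk a ≤ kk b := by
  by_contra hcon
  push Not at hcon
  have h1 := tt_le b
  have h2 := kt_spec a
  have h3 := kt_spec b
  have h4 := choose2 (kk a)
  have h5 := choose2 (kk b)
  have : (kk b + 1) * (kk b + 1 + 1) ≤ kk a * (kk a + 1) := Nat.mul_le_mul (by omega) (by omega)
  nlinarith

theorem kk_le_of {d a : ℕ} (h : (d + 1).choose 2 ≤ a) : d ≤ kk a := by
  have h1 := kt_unique (k := d) (t := 0) (Nat.zero_le _) rfl
  simp only [add_zero] at h1
  rw [← h1.1]
  exact kk_mono h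

theorem kk_le_self (a : ℕ) : kk a ≤ a := by
  have h2 := kt_spec a
  have h4 := choose2 (kk a)
  rcases Nat.eq_zero_or_pos (kk a) with h | h
  · omega
  · nlinarith

theorem kk_pos {a : ℕ} (h : 0 < a) : 0 < kk a := by
  have : 1 ≤ kk a := kk_le_of (by simp only [Nat.reduceAdd, Nat.choose_self]; omega)
  exact this

/-- exact form of the removal inequality -/
theorem ff_remove_small {a d : ℕ} (hd : d ≤ tt a) :
    ff (a - d) + (d + 1).choose 2 + d * (tt a - d) = ff a := by
  have h1 := tt_le a
  have h2 := kt_spec a
  have h3 : ff (a - d) = (kk a + 2).choose 3 + (tt a - d + 1).choose 2 :=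
    ff_eq (by omega) (by omega)
  rw [h3, ff]
  have h4 := choose2 (tt a - d)
  have h5 := choose2 d
  have h6 := choose2 (tt a)
  obtain ⟨r, hr⟩ := Nat.exists_eq_add_of_le hd
  rw [hr] at h4 h6 ⊢
  have h7 : d + r - d = r := by omega
  rw [h7] at h4 ⊢
  nlinarith

theorem ff_remove_big {a d : ℕ} (hd : tt a < d) (hk : d ≤ kk a) :
    ff (a - d) + (d + 1).choose 2 + (kk a - d) * (d - tt a) = ff a := by
  have h1 := tt_le a
  have h2 := kt_spec a
  obtain ⟨k, hk'⟩ : ∃ k, kk a = k + 1 := ⟨kk a - 1, by omega⟩
  have e1 := choose2 k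
  have e2 := choose2 (k + 1)
  have h3 : ff (a - d) = (k + 2).choose 3 + (k + 1 + tt a - d + 1).choose 2 := by
    apply ff_eq (by omega)
    have e3 : (k + 1 + 1).choose 2 = (k + 1).choose 2 + (k + 1) := by nlinarith
    rw [hk', e3] at h2
    omega
  rw [h3, ff, hk']
  have h8 : (k + 1 + 2).choose 3 = (k + 2).choose 3 + (k + 2).choose 2 := choose3 k
  rw [h8]
  obtain ⟨x, hx⟩ := Nat.exists_eq_add_of_lt hd
  have h9 := choose2 (k + 1 + tt a - d)
  have h10 := choose2 d
  have h11 := choose2 (tt a)
  have h12 := choose2 (k + 1)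
  obtain ⟨y, hy⟩ := Nat.exists_eq_add_of_le hk
  rw [hk'] at hy
  have h13 : k + 1 - d = y := by omega
  have h14 : d - tt a = x + 1 := by omega
  have h15 : k + 1 + tt a - d = y + tt a := by omega
  rw [h15] at h9 ⊢
  rw [h13, h14]
  have h16 : k + 1 = tt a + x + 1 + y := by omega
  have h17 : k + 2 = (tt a + x + 1 + y) + 1 := by omega
  rw [h17]
  have h18 := choose2 (tt a + x + 1 + y)
  rw [hx] at h10 ⊢
  nlinarith

theorem ff_remove {a d : ℕ} (hk : d ≤ kk a) : ff (a - d) + (d + 1).choose 2 ≤ ff a := by
  rcases Nat.lt_or_ge (tt a) d with h | h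
  · have := ff_remove_big h hk; omega
  · have := ff_remove_small h; omega

theorem ff_remove_eq {a d : ℕ} (hk : d ≤ kk a) (h : ff a ≤ ff (a - d) + (d + 1).choose 2) :
    d = 0 ∨ d = tt a ∨ d = kk a := by
  rcases Nat.lt_or_ge (tt a) d with h' | h'
  · have := ff_remove_big h' hk
    have h2 : (kk a - d) * (d - tt a) = 0 := by omega
    rcases Nat.mul_eq_zero.1 h2 with h3 | h3 <;> omega
  · have := ff_remove_small h'
    have h2 : d * (tt a - d) = 0 := by omega
    rcases Nat.mul_eq_zero.1 h2 with h3 | h3 <;> omega

theorem ff_zero : ff 0 = 0 := by decide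
theorem ff_one : ff 1 = 1 := by decide
theorem ff_two : ff 2 = 2 := by decide
theorem ff_three : ff 3 = 4 := by decide

/-- increment -/
theorem ff_succ (a : ℕ) : ff (a + 1) = ff a + tt a + 1 := by
  have h1 := tt_le a
  have h2 := kt_spec a
  rcases Nat.lt_or_ge (tt a) (kk a) with h | h
  · have h3 : ff (a + 1) = (kk a + 2).choose 3 + (tt a + 1 + 1).choose 2 :=
      ff_eq (by omega) (by omega)
    rw [h3, ff]
    have h4 := choose2 (tt a)
    have h5 := choose2 (tt a + 1)
    nlinarith
  · have h4 : tt a = kk a := by omega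
    have e1 := choose2 (kk a)
    have e2 := choose2 (kk a + 1)
    have h3 : ff (a + 1) = (kk a + 1 + 2).choose 3 + (0 + 1).choose 2 := by
      apply ff_eq (by omega)
      rw [h4] at h2
      nlinarith
    rw [h3, ff, h4, choose3]
    have e3 : (0 + 1).choose 2 = 0 := by decide
    rw [e3]
    have h5 := choose2 (kk a)
    have h6 := choose2 (kk a + 1)
    nlinarith

theorem ff_superadd_aux : ∀ b a : ℕ, b ≤ a → ff a + ff b ≤ ff (a + b) := by
  intro b
  induction b using Nat.strong_induction_on with
  | _ b ih =>
    intro a hab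
    rcases Nat.eq_zero_or_pos b with h0 | h0
    · subst h0; rw [ff_zero]; simp
    · have hk := kk_pos h0
      have hkb := kk_le_self b
      have h1 : ff (b - kk b) + (kk b + 1).choose 2 = ff b := by
        rcases Nat.lt_or_ge (tt b) (kk b) with h | h
        · have := ff_remove_big h le_rfl
          simpa using this
        · have h2 := tt_le b
          have h3 : kk b = tt b := by omega
          have := ff_remove_small h
          rw [← h3] at this
          simpa using this
      have h2 := ih (b - kk b) (by omega) a (by omega)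
      have h3 : ff (a + b - kk b) + (kk b + 1).choose 2 ≤ ff (a + b) :=
        ff_remove (kk_mono (by omega))
      have h4 : a + b - kk b = a + (b - kk b) := by omega
      rw [h4] at h3
      omega

theorem ff_superadd (a b : ℕ) : ff a + ff b ≤ ff (a + b) := by
  rcases le_total b a with h | h
  · exact ff_superadd_aux b a h
  · rw [add_comm, add_comm a b]; exact ff_superadd_aux a b h

theorem ff_mono {a b : ℕ} (h : a ≤ b) : ff a ≤ ff b := by
  obtain ⟨c, rfl⟩ := Nat.exists_eq_add_of_le h
  have := ff_superadd a c
  omega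

theorem tt_pos_or {a : ℕ} (h : 2 ≤ a) : 1 ≤ tt a ∨ 1 ≤ tt (a + 1) := by
  rcases Nat.eq_zero_or_pos (tt a) with h0 | h0
  · right
    have h2 := kt_spec a
    have h3 := kk_le_self a
    have h4 : 2 ≤ kk a := by
      by_contra hcon
      have h5 : kk a ≤ 1 := by omega
      have h6 := choose2 (kk a)
      have h7 : kk a * (kk a + 1) ≤ 1 * (1 + 1) := Nat.mul_le_mul h5 (by omega)
      omega
    have := (kt_unique (k := kk a) (t := 1) (n := a + 1) (by omega) (by omega)).2
    omega
  · exact Or.inl h0

theorem ff_strict_aux : ∀ b a : ℕ, 2 ≤ b → b ≤ a → ff a + ff b + 1 ≤ ff (a + b) := by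
  intro b
  induction b using Nat.strong_induction_on with
  | _ b ih =>
    intro a hb hab
    have hk := kk_pos (a := b) (by omega)
    have hkb := kk_le_self b
    rcases Nat.lt_or_ge (b - kk b) 2 with h | h
    · have hb3 : b = 2 ∨ b = 3 := by
        have h2 := kt_spec b
        have h6 := choose2 (kk b)
        have h7 := tt_le b
        have h5 : kk b ≤ 2 := by
          by_contra hcon
          push Not at hcon
          have h8 : 3 * (kk b + 1) ≤ kk b * (kk b + 1) := Nat.mul_le_mul_right _ (by omega)
          omega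
        have h8 : kk b = 0 ∨ kk b = 1 ∨ kk b = 2 := by omega
        rcases h8 with h8 | h8 | h8 <;> rw [h8] at h6 h2 h <;> simp at h6 h2 <;> omega
      rcases hb3 with h3 | h3
      · subst h3
        rw [ff_two]
        have e1 := ff_succ a
        have e2 : ff (a + 2) = ff (a + 1) + tt (a + 1) + 1 := ff_succ (a + 1)
        have e3 := tt_pos_or (a := a) (by omega)
        omega
      · subst h3
        rw [ff_three]
        have e1 := ff_succ a
        have e2 : ff (a + 2) = ff (a + 1) + tt (a + 1) + 1 := ff_succ (a + 1)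
        have e4 : ff (a + 3) = ff (a + 2) + tt (a + 2) + 1 := ff_succ (a + 2)
        have e3 := tt_pos_or (a := a) (by omega)
        have e5 : 1 ≤ tt (a + 1) ∨ 1 ≤ tt (a + 2) := tt_pos_or (a := a + 1) (by omega)
        -- three consecutive increments starting at `a ≥ 3` add up to at least 6
        rcases Nat.eq_zero_or_pos (tt a) with h0 | h0
        · have h9 := kt_spec a
          have h10 : 2 ≤ kk a := by
            by_contra hcon
            have h11 : kk a ≤ 1 := by omega
            have h12 := choose2 (kk a)
            have h7 : kk a * (kk a + 1) ≤ 1 * (1 + 1) := Nat.mul_le_mul h11 (by omega)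
            omega
          have h13 := (kt_unique (k := kk a) (t := 1) (n := a + 1) (by omega) (by omega)).2
          have h14 := (kt_unique (k := kk a) (t := 2) (n := a + 2) (by omega) (by omega)).2
          omega
        · rcases Nat.eq_zero_or_pos (tt (a + 1)) with h1 | h1
          · have h9 := kt_spec (a + 1)
            have h10 : 2 ≤ kk (a + 1) := by
              by_contra hcon
              have h11 : kk (a + 1) ≤ 1 := by omega
              have h12 := choose2 (kk (a + 1))
              have h7 : kk (a + 1) * (kk (a + 1) + 1) ≤ 1 * (1 + 1) :=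
                Nat.mul_le_mul h11 (by omega)
              omega
            have h13 := (kt_unique (k := kk (a + 1)) (t := 1) (n := a + 2) (by omega)
              (by omega)).2
            omega
          · omega
    · have h1 : ff (b - kk b) + (kk b + 1).choose 2 = ff b := by
        rcases Nat.lt_or_ge (tt b) (kk b) with h | h
        · have := ff_remove_big h le_rfl
          simpa using this
        · have h2 := tt_le b
          have h3 : kk b = tt b := by omega
          have := ff_remove_small h
          rw [← h3] at this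
          simpa using this
      have h2 := ih (b - kk b) (by omega) a h (by omega)
      have h3 : ff (a + b - kk b) + (kk b + 1).choose 2 ≤ ff (a + b) :=
        ff_remove (kk_mono (by omega))
      have h4 : a + b - kk b = a + (b - kk b) := by omega
      rw [h4] at h3
      omega

theorem ff_strict {a b : ℕ} (ha : 2 ≤ a) (hb : 2 ≤ b) : ff a + ff b < ff (a + b) := by
  rcases le_total b a with h | h
  · have := ff_strict_aux b a hb h; omega
  · have := ff_strict_aux a b ha h
    rw [add_comm b a] at this; omega

/-- `n < n^{<2>}` for `n ≥ 3` -/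
theorem lt_ff {a : ℕ} (h : 3 ≤ a) : a < ff a := by
  induction a, h using Nat.le_induction with
  | base => decide
  | succ n hn ih => have := ff_succ n; omega

theorem le_ff (a : ℕ) : a ≤ ff a := by
  rcases Nat.lt_or_ge a 3 with h | h
  · interval_cases a <;> decide
  · exact (lt_ff h).le

end MPc709deS
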