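import Pool.Agent.Work.MP_c709de_al_sid.Cor

/-! The gap below the Elias-Robbiano-Valla bound in the triangular case. -/

namespace MPc709deS

open Finset MPc709de

variable {κ : Type*} [Fintype κ] [DecidableEq κ]

theorem prod_gap {d k : ℕ} (h1 : 1 ≤ d) (h2 : d + 1 ≤ k) : k - 1 ≤ (k - d) * d := by
  obtain ⟨x, rfl⟩ : ∃ x, d = x + 1 := ⟨d - 1, by omega⟩
  obtain ⟨y, rfl⟩ : ∃ y, k = x + 1 + 1 + y := ⟨k - (x + 1 + 1), by omega⟩
  have e1 : x + 1 + 1 + y - (x + 1) = 1 + y := by omega
  have e2 : x + 1 + 1 + y - 1 = x + 1 + y := by omega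
  rw [e1, e2]
  nlinarith [Nat.zero_le (y * x)]

theorem kk_choose (k : ℕ) : kk ((k + 1).choose 2) = k ∧ tt ((k + 1).choose 2) = 0 :=
  kt_unique (k := k) (t := 0) (Nat.zero_le _) rfl

theorem ff_choose (k : ℕ) : ff ((k + 1).choose 2) = (k + 2).choose 3 := by
  have := ff_eq (k := k) (t := 0) (Nat.zero_le _) rfl
  simpa using this

/-- stability for graphs -/
theorem gap_graph : ∀ (k : ℕ) (A : Finset (Multiset κ)), (∀ v ∈ A, Multiset.card v = 2) →
    A.card = (k + 1).choose 2 → (¬ ∃ K : Finset κ, K.card = k ∧ mset K 2 ⊆ A) →
    (cc A).card + (k - 1) ≤ (k + 2).choose 3 := by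
  intro k
  induction k with
  | zero =>
    intro A hA hc hno
    exfalso
    apply hno
    refine ⟨∅, rfl, ?_⟩
    intro u hu
    rw [mem_mset] at hu
    obtain ⟨x, hx⟩ : ∃ x, x ∈ u := Multiset.card_pos_iff_exists_mem.1 (by omega)
    exact absurd (hu.2 x hx) (Finset.notMem_empty _)
  | succ k ih =>
    intro A hA hc hno
    have hA2 : ∀ v ∈ A, 2 ≤ Multiset.card v := fun v hv => by rw [hA v hv]
    have hne : A.Nonempty := by
      rw [← Finset.card_pos, hc]
      exact Nat.choose_pos (by omega)
    obtain ⟨x, hx1, hx2⟩ := exists_small_degree hA hne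
    obtain ⟨hkk, htt⟩ := kk_choose (k + 1)
    have hff := ff_choose (k + 1)
    rw [hc, hkk] at hx2
    have hpos := Finset.card_pos.2 hx1
    have h1 := card_split A hA2 x
    have h2 := cc_split A hA2 x
    have hdv : dv A x = ∅ := by
      rw [Finset.eq_empty_iff_forall_notMem]
      intro w hw
      rw [mem_dv] at hw
      have := hA _ hw.1
      rw [Multiset.card_cons] at this
      omega
    rw [hdv] at h1 h2
    rw [cc_empty] at h2
    simp only [Finset.card_empty, add_zero] at h1 h2
    set A' := A.filter (fun v => x ∉ v) with hA'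
    have h3 : (cc A').card ≤ ff A'.card :=
      cc_le (fun v hv => hA2 v (Finset.mem_filter.1 hv).1)
    have h4 : (mset (nb A x) 2).card = ((nb A x).card + 1).choose 2 := by
      rw [card_mset]
      have : (nb A x).card + 2 - 1 = (nb A x).card + 1 := by omega
      rw [this]
    have h5 : (mset (nb A x) 2 ∩ A).card ≤ (mset (nb A x) 2).card :=
      Finset.card_le_card Finset.inter_subset_left
    rcases Nat.lt_or_ge (nb A x).card (k + 1) with hd | hd
    · -- small degree
      have h7 := ff_remove_big (a := (k + 1 + 1).choose 2) (d := (nb A x).card)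
        (by rw [htt]; omega) (by rw [hkk]; omega)
      rw [hkk, htt, hff, Nat.sub_zero] at h7
      have h8 : (k + 1 + 1).choose 2 - (nb A x).card = A'.card := by omega
      rw [h8] at h7
      have h9 := prod_gap (d := (nb A x).card) (k := k + 1) hpos hd
      omega
    · -- degree exactly `k + 1`
      have hdeq : (nb A x).card = k + 1 := le_antisymm hx2 hd
      have e1 := choose2 k
      have e2 := choose2 (k + 1)
      have hA'c : A'.card = (k + 1).choose 2 := by
        rw [hdeq] at h1
        nlinarith
      have hffA' : ff A'.card = (k + 2).choose 3 := by rw [hA'c]; exact ff_choose k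
      have e3 : (k + 1 + 2).choose 3 = (k + 2).choose 3 + (k + 2).choose 2 := choose3 k
      have hNnot : ¬ mset (nb A x) 2 ⊆ A := fun hcon => hno ⟨nb A x, hdeq, hcon⟩
      by_cases hcl : ∃ K : Finset κ, K.card = k ∧ mset K 2 ⊆ A'
      · obtain ⟨K, hK, hK2⟩ := hcl
        have hKA' : mset K 2 = A' := by
          apply Finset.eq_of_subset_of_card_le hK2
          rw [hA'c, card_mset, hK]
          have : k + 2 - 1 = k + 1 := by omega
          rw [this]
        -- a neighbour outside `K ∪ {x}`
        obtain ⟨z, hz, hzx, hzK⟩ : ∃ z ∈ nb A x, z ≠ x ∧ z ∉ K := by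
          by_contra hcon
          push Not at hcon
          by_cases hxN : x ∈ nb A x
          · -- then `nb A x = insert x K` is a clique
            have hsub : (nb A x).erase x ⊆ K := by
              intro z hz
              rw [Finset.mem_erase] at hz
              exact hcon z hz.2 hz.1
            have heq : (nb A x).erase x = K := by
              apply Finset.eq_of_subset_of_card_le hsub
              rw [Finset.card_erase_of_mem hxN, hdeq, hK]
              omega
            apply hNnot
            intro u hu
            rw [mem_mset] at hu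
            by_cases hxu : x ∈ u
            · obtain ⟨y, rfl⟩ := card_two_of_mem hu.1 hxu
              exact mem_nb.1 (hu.2 y (by simp))
            · have hAA : A' ⊆ A := Finset.filter_subset _ _
              apply hAA
              rw [← hKA', mem_mset]
              refine ⟨hu.1, fun y hy => ?_⟩
              rw [← heq, Finset.mem_erase]
              refine ⟨?_, hu.2 y hy⟩
              rintro rfl
              exact hxu hy
          · have hsub : nb A x ⊆ K := by
              intro z hz
              apply hcon z hz
              rintro rfl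
              exact hxN hz
            have := Finset.card_le_card hsub
            omega
        -- missing pairs
        have hmiss : ((nb A x).erase x).image (fun w => ({z, w} : Multiset κ)) ⊆
            mset (nb A x) 2 \ A := by
          intro u hu
          rw [Finset.mem_image] at hu
          obtain ⟨w, hw, rfl⟩ := hu
          rw [Finset.mem_erase] at hw
          rw [Finset.mem_sdiff, mem_mset]
          refine ⟨⟨by simp, ?_⟩, ?_⟩
          · intro y hy
            simp only [Multiset.insert_eq_cons, Multiset.mem_cons, Multiset.mem_singleton] at hy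
            rcases hy with rfl | rfl
            · exact hz
            · exact hw.2
          · intro hcon
            have h6 : ({z, w} : Multiset κ) ∈ A' := by
              rw [hA', Finset.mem_filter]
              refine ⟨hcon, ?_⟩
              simp only [Multiset.insert_eq_cons, Multiset.mem_cons, Multiset.mem_singleton, not_or]
              exact ⟨Ne.symm hzx, Ne.symm hw.1⟩
            rw [← hKA', mem_mset] at h6
            exact hzK (h6.2 z (by simp))
        have h6 := Finset.card_le_card hmiss
        rw [Finset.card_image_of_injective _ (fun a b hab => pair_inj hab)] at h6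
        have h7 : k ≤ ((nb A x).erase x).card := by
          have := Finset.pred_card_le_card_erase (s := nb A x) (a := x)
          omega
        have h8 : (mset (nb A x) 2 ∩ A).card + (mset (nb A x) 2 \ A).card =
            (mset (nb A x) 2).card := Finset.card_inter_add_card_sdiff _ _
        rw [h4, hdeq] at h8
        rw [hffA'] at h3
        have h9 : k + 1 - 1 = k := by omega
        have e4 : k + 1 + 1 = k + 2 := rfl
        rw [e4] at h8
        omega
      · have h6 := ih A' (fun v hv => hA v (Finset.mem_filter.1 hv).1) hA'c hcl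
        have h7 : (mset (nb A x) 2 ∩ A).card < (mset (nb A x) 2).card := by
          refine lt_of_le_of_ne h5 ?_
          intro heq
          apply hNnot
          have := Finset.eq_of_subset_of_card_le
            (Finset.inter_subset_left (s₁ := mset (nb A x) 2) (s₂ := A)) heq.ge
          rw [← this]
          exact Finset.inter_subset_right
        rw [h4, hdeq] at h7
        have e4 : k + 1 + 1 = k + 2 := rfl
        rw [e4] at h7
        omega

theorem ff_gap {k a b : ℕ} (ha : 1 ≤ a) (hb : 1 ≤ b) (hab : a + b = (k + 1).choose 2) :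
    ff a + ff b + (k - 1) ≤ (k + 2).choose 3 := by
  obtain ⟨hkk, htt⟩ := kk_choose k
  have hd := kk_pos hb
  have hdb := kk_le_self b
  have hdk : kk b < k := by
    by_contra hcon
    push Not at hcon
    have h1 := kt_spec b
    have h2 : (k + 1).choose 2 ≤ (kk b + 1).choose 2 := Nat.choose_le_choose 2 (by omega)
    omega
  have h1 : ff (b - kk b) + (kk b + 1).choose 2 = ff b := by
    rcases Nat.lt_or_ge (tt b) (kk b) with h | h
    · have := ff_remove_big h le_rfl
      simpa using this
    · have h2 := tt_le b
      have h3 : kk b = tt b := by omega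
      have := ff_remove_small h
      rw [← h3] at this
      simpa using this
  have h2 := ff_remove_big (a := (k + 1).choose 2) (d := kk b) (by rw [htt]; exact hd)
    (by rw [hkk]; exact hdk.le)
  rw [hkk, htt, ff_choose, Nat.sub_zero] at h2
  have h3 : (k + 1).choose 2 - kk b = a + (b - kk b) := by omega
  rw [h3] at h2
  have h4 := ff_superadd a (b - kk b)
  have h5 := prod_gap hd hdk
  omega

/-- stability for ideals -/
theorem gap_ideal {k : ℕ} {N : Finset (Multiset κ)} (hN : Closed N)
    (hc : N.card = (k + 1).choose 2) (hno : ¬ ∃ K : Finset κ, K.card = k ∧ mset K 2 ⊆ N) :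
    (cc N).card + (k - 1) ≤ (k + 2).choose 3 := by
  set A := N.filter (fun v => Multiset.card v = 2) with hA
  set B := N.filter (fun v => ¬ Multiset.card v = 2) with hB
  have hAB : A.card + B.card = N.card := Finset.card_filter_add_card_filter_not _
  have hA2 : ∀ v ∈ A, Multiset.card v = 2 := fun v hv => (Finset.mem_filter.1 hv).2
  have hB2 : ∀ v ∈ B, 3 ≤ Multiset.card v := fun v hv => by
    have h1 := (Finset.mem_filter.1 hv).2
    have h2 := hN.1 v (Finset.mem_filter.1 hv).1
    omega
  have hsub : cc N ⊆ cc A ∪ cc B := by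
    intro u hu
    have h3 := hN.card_cc hu
    rw [mem_cc] at hu
    rw [Finset.mem_union, mem_cc, mem_cc]
    rcases Nat.lt_or_ge (Multiset.card u) 4 with h4 | h4
    · left
      refine ⟨hu.1, fun x hx => ?_⟩
      rw [hA, Finset.mem_filter, Multiset.card_erase_of_mem hx, Nat.pred_eq_sub_one]
      exact ⟨hu.2 x hx, by omega⟩
    · right
      refine ⟨hu.1, fun x hx => ?_⟩
      rw [hB, Finset.mem_filter, Multiset.card_erase_of_mem hx, Nat.pred_eq_sub_one]
      exact ⟨hu.2 x hx, by omega⟩
  have h1 : (cc N).card ≤ (cc A).card + (cc B).card :=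
    (Finset.card_le_card hsub).trans (Finset.card_union_le _ _)
  have h2 : (cc A).card ≤ ff A.card := cc_le (fun v hv => by rw [hA2 v hv])
  have h3 : (cc B).card ≤ ff B.card := cc_le (fun v hv => by have := hB2 v hv; omega)
  rcases Nat.eq_zero_or_pos B.card with hb | hb
  · have hAN : A = N :=
      Finset.eq_of_subset_of_card_le (Finset.filter_subset _ _ : A ⊆ N) (by omega)
    exact gap_graph k N (by rw [← hAN]; exact hA2) hc hno
  · have ha : 0 < A.card := by
      obtain ⟨u, hu⟩ := Finset.card_pos.1 hb
      have huN : u ∈ N := (Finset.mem_filter.1 hu).1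
      have hu3 := hB2 u hu
      apply Finset.card_pos.2
      obtain ⟨x, hx⟩ : ∃ x, x ∈ u := Multiset.card_pos_iff_exists_mem.1 (by omega)
      obtain ⟨v, rfl⟩ := Multiset.exists_cons_of_mem hx
      rw [Multiset.card_cons] at hu3
      obtain ⟨y, hy⟩ : ∃ y, y ∈ v := Multiset.card_pos_iff_exists_mem.1 (by omega)
      obtain ⟨v', rfl⟩ := Multiset.exists_cons_of_mem hy
      refine ⟨{x, y}, ?_⟩
      rw [hA, Finset.mem_filter]
      refine ⟨hN.of_le huN ?_ (by simp), by simp⟩
      exact Multiset.cons_le_cons _ (Multiset.cons_le_cons _ (Multiset.zero_le _))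
    have := ff_gap ha hb (hAB.trans hc)
    omega

/-- a clique in the standard monomials gives a Sidon set -/
theorem sidon_of_clique {m : ℕ} {g : κ → ℕ} {T : Finset (Multiset κ)} (hT : IsIdeal T)
    (hinj : Set.InjOn (fun u : Multiset κ => (((u.map g).sum : ℕ) : ZMod m)) T) {K : Finset κ}
    {k : ℕ} (hK : K.card = k) (hK2 : mset K 2 ⊆ two T) :
    ∃ S : Finset (ZMod m), S.card = k + 1 ∧ IsSidonSet S := by
  set q : κ → ZMod m := fun x => ((g x : ℕ) : ZMod m) with hq
  have hinj' : Set.InjOn (fun u : Multiset κ => (u.map q).sum) T := by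
    intro u hu v hv huv
    apply hinj hu hv
    change (((u.map g).sum : ℕ) : ZMod m) = (((v.map g).sum : ℕ) : ZMod m)
    rw [cast_sum, cast_sum]
    exact huv
  have hqinj : Function.Injective q := by
    intro a b hab
    have : ({a} : Multiset κ) = {b} := hinj' (hT.one a) (hT.one b) (by simpa using hab)
    exact Multiset.singleton_inj.1 this
  have hlow : ∀ a ∈ low (K.image q), ∃ u ∈ T, u.map q = a := by
    rintro a ⟨ha, ha'⟩
    rcases (by omega : Multiset.card a = 0 ∨ Multiset.card a = 1 ∨ Multiset.card a = 2) with
      h | h | h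
    · rw [Multiset.card_eq_zero] at h
      subst h
      exact ⟨0, hT.zero, rfl⟩
    · obtain ⟨x, rfl⟩ := Multiset.card_eq_one.1 h
      obtain ⟨x', -, hx'⟩ := Finset.mem_image.1 (ha' x (by simp))
      exact ⟨{x'}, hT.one x', by simp [hx']⟩
    · obtain ⟨x, z, rfl⟩ := Multiset.card_eq_two.1 h
      obtain ⟨x', hxK, hx'⟩ := Finset.mem_image.1 (ha' x (by simp))
      obtain ⟨z', hzK, hz'⟩ := Finset.mem_image.1 (ha' z (by simp))
      refine ⟨{x', z'}, ?_, by simp [hx', hz']⟩
      refine (mem_two.1 (hK2 (mem_mset.2 ⟨by simp, ?_⟩))).1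
      intro w hw
      simp only [Multiset.insert_eq_cons, Multiset.mem_cons, Multiset.mem_singleton] at hw
      rcases hw with rfl | rfl <;> assumption
  have hXc : (K.image q).card = k := by rw [Finset.card_image_of_injective _ hqinj, hK]
  exact config_zero_iff.1 ⟨K.image q, hXc, Or.inl ⟨rfl, injOn_image hinj' hlow⟩⟩

/-- The gap theorem. -/
theorem gap {e k : ℕ}
    (hno : ¬ ∃ S : Finset (ZMod (e + 1 + (k + 1).choose 2)), S.card = k + 1 ∧ IsSidonSet S) :
    maxRho e (e + 1 + (k + 1).choose 2) ≤ (((cval e k 0) - (k - 1) : ℕ) : ℕ∞) := by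
  unfold maxRho
  apply iSup_le
  rintro ⟨Γ, hnum, hed, hmult⟩
  obtain ⟨κ, _, _, g, T, hκ, hT, hcard, hinj, hrho⟩ := exists_ideal hnum hed
  rw [hmult] at hcard hinj
  have h1 := hT.card_eq
  have h2 : (two T).card = (k + 1).choose 2 := by omega
  have h3 : ¬ ∃ K : Finset κ, K.card = k ∧ mset K 2 ⊆ two T := by
    rintro ⟨K, hK, hK2⟩
    exact hno (sidon_of_clique hT hinj hK hK2)
  have h4 := gap_ideal hT.closed h2 h3
  have h5 := hT.count
  rw [h2, hκ] at h5
  have h6 : rho Γ ≤ cval e k 0 - (k - 1) := by
    unfold cval
    have e2 : (0 + 1).choose 2 = 0 := by decide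
    rw [e2]
    omega
  exact_mod_cast h6

end MPc709deS
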