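import Pool.Agent.Work.MP_c709de_al.Linear3
import Pool.Agent.Work.MP_c709de_al_sid.Count

/-! Lower bound from a weighted order ideal. -/

namespace MPc709deS

open Finset MPc709de

variable {κ : Type*} [Fintype κ] [DecidableEq κ]

omit [Fintype κ] [DecidableEq κ] in
theorem IsIdeal.of_le' [DecidableEq κ] {T : Finset (Multiset κ)} (h : IsIdeal T) :
    ∀ {u v : Multiset κ}, u ∈ T → v ≤ u → v ∈ T := by
  intro u
  induction hn : Multiset.card u using Nat.strong_induction_on generalizing u with
  | _ n ih =>
    intro v hu hvu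
    rcases eq_or_lt_of_le hvu with rfl | hlt
    · exact hu
    · obtain ⟨x, hx⟩ := Multiset.lt_iff_cons_le.1 hlt
      have hxu : x ∈ u := Multiset.mem_of_le hx (Multiset.mem_cons_self _ _)
      have hc := Multiset.card_le_card hx
      rw [Multiset.card_cons] at hc
      have h1 : v ≤ u.erase x := by
        have := Multiset.erase_le_erase x hx
        rwa [Multiset.erase_cons_head] at this
      have h2 := h.down u hu x hxu
      have h3 : Multiset.card (u.erase x) = Multiset.card u - 1 := by
        rw [Multiset.card_erase_of_mem hxu, Nat.pred_eq_sub_one]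
      exact ih _ (by omega) h3 h2 h1

/-- the value -/
def vl (g : κ → ℕ) (u : Multiset κ) : ℕ := (u.map g).sum

omit [Fintype κ] [DecidableEq κ] in
theorem vl_add (g : κ → ℕ) (u v : Multiset κ) : vl g (u + v) = vl g u + vl g v := by
  unfold vl; rw [Multiset.map_add, Multiset.sum_add]

omit [Fintype κ] [DecidableEq κ] in
theorem le_vl (g : κ → ℕ) {u : Multiset κ} {x : κ} (hx : x ∈ u) : g x ≤ vl g u := by
  obtain ⟨v, rfl⟩ := Multiset.exists_cons_of_mem hx
  unfold vl
  rw [Multiset.map_cons, Multiset.sum_cons]
  omega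

section

variable {m e : ℕ} (hm : 0 < m) (g : κ → ℕ) (hg : ∀ x, m < g x) {T : Finset (Multiset κ)}
  (hT : IsIdeal T) (hinj : Set.InjOn (fun u => vl g u % m) T) (hcard : T.card = m)
  (hval : ∀ u ∈ T, ∀ v, v ∉ T → vl g u ≡ vl g v [MOD m] → vl g u < vl g v)

include hm hinj hcard in
omit [Fintype κ] in
theorem surj_mod (n : ℕ) : ∃ u ∈ T, vl g u ≡ n [MOD m] := by
  have h1 : T.image (fun u => vl g u % m) = Finset.range m := by
    apply Finset.eq_of_subset_of_card_le
    · intro r hr
      rw [Finset.mem_image] at hr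
      obtain ⟨u, -, rfl⟩ := hr
      rw [Finset.mem_range]
      exact Nat.mod_lt _ hm
    · rw [Finset.card_image_of_injOn hinj, Finset.card_range, hcard]
  have h2 : n % m ∈ T.image (fun u => vl g u % m) := by
    rw [h1, Finset.mem_range]; exact Nat.mod_lt _ hm
  rw [Finset.mem_image] at h2
  exact h2

include hm hinj hval in
omit [Fintype κ] [DecidableEq κ] in
theorem rigid {u : Multiset κ} (hu : u ∈ T) {p : ℕ × Multiset κ} (hp : mval m g p = vl g u) :
    p = (0, u) := by
  rw [mval_apply] at hp
  change p.1 * m + vl g p.2 = vl g u at hp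
  have h1 : vl g p.2 ≡ vl g u [MOD m] := by
    unfold Nat.ModEq
    rw [← hp, Nat.mul_add_mod']
  by_cases hv : p.2 ∈ T
  · have h2 : p.2 = u := hinj hv hu h1
    rw [h2] at hp
    have h3 : p.1 * m = 0 := by omega
    rcases Nat.mul_eq_zero.1 h3 with h | h
    · exact Prod.ext h h2
    · omega
  · exfalso
    have := hval u hu p.2 hv h1.symm
    omega

include hm hinj hval hT in
theorem iso_mn {u : Multiset κ} (hu : u ∈ mn T) : Iso (mval m g) (0, u) where
  pos a ha := by
    have : mval m g a = vl g (0 : Multiset κ) := by rw [ha]; simp [vl]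
    exact rigid hm g hinj hval hT.zero this
  iso v c a b hac hbc hf hc := by
    obtain ⟨a1, a2⟩ := a
    obtain ⟨c1, c2⟩ := c
    have h1 : a1 + c1 = 0 := congrArg Prod.fst hac
    have h2 : a2 + c2 = u := congrArg Prod.snd hac
    have ha1 : a1 = 0 := by omega
    have hc1 : c1 = 0 := by omega
    subst ha1 hc1
    have hc2 : c2 ≠ 0 := by
      rintro rfl; exact hc rfl
    obtain ⟨x, hx⟩ := Multiset.exists_mem_of_ne_zero hc2
    obtain ⟨c3, rfl⟩ := Multiset.exists_cons_of_mem hx
    have hxu : x ∈ u := by
      rw [← h2, Multiset.mem_add]; exact Or.inr hx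
    have h3 := (mem_mn.1 hu).1.2 x hxu
    have h4 : a2 ∈ T := by
      apply hT.of_le' h3
      have : u.erase x = a2 + c3 := by
        rw [← h2, Multiset.add_cons, Multiset.erase_cons_head]
      rw [this]
      exact Multiset.le_add_right _ _
    have h5 : mval m g b = vl g a2 := by
      rw [← hbc, ← hac, map_add, map_add] at hf
      have : mval m g b = mval m g (0, a2) := by omega
      rw [this, mval_apply]
      simp [vl]
    have h6 := rigid hm g hinj hval h4 h5
    rw [← hbc, ← hac, h6]

include hm hinj hval hT hcard in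
theorem other_mn {u : Multiset κ} (hu : u ∈ mn T) :
    ∃ v : ℕ × Multiset κ, 1 ≤ v.1 ∧ mval m g v = mval m g (0, u) := by
  obtain ⟨u', hu', h1⟩ := surj_mod hm g hinj hcard (vl g u)
  have h2 := hval u' hu' u (mem_mn.1 hu).2 h1
  obtain ⟨j, hj⟩ := (Nat.modEq_iff_dvd' h2.le).1 h1
  refine ⟨(j, u'), ?_, ?_⟩
  · simp only
    rcases Nat.eq_zero_or_pos j with h | h
    · subst h; omega
    · exact h
  · rw [mval_apply, mval_apply]
    change j * m + vl g u' = 0 * m + vl g u
    rw [mul_comm j m]
    omega

include hm hinj hval hT hcard in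
theorem genKer_mn (R : Finset ((ℕ × Multiset κ) × (ℕ × Multiset κ))) (hR : GenKer (mval m g) R) :
    (mn T).card ≤ R.card := by
  have h1 := card_le_of_iso (f := mval m g)
    (U := (mn T).map ⟨fun u => ((0 : ℕ), u), fun a b h => congrArg Prod.snd h⟩) ?_ ?_ hR
  · rwa [Finset.card_map] at h1
  · intro u hu
    rw [Finset.mem_map] at hu
    obtain ⟨v, hv, rfl⟩ := hu
    exact iso_mn hm g hT hinj hval hv
  · intro u hu
    rw [Finset.mem_map] at hu
    obtain ⟨v, hv, rfl⟩ := hu
    obtain ⟨w, hw1, hw2⟩ := other_mn hm g hT hinj hcard hval hv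
    refine ⟨w, ?_, hw2⟩
    intro hw
    rw [Finset.mem_map] at hw
    obtain ⟨v', -, rfl⟩ := hw
    change 1 ≤ 0 at hw1
    omega

/-- all generators -/
def hgen (m : ℕ) (g : κ → ℕ) : Option κ → ℕ := fun o => o.elim m g

include hm hinj hval hT hg in
theorem hgen_irr (o : Option κ) (a : Option κ → ℕ) (ha : comb (hgen m g) a = hgen m g o) :
    a = Pi.single o 1 := by
  have hs : comb (hgen m g) (Pi.single o 1) = hgen m g o := by rw [comb_single, one_mul]
  have hc : ∀ v, comb (hgen m g) v = mval m g (msEquiv κ v) := by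
    intro v
    unfold hgen
    rw [comb_eq_mval]; rfl
  rw [hc] at ha hs
  apply (msEquiv κ).injective
  match o with
  | none =>
    have key : ∀ p : ℕ × Multiset κ, mval m g p = m → p = (1, 0) := by
      intro p hp
      rw [mval_apply] at hp
      by_cases h0 : p.2 = 0
      · rw [h0] at hp
        simp only [Multiset.map_zero, Multiset.sum_zero, add_zero] at hp
        have : p.1 = 1 := Nat.eq_of_mul_eq_mul_right hm (by omega)
        exact Prod.ext this h0
      · exfalso
        obtain ⟨x, hx⟩ := Multiset.exists_mem_of_ne_zero h0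
        have h1 := le_vl g hx
        have h2 := hg x
        unfold vl at h1
        omega
    rw [key _ ha, key _ hs]
  | some r =>
    have key : ∀ p : ℕ × Multiset κ, mval m g p = g r → p = (0, {r}) := by
      intro p hp
      apply rigid hm g hinj hval (hT.one r)
      rw [hp]; simp [vl]
    rw [key _ ha, key _ hs]

include hm hinj hval hT hg hcard in
/-- The general lower bound for `R(e,m)`. -/
theorem lower_of_ideal (he : 2 ≤ e) (hκ : Fintype.card κ = e) :
    ((mn T).card : ℕ∞) ≤ maxRho e m := by
  have hirr := hgen_irr hm g hg hT hinj hval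
  have hge : ∀ o : Option κ, m ≤ hgen m g o := by
    intro o
    match o with
    | none => exact le_rfl
    | some r => exact (hg r).le
  have hpos : ∀ o : Option κ, 0 < hgen m g o := fun o => lt_of_lt_of_le hm (hge o)
  have hcard' : Fintype.card (Option κ) = e + 1 := by rw [Fintype.card_option, hκ]
  have hnum : IsNumerical (AddMonoidHom.mrange (comb (hgen m g))) := by
    unfold IsNumerical
    apply (Finset.finite_toSet (Finset.range (∑ u ∈ T, vl g u))).subset
    intro n hn
    rw [Finset.coe_range, Set.mem_Iio]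
    by_contra hcon
    push Not at hcon
    apply hn
    obtain ⟨u, hu, h1⟩ := surj_mod hm g hinj hcard n
    have h2 : vl g u ≤ n :=
      (Finset.single_le_sum (f := fun u => vl g u) (fun _ _ => Nat.zero_le _) hu).trans hcon
    obtain ⟨j, hj⟩ := (Nat.modEq_iff_dvd' h2).1 h1
    refine ⟨(msEquiv κ).symm (j, u), ?_⟩
    have hc : ∀ v, comb (hgen m g) v = mval m g (msEquiv κ v) := by
      intro v
      unfold hgen
      rw [comb_eq_mval]; rfl
    rw [hc, AddEquiv.apply_symm_apply, mval_apply]
    change j * m + vl g u = n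
    rw [mul_comm j m]
    omega
  refine le_maxRho hnum ?_ (mult_mrange (i₀ := none) hm rfl hge) ?_
  · rw [edim_mrange hpos hirr, hcard']
  · refine rho_mrange_ge' he hpos hirr hcard' hnum ?_
    intro R hR
    exact genKer_mval (fun R' hR' => genKer_mn hm g hT hinj hcard hval R' hR') R hR

end

end MPc709deS
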