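import Pool.Agent.Work.MP_c709de_al_sid.Trans

/-! The order of magnitude of `R(e,m)` when `m` is bounded by a polynomial in `e`. -/

namespace MPc709deS

open Finset MPc709de

theorem mac_lt (d : ℕ) : ∀ b n : ℕ, n < (b + 1).choose d → mac d n ≤ (b + 2).choose (d + 1) := by
  induction d with
  | zero => intro b n _; simp [mac]
  | succ d ih =>
    intro b n hn
    unfold mac
    split_ifs with h0
    · exact Nat.zero_le _
    · set a := Nat.findGreatest (fun a => a.choose (d + 1) ≤ n) (n + d + 1) with ha
      have ha1 : a.choose (d + 1) ≤ n := by
        have h1 := Nat.findGreatest_spec (P := fun a => a.choose (d + 1) ≤ n) (m := 0)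
          (n := n + d + 1) (Nat.zero_le _) (by simp)
        exact h1
      have hab : a ≤ b := by
        by_contra hcon
        push Not at hcon
        have := Nat.choose_le_choose (d + 1) (show b + 1 ≤ a by omega)
        omega
      have ha2 : n < (a + 1).choose (d + 1) := by
        by_contra hcon
        push Not at hcon
        have hle : a + 1 ≤ n + d + 1 := by
          by_contra h
          push Not at h
          -- then `a = n + d + 1` and `binom(a, d+1) > n`
          have h2 : n + d + 1 ≤ a := by omega
          have h3 := Nat.choose_le_choose (d + 1) h2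
          have h4 : n < (n + d + 1).choose (d + 1) := by
            have h5 : (n + d + 1).choose (d + 1) = (n + (d + 1)).choose (d + 1) := by ring_nf
            rw [h5]
            have h6 : n + 1 ≤ (n + (d + 1)).choose (d + 1) := by
              have h7 : (n + 1).choose n ≤ (n + (d + 1)).choose n :=
                Nat.choose_le_choose n (by omega)
              have h8 : (n + (d + 1)).choose n = (n + (d + 1)).choose (d + 1) :=
                Nat.choose_symm_add
              have h9 : (n + 1).choose n = n + 1 := by
                rw [Nat.choose_symm_of_eq_add (show n + 1 = n + 1 from rfl), Nat.choose_one_right]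
              omega
            omega
          omega
        have := Nat.le_findGreatest (P := fun a => a.choose (d + 1) ≤ n) hle hcon
        rw [← ha] at this
        omega
      rcases Nat.eq_zero_or_pos a with h0' | h0'
      · -- `a = 0` : then `n < binom(1, d+1) ≤ 1`
        exfalso
        rw [h0'] at ha2
        have : (0 + 1).choose (d + 1) ≤ 1 := by
          rcases Nat.eq_zero_or_pos d with h | h
          · subst h; simp
          · rw [Nat.choose_eq_zero_of_lt (by omega)]; omega
        omega
      · have h3 : n - a.choose (d + 1) < (a - 1 + 1).choose d := by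
          have h4 : a - 1 + 1 = a := by omega
          rw [h4]
          rw [Nat.choose_succ_succ' a d] at ha2
          omega
        have h5 := ih (a - 1) _ h3
        have h6 : a - 1 + 2 = a + 1 := by omega
        rw [h6] at h5
        have h7 : (a + 2).choose (d + 2) = (a + 1).choose (d + 1) + (a + 1).choose (d + 2) :=
          Nat.choose_succ_succ' (a + 1) (d + 1)
        have h8 := Nat.choose_le_choose (d + 2) (show a + 2 ≤ b + 2 by omega)
        have h9 : d + 1 + 1 = d + 2 := rfl
        rw [h9]
        omega

theorem pow_le_fact_mul_choose (n k : ℕ) : (n + 1 - k) ^ k ≤ k.factorial * n.choose k := by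
  rw [← Nat.descFactorial_eq_factorial_mul_choose]
  exact Nat.pow_sub_le_descFactorial n k

/-- `a^j ≤ binom(j(a+1), j)` -/
theorem pow_le_choose_mul (j a : ℕ) : a ^ j ≤ (j * a + j).choose j := by
  have h1 := pow_le_fact_mul_choose (j * a + j) j
  have h2 : j * a + j + 1 - j = j * a + 1 := by omega
  rw [h2] at h1
  have h3 : j ^ j * a ^ j ≤ j ^ j * (j * a + j).choose j := by
    calc j ^ j * a ^ j = (j * a) ^ j := (mul_pow _ _ _).symm
      _ ≤ (j * a + 1) ^ j := Nat.pow_le_pow_left (by omega) _
      _ ≤ j.factorial * (j * a + j).choose j := h1
      _ ≤ _ := Nat.mul_le_mul_right _ (Nat.factorial_le_pow j)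
  rcases Nat.eq_zero_or_pos j with h | h
  · subst h; simp
  · exact Nat.le_of_mul_le_mul_left h3 (pow_pos h j)

end MPc709deS
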