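import Pool.Agent.Work.MP_c709de_al_sid.Order

/-! The main inequality. -/

namespace MPc709deS

open Finset MPc709de

theorem room (h : ℕ) (hh : 1 ≤ h) (k d : ℕ) :
    (k + h).choose h + d ≤ (k + d + h).choose h := by
  induction d with
  | zero => simp
  | succ d ih =>
    obtain ⟨h', rfl⟩ : ∃ h', h = h' + 1 := ⟨h - 1, by omega⟩
    have h1 : k + (d + 1) + (h' + 1) = (k + d + (h' + 1)) + 1 := by ring
    rw [h1, Nat.choose_succ_succ' (k + d + (h' + 1)) h']
    have h2 : 0 < (k + d + (h' + 1)).choose h' := Nat.choose_pos (by omega)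
    omega

theorem exists_root (j m : ℕ) (hj : 1 ≤ j) : ∃ a : ℕ, a ^ j ≤ m ∧ m < (a + 1) ^ j := by
  have h : ∃ b : ℕ, m < (b + 1) ^ j := ⟨m, by
    calc m < m + 1 := Nat.lt_succ_self m
      _ ≤ (m + 1) ^ j := Nat.le_self_pow (by omega) _⟩
  classical
  refine ⟨Nat.find h, ?_, Nat.find_spec h⟩
  rcases Nat.eq_zero_or_pos (Nat.find h) with h0 | h0
  · rw [h0, zero_pow (by omega)]; exact Nat.zero_le _
  · have := Nat.find_min h (m := Nat.find h - 1) (by omega)
    push Not at this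
    have h2 : Nat.find h - 1 + 1 = Nat.find h := by omega
    rwa [h2] at this

/-- the `h = j` bound -/
theorem part_a {j e m a N : ℕ} (hj : 2 ≤ j) (he : 3 ≤ e)
    (hup : m < (e + j).choose j)
    (ha1 : a ^ j ≤ m) (ha2 : m < (a + 1) ^ j) (h2e : 2 * e ≤ m)
    (haL : 2 * (j + 1).factorial * 2 ^ j * (8 * j) ^ (j + 1) + 8 * j * j ≤ a)
    (hN : ∀ k h : ℕ, 1 ≤ h → 1 ≤ k → h * (2 * (2 * k) ^ h) ≤ m → k < e →
      e - k + (k + h).choose h ≤ m → (k + h).choose (h + 1) ≤ N + m) :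
    m ≤ N ∧ a ^ (j + 1) ≤ (8 * j) ^ (j + 1) * (j + 1).factorial * 2 * N := by
  set F := (j + 1).factorial with hF
  have hFpos : 0 < F := Nat.factorial_pos _
  set k := a / (4 * j) with hk
  have h8 : 8 * j * j ≤ a := le_trans (Nat.le_add_left _ _) haL
  have hk4 : 4 * j * k ≤ a := by rw [hk]; exact Nat.mul_div_le a (4 * j)
  have hk5 : a < 4 * j * (k + 1) := by
    rw [hk]
    exact Nat.lt_mul_div_succ a (by omega)
  have hk1 : 1 ≤ k := by
    rw [hk, Nat.le_div_iff_mul_le (by omega)]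
    nlinarith
  have ha8 : a ≤ 8 * j * k := by nlinarith
  -- condition 1
  have c1 : j * (2 * (2 * k) ^ j) ≤ m := by
    calc j * (2 * (2 * k) ^ j) = (2 * j) * (2 * k) ^ j := by ring
      _ ≤ (2 * j) ^ j * (2 * k) ^ j := Nat.mul_le_mul_right _ (Nat.le_self_pow (by omega) _)
      _ = (4 * j * k) ^ j := by rw [← mul_pow]; ring_nf
      _ ≤ a ^ j := Nat.pow_le_pow_left hk4 j
      _ ≤ m := ha1
  have hae : a < e + j := by
    have h1 : a ^ j < (e + j) ^ j :=
      lt_of_le_of_lt ha1 (lt_of_lt_of_le hup (Nat.choose_le_pow _ _))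
    exact lt_of_pow_lt_pow_left' j h1
  have c2 : k < e := by
    by_contra hcon
    push Not at hcon
    have h1 : 4 * j * e ≤ 4 * j * k := Nat.mul_le_mul_left _ hcon
    nlinarith
  have c3 : e - k + (k + j).choose j ≤ m := by
    have h1 : 2 * (k + j) ≤ a := by
      have h3 : 8 * k ≤ 4 * j * k := Nat.mul_le_mul_right _ (by omega)
      have h4 : 16 * j ≤ 8 * j * j := by nlinarith
      omega
    have h2 : 2 * (k + j) ^ j ≤ m := by
      calc 2 * (k + j) ^ j ≤ 2 ^ j * (k + j) ^ j :=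
            Nat.mul_le_mul_right _ (Nat.le_self_pow (by omega) 2)
        _ = (2 * (k + j)) ^ j := (mul_pow _ _ _).symm
        _ ≤ a ^ j := Nat.pow_le_pow_left h1 j
        _ ≤ m := ha1
    have h3 := Nat.choose_le_pow (k + j) j
    omega
  have h1 := hN k j (by omega) hk1 c1 c2 c3
  have h2 := pow_le_fact_mul_choose (k + j) (j + 1)
  have h3 : k + j + 1 - (j + 1) = k := by omega
  rw [h3, ← hF] at h2
  have h4 : k ^ (j + 1) ≤ F * (N + m) := h2.trans (Nat.mul_le_mul_left _ h1)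
  have h5 : a ^ (j + 1) ≤ (8 * j) ^ (j + 1) * (F * (N + m)) := by
    calc a ^ (j + 1) ≤ (8 * j * k) ^ (j + 1) := Nat.pow_le_pow_left ha8 _
      _ = (8 * j) ^ (j + 1) * k ^ (j + 1) := mul_pow _ _ _
      _ ≤ _ := Nat.mul_le_mul_left _ h4
  have ha0 : 1 ≤ a := by nlinarith
  have h6 : m ≤ 2 ^ j * a ^ j := by
    calc m ≤ (a + 1) ^ j := ha2.le
      _ ≤ (2 * a) ^ j := Nat.pow_le_pow_left (by omega) j
      _ = _ := mul_pow _ _ _
  have h7 : (2 * F * 2 ^ j * (8 * j) ^ (j + 1)) * a ^ j ≤ a ^ (j + 1) := by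
    rw [pow_succ' a j]
    exact Nat.mul_le_mul_right _ (le_trans (Nat.le_add_right _ _) haL)
  have h8' : (8 * j) ^ (j + 1) * F * (2 * m) ≤ (8 * j) ^ (j + 1) * F * (N + m) := by
    calc (8 * j) ^ (j + 1) * F * (2 * m) ≤ (8 * j) ^ (j + 1) * F * (2 * (2 ^ j * a ^ j)) :=
          Nat.mul_le_mul_left _ (Nat.mul_le_mul_left _ h6)
      _ = (2 * F * 2 ^ j * (8 * j) ^ (j + 1)) * a ^ j := by ring
      _ ≤ a ^ (j + 1) := h7
      _ ≤ _ := h5
      _ = _ := by ring
  have hpos : 0 < (8 * j) ^ (j + 1) * F := Nat.mul_pos (pow_pos (by omega) _) hFpos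
  have h9 : 2 * m ≤ N + m := Nat.le_of_mul_le_mul_left h8' hpos
  refine ⟨by omega, ?_⟩
  calc a ^ (j + 1) ≤ (8 * j) ^ (j + 1) * (F * (N + m)) := h5
    _ ≤ (8 * j) ^ (j + 1) * (F * (2 * N)) :=
        Nat.mul_le_mul_left _ (Nat.mul_le_mul_left _ (by omega))
    _ = _ := by ring

/-- the `h = j - 1` bound -/
theorem part_b {j e m N : ℕ} (hj : 2 ≤ j) (he : 3 ≤ e) (hlow : (e + j - 1).choose (j - 1) ≤ m)
    (hmN : m ≤ N) (hN1 : 1 ≤ N)
    (hN : ∀ k h : ℕ, 1 ≤ h → 1 ≤ k → h * (2 * (2 * k) ^ h) ≤ m → k < e →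
      e - k + (k + h).choose h ≤ m → (k + h).choose (h + 1) ≤ N + m) :
    e ^ j ≤ ((8 * (j * j)) ^ j * j.factorial * 2 + (4 * (j * j)) ^ j) * N := by
  set k := e / (4 * (j * j)) with hk
  have hjj : 4 ≤ j * j := by nlinarith
  have hk4 : 4 * (j * j) * k ≤ e := by rw [hk]; exact Nat.mul_div_le e _
  have hk5 : e < 4 * (j * j) * (k + 1) := by
    rw [hk]
    exact Nat.lt_mul_div_succ e (by omega)
  rcases Nat.eq_zero_or_pos k with h0 | h0
  · rw [h0] at hk5
    calc e ^ j ≤ (4 * (j * j)) ^ j := Nat.pow_le_pow_left (by omega) j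
      _ = (4 * (j * j)) ^ j * 1 := (mul_one _).symm
      _ ≤ (4 * (j * j)) ^ j * N := Nat.mul_le_mul_left _ hN1
      _ ≤ _ := Nat.mul_le_mul_right _ (Nat.le_add_left _ _)
  · obtain ⟨i, rfl⟩ : ∃ i, j = i + 1 := ⟨j - 1, by omega⟩
    have hi : 1 ≤ i := by omega
    have e1 : e + (i + 1) - 1 = e + i := by omega
    have e2 : i + 1 - 1 = i := by omega
    rw [e1, e2] at hlow
    have hfac := pow_le_fact_mul_choose (e + i) i
    have e3 : e + i + 1 - i = e + 1 := by omega
    rw [e3] at hfac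
    have hpowe : e ^ i ≤ i.factorial * m :=
      (Nat.pow_le_pow_left (by omega) i).trans (hfac.trans (Nat.mul_le_mul_left _ hlow))
    have hipos : 0 < i.factorial := Nat.factorial_pos _
    have c1 : i * (2 * (2 * k) ^ i) ≤ m := by
      have h1 : i.factorial * (i * (2 * (2 * k) ^ i)) ≤ i.factorial * m := by
        have h2 : i.factorial ≤ (i + 1) ^ i :=
          (Nat.factorial_le_pow i).trans (Nat.pow_le_pow_left (by omega) i)
        have h3 : i * 2 ≤ (2 * (i + 1)) ^ i := by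
          calc i * 2 ≤ 2 * (i + 1) := by omega
            _ ≤ _ := Nat.le_self_pow (by omega) _
        calc i.factorial * (i * (2 * (2 * k) ^ i)) = i.factorial * (i * 2) * (2 * k) ^ i := by ring
          _ ≤ (i + 1) ^ i * (2 * (i + 1)) ^ i * (2 * k) ^ i :=
              Nat.mul_le_mul_right _ (Nat.mul_le_mul h2 h3)
          _ = (4 * ((i + 1) * (i + 1)) * k) ^ i := by
              rw [← mul_pow, ← mul_pow]; ring_nf
          _ ≤ e ^ i := Nat.pow_le_pow_left hk4 i
          _ ≤ _ := hpowe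
      exact Nat.le_of_mul_le_mul_left h1 hipos
    have c2 : k < e := by nlinarith
    have c3 : e - k + (k + i).choose i ≤ m := by
      have := room i hi k (e - k)
      have h2 : k + (e - k) + i = e + i := by omega
      rw [h2] at this
      omega
    have h1 := hN k i hi h0 c1 c2 c3
    have h2 := pow_le_fact_mul_choose (k + i) (i + 1)
    have h3 : k + i + 1 - (i + 1) = k := by omega
    rw [h3] at h2
    have h4 : k ^ (i + 1) ≤ (i + 1).factorial * (2 * N) :=
      h2.trans (Nat.mul_le_mul_left _ (by omega))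
    have h5 : e ≤ 8 * ((i + 1) * (i + 1)) * k := by nlinarith
    calc e ^ (i + 1) ≤ (8 * ((i + 1) * (i + 1)) * k) ^ (i + 1) := Nat.pow_le_pow_left h5 _
      _ = (8 * ((i + 1) * (i + 1))) ^ (i + 1) * k ^ (i + 1) := mul_pow _ _ _
      _ ≤ (8 * ((i + 1) * (i + 1))) ^ (i + 1) * ((i + 1).factorial * (2 * N)) :=
          Nat.mul_le_mul_left _ h4
      _ = ((8 * ((i + 1) * (i + 1))) ^ (i + 1) * (i + 1).factorial * 2) * N := by ring
      _ ≤ _ := Nat.mul_le_mul_right _ (Nat.le_add_right _ _)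

/-- the main inequality -/
theorem main_ineq (j : ℕ) (hj : 2 ≤ j) : ∃ K : ℕ, ∀ e m a N : ℕ, 3 ≤ e → e < m →
    (e + j - 1).choose (j - 1) ≤ m → m < (e + j).choose j → a ^ j ≤ m → m < (a + 1) ^ j →
    maxRho e m = (N : ℕ∞) → e ^ j + a ^ (j + 1) ≤ K * N := by
  set A := 2 * (j + 1).factorial * 2 ^ j * (8 * j) ^ (j + 1) + 8 * j * j with hA
  refine ⟨((A ^ j) ^ j + A ^ (j + 1)) + 20 + ((8 * j) ^ (j + 1) * (j + 1).factorial * 2 +
    ((8 * (j * j)) ^ j * j.factorial * 2 + (4 * (j * j)) ^ j)), ?_⟩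
  intro e m a N he hem hlow hup ha1 ha2 hmax
  set K1 := (A ^ j) ^ j + A ^ (j + 1) with hK1
  set K2 := (8 * j) ^ (j + 1) * (j + 1).factorial * 2 with hK2
  set K3 := (8 * (j * j)) ^ j * j.factorial * 2 + (4 * (j * j)) ^ j with hK3
  have hN1 : 1 ≤ N := by
    have := one_le_maxRho (e := e) (m := m) (by omega) hem
    rw [hmax] at this
    exact_mod_cast this
  have hN : ∀ k h : ℕ, 1 ≤ h → 1 ≤ k → h * (2 * (2 * k) ^ h) ≤ m → k < e →
      e - k + (k + h).choose h ≤ m → (k + h).choose (h + 1) ≤ N + m := by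
    intro k h hh hk h1 h2 h3
    have h4 := lower_explicit hh hk h1 h2 (by omega) h3
    rw [hmax] at h4
    have h5 : (k + h).choose (h + 1) - m ≤ N := by exact_mod_cast h4
    omega
  rcases Nat.lt_or_ge a A with hsmall | hlarge
  · -- bounded range
    have h1 : m < A ^ j := lt_of_lt_of_le ha2 (Nat.pow_le_pow_left (by omega) j)
    have h2 : e ^ j ≤ (A ^ j) ^ j := Nat.pow_le_pow_left (by omega) j
    have h3 : a ^ (j + 1) ≤ A ^ (j + 1) := Nat.pow_le_pow_left hsmall.le _
    calc e ^ j + a ^ (j + 1) ≤ K1 * 1 := by omega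
      _ ≤ K1 * N := Nat.mul_le_mul_left _ hN1
      _ ≤ (K1 + 20 + (K2 + K3)) * N := Nat.mul_le_mul_right _ (by omega)
  · rcases Nat.lt_or_ge m (2 * e) with h2e | h2e
    · -- `j = 2` and `m < 2 e`
      have hj2 : j = 2 := by
        by_contra hcon
        have h3 : 3 ≤ j := by omega
        have h4 : (e + 2).choose 2 ≤ (e + j - 1).choose (j - 1) := by
          have h5 : (e + 2).choose 2 = (e + 2).choose e := by
            rw [Nat.choose_symm_add]
          have h6 : (e + j - 1).choose (j - 1) = (e + j - 1).choose e := by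
            have h7 : e + j - 1 = e + (j - 1) := by omega
            rw [h7, Nat.choose_symm_add]
          rw [h5, h6]
          exact Nat.choose_le_choose e (by omega)
        have h5 := choose2 (e + 1)
        have h6 : e + 1 + 1 = e + 2 := rfl
        rw [h6] at h5
        nlinarith
      subst hj2
      have h1 := lower_one (m := m) (k := e - 1) (by omega) (by omega) hem
      rw [hmax] at h1
      have h2 : (e - 1 + 1).choose 2 - m ≤ N := by exact_mod_cast h1
      have h3 : e - 1 + 1 = e := by omega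
      have h4 := choose2 (e - 1)
      rw [h3] at h4 h2
      have hA32 : 32 ≤ A := by
        rw [hA]
        exact Nat.le_add_left 32 _
      have h5 : 10 ≤ e := by nlinarith
      have h6 : 2 * (N + 2 * e) ≥ (e - 1) * e := by
        rw [← h4]; omega
      have h7 : e * e ≤ 4 * N := by
        obtain ⟨x, rfl⟩ : ∃ x, e = x + 1 := ⟨e - 1, by omega⟩
        rw [Nat.add_sub_cancel] at h6
        nlinarith
      have h8 : a ^ 3 ≤ 4 * (e * e) := by
        have h9 : a ^ 2 ≤ 2 * e := by omega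
        have h10 : a ≤ 2 * e := by nlinarith
        calc a ^ 3 = a ^ 2 * a := by ring
          _ ≤ (2 * e) * (2 * e) := Nat.mul_le_mul h9 h10
          _ = _ := by ring
      calc e ^ 2 + a ^ (2 + 1) ≤ 20 * N := by
            have : a ^ (2 + 1) = a ^ 3 := rfl
            rw [this]
            nlinarith
        _ ≤ (K1 + 20 + (K2 + K3)) * N := Nat.mul_le_mul_right _ (by omega)
    · obtain ⟨h1, h2⟩ := part_a hj he hup ha1 ha2 h2e hlarge hN
      have h3 := part_b hj he hlow h1 hN1 hN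
      calc e ^ j + a ^ (j + 1) ≤ K3 * N + K2 * N := Nat.add_le_add h3 h2
        _ = (K2 + K3) * N := by ring
        _ ≤ (K1 + 20 + (K2 + K3)) * N := Nat.mul_le_mul_right _ (by omega)

end MPc709deS
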