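import Pool.Agent.Work.MP_c709de_al_sid.Order2

/-! `R(e,m)` has the order of magnitude of `C(e,m)` when `m` is polynomially bounded in `e`. -/

namespace MPc709deS

open Finset MPc709de

theorem rr_spec {e m r : ℕ} (hem : e < m) (hr : m < (e + r).choose r) :
    rr e m ≤ r ∧ 2 ≤ rr e m ∧ m < (e + rr e m).choose (rr e m) ∧
      (e + rr e m - 1).choose (rr e m - 1) ≤ m := by
  have hne : {r | m < (e + r).choose r}.Nonempty := ⟨r, hr⟩
  have h1 : m < (e + rr e m).choose (rr e m) := Nat.sInf_mem hne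
  have h2 : rr e m ≤ r := Nat.sInf_le hr
  have h3 : 2 ≤ rr e m := by
    by_contra hcon
    rcases (by omega : rr e m = 0 ∨ rr e m = 1) with h | h
    · rw [h] at h1
      simp at h1
      omega
    · rw [h, Nat.choose_one_right] at h1
      omega
  refine ⟨h2, h3, h1, ?_⟩
  by_contra hcon
  push Not at hcon
  have h4 : rr e m - 1 ∈ {r | m < (e + r).choose r} := by
    change m < (e + (rr e m - 1)).choose (rr e m - 1)
    have : e + (rr e m - 1) = e + rr e m - 1 := by omega
    rw [this]; exact hcon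
  have h5 : rr e m ≤ rr e m - 1 := Nat.sInf_le h4
  omega

theorem ERV_le {e m a j : ℕ} (hj : 2 ≤ j) (he : 1 ≤ e) (hm : 1 ≤ m) (ha : m < (a + 1) ^ j) :
    (e + j - 1).choose j + mac j (m - (e + j - 1).choose (j - 1)) ≤
      (4 * j) ^ (j + 1) * (e ^ j + a ^ (j + 1)) := by
  have ha1 : 1 ≤ a := by
    rcases Nat.eq_zero_or_pos a with h | h
    · subst h; simp at ha; omega
    · exact h
  have h1 : (e + j - 1).choose j ≤ (4 * j) ^ (j + 1) * e ^ j := by
    calc (e + j - 1).choose j ≤ (e + j - 1) ^ j := Nat.choose_le_pow _ _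
      _ ≤ (j * e) ^ j := by
          apply Nat.pow_le_pow_left
          obtain ⟨x, rfl⟩ : ∃ x, e = x + 1 := ⟨e - 1, by omega⟩
          have : x ≤ j * x := Nat.le_mul_of_pos_left _ (by omega)
          rw [mul_add, mul_one]
          omega
      _ = j ^ j * e ^ j := mul_pow _ _ _
      _ ≤ (4 * j) ^ (j + 1) * e ^ j := by
          apply Nat.mul_le_mul_right
          calc j ^ j ≤ (4 * j) ^ j := Nat.pow_le_pow_left (by omega) _
            _ ≤ (4 * j) ^ (j + 1) := Nat.pow_le_pow_right (by omega) (by omega)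
  have h2 : mac j (m - (e + j - 1).choose (j - 1)) ≤ (4 * j) ^ (j + 1) * a ^ (j + 1) := by
    have h3 : m - (e + j - 1).choose (j - 1) < (j * (a + 1) + j - 1 + 1).choose j := by
      have h4 : j * (a + 1) + j - 1 + 1 = j * (a + 1) + j := by omega
      rw [h4]
      have := pow_le_choose_mul j (a + 1)
      omega
    have h4 := mac_lt j _ _ h3
    calc mac j (m - (e + j - 1).choose (j - 1)) ≤ (j * (a + 1) + j - 1 + 2).choose (j + 1) := h4
      _ ≤ (j * (a + 1) + j - 1 + 2) ^ (j + 1) := Nat.choose_le_pow _ _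
      _ ≤ (4 * j * a) ^ (j + 1) := by
          apply Nat.pow_le_pow_left
          have h5 : j * 1 ≤ j * a := Nat.mul_le_mul_left _ ha1
          have h6 : j * (a + 1) = j * a + j := by ring
          have h7 : 4 * j * a = 4 * (j * a) := by ring
          omega
      _ = _ := mul_pow _ _ _
  rw [mul_add]
  omega

/-- Main theorem on the order of magnitude. -/
theorem order (r : ℕ) : ∃ K : ℕ, ∀ e m : ℕ, 3 ≤ e → e < m → m < (e + r).choose r →
    ((ERV e m : ℕ) : ℕ∞) ≤ (K : ℕ∞) * maxRho e m := by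
  have hex : ∀ j : ℕ, ∃ K : ℕ, 2 ≤ j → ∀ e m a N : ℕ, 3 ≤ e → e < m →
    (e + j - 1).choose (j - 1) ≤ m → m < (e + j).choose j → a ^ j ≤ m → m < (a + 1) ^ j →
    maxRho e m = (N : ℕ∞) → e ^ j + a ^ (j + 1) ≤ K * N := by
    intro j
    by_cases hj : 2 ≤ j
    · obtain ⟨K, hK⟩ := main_ineq j hj
      exact ⟨K, fun _ => hK⟩
    · exact ⟨0, fun h => absurd h hj⟩
  choose K hK using hex
  refine ⟨∑ j ∈ Finset.range (r + 1), (4 * j) ^ (j + 1) * K j, ?_⟩
  intro e m he hem hm
  obtain ⟨h1, h2, h3, h4⟩ := rr_spec hem hm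
  set j := rr e m with hj
  obtain ⟨a, ha1, ha2⟩ := exists_root j m (by omega)
  obtain ⟨c, C, -, -, hg⟩ := growth e he
  obtain ⟨N, hN, -, -⟩ := hg m hem
  rw [hN]
  have h5 := hK j h2 e m a N he hem h4 h3 ha1 ha2 hN
  have h6 := ERV_le (e := e) (m := m) (a := a) h2 (by omega) (by omega) ha2
  have h7 : ERV e m ≤ (4 * j) ^ (j + 1) * K j * N := by
    calc ERV e m ≤ (e + j - 1).choose j + mac j (m - (e + j - 1).choose (j - 1)) := by
          unfold ERV
          rw [← hj]
          exact Nat.sub_le _ _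
      _ ≤ (4 * j) ^ (j + 1) * (e ^ j + a ^ (j + 1)) := h6
      _ ≤ (4 * j) ^ (j + 1) * (K j * N) := Nat.mul_le_mul_left _ h5
      _ = _ := by ring
  have h8 : (4 * j) ^ (j + 1) * K j ≤ ∑ j ∈ Finset.range (r + 1), (4 * j) ^ (j + 1) * K j :=
    Finset.single_le_sum (f := fun j => (4 * j) ^ (j + 1) * K j) (fun _ _ => Nat.zero_le _)
      (Finset.mem_range.2 (by omega))
  have h9 : ERV e m ≤ (∑ j ∈ Finset.range (r + 1), (4 * j) ^ (j + 1) * K j) * N :=
    h7.trans (Nat.mul_le_mul_right _ h8)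
  exact_mod_cast h9

end MPc709deS
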