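import Pool.Agent.Work.MP_c709de_al_sid.Sidon

/-! A lower bound for `R(e,m)` from partial information on the Apéry set. -/

namespace MPc709deS

open Finset MPc709de

section

variable {κ : Type*} [Fintype κ] [DecidableEq κ]

/-- Lower bound from rigid monomials: `S` is a set of rigid monomials, and `cand` is a finite set of
monomials all of whose proper divisors are rigid. -/
theorem lower_partial {m e : ℕ} (hm : 0 < m) (g : κ → ℕ) (hg : ∀ x, m < g x)
    (hsurj : ∀ c : ℕ, ∃ v : Multiset κ, vl g v ≡ c [MOD m]) (S : Set (Multiset κ))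
    (hrig : ∀ u ∈ S, ∀ p : ℕ × Multiset κ, mval m g p = vl g u → p = (0, u))
    (h0 : (0 : Multiset κ) ∈ S) (h1 : ∀ x, ({x} : Multiset κ) ∈ S)
    (cand : Finset (Multiset κ)) (hc : ∀ u ∈ cand, ∀ v, v < u → v ∈ S)
    (he : 2 ≤ e) (hκ : Fintype.card κ = e) :
    ((cand.card - m : ℕ) : ℕ∞) ≤ maxRho e m := by
  classical
  -- representatives of the classes
  have hmin : ∀ c : ZMod m, ∃ v : Multiset κ, ((vl g v : ℕ) : ZMod m) = c ∧
      ∀ w : Multiset κ, ((vl g w : ℕ) : ZMod m) = c → vl g v ≤ vl g w := by
    intro c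
    have : NeZero m := ⟨hm.ne'⟩
    have hex : ∃ n : ℕ, ∃ v : Multiset κ, ((vl g v : ℕ) : ZMod m) = c ∧ vl g v = n := by
      obtain ⟨v, hv⟩ := hsurj c.val
      refine ⟨vl g v, v, ?_, rfl⟩
      rw [← ZMod.natCast_eq_natCast_iff] at hv
      rw [hv, ZMod.natCast_zmod_val]
    obtain ⟨v, hv1, hv2⟩ := Nat.find_spec hex
    refine ⟨v, hv1, fun w hw => ?_⟩
    rw [hv2]
    exact Nat.find_min' hex ⟨w, hw, rfl⟩
  choose rep hrep1 hrep2 using hmin
  have hNZ : NeZero m := ⟨hm.ne'⟩
  set Tset : Finset (Multiset κ) := (univ : Finset (ZMod m)).image rep with hTset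
  have hTcard : Tset.card ≤ m := by
    calc Tset.card ≤ (univ : Finset (ZMod m)).card := Finset.card_image_le
      _ = m := by rw [Finset.card_univ, ZMod.card]
  set U : Finset (Multiset κ) := cand \ Tset with hU
  have hUcard : cand.card - m ≤ U.card := by
    have h2 := Finset.le_card_sdiff Tset cand
    rw [← hU] at h2
    omega
  -- quotients
  have hquot : ∀ u : Multiset κ, ∃ j : ℕ, vl g u = j * m + vl g (rep ((vl g u : ℕ) : ZMod m)) := by
    intro u
    have h2 := hrep2 ((vl g u : ℕ) : ZMod m) u rfl
    have h3 : vl g (rep ((vl g u : ℕ) : ZMod m)) ≡ vl g u [MOD m] := by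
      rw [← ZMod.natCast_eq_natCast_iff]
      exact hrep1 _
    obtain ⟨j, hj⟩ := (Nat.modEq_iff_dvd' h2).1 h3
    exact ⟨j, by rw [mul_comm j m]; omega⟩
  have hgenR : ∀ R : Finset ((ℕ × Multiset κ) × (ℕ × Multiset κ)), GenKer (mval m g) R →
      U.card ≤ R.card := by
    intro R hR
    have h2 := card_le_of_iso (f := mval m g)
      (U := U.map ⟨fun u => ((0 : ℕ), u), fun a b h => congrArg Prod.snd h⟩) ?_ ?_ hR
    · rwa [Finset.card_map] at h2
    · intro u hu
      rw [Finset.mem_map] at hu
      obtain ⟨w, hw, rfl⟩ := hu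
      have hwc : w ∈ cand := (Finset.mem_sdiff.1 hw).1
      refine ⟨?_, ?_⟩
      · intro v c a b hac hbc hf hcne
        obtain ⟨a1, a2⟩ := a
        obtain ⟨c1, c2⟩ := c
        have e1 : a1 + c1 = 0 := congrArg Prod.fst hac
        have e2 : a2 + c2 = w := congrArg Prod.snd hac
        have ha1 : a1 = 0 := by omega
        have hc1 : c1 = 0 := by omega
        subst ha1 hc1
        have hc2 : c2 ≠ 0 := by
          rintro rfl; exact hcne rfl
        have hlt : a2 < w := by
          rw [← e2]
          exact lt_add_of_pos_right a2 (pos_iff_ne_zero.2 hc2)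
        have ha2 := hc w hwc a2 hlt
        have h5 : mval m g b = vl g a2 := by
          rw [← hbc, ← hac, map_add, map_add] at hf
          have : mval m g b = mval m g (0, a2) := by omega
          rw [this, mval_apply]
          simp [vl]
        have h6 := hrig a2 ha2 b h5
        rw [← hbc, ← hac, h6]
      · intro a ha
        have : mval m g a = vl g (0 : Multiset κ) := by rw [ha]; simp [vl]
        exact hrig 0 h0 a this
    · intro u hu
      rw [Finset.mem_map] at hu
      obtain ⟨w, hw, rfl⟩ := hu
      obtain ⟨j, hj⟩ := hquot w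
      refine ⟨(j, rep ((vl g w : ℕ) : ZMod m)), ?_, ?_⟩
      · intro hmem
        rw [Finset.mem_map] at hmem
        obtain ⟨w', hw', hw''⟩ := hmem
        have h3 : w' = rep ((vl g w : ℕ) : ZMod m) := congrArg Prod.snd hw''
        apply (Finset.mem_sdiff.1 hw').2
        rw [h3, hTset]
        exact Finset.mem_image_of_mem _ (Finset.mem_univ _)
      · rw [mval_apply]
        change _ = 0 * m + vl g w
        rw [zero_mul, zero_add]
        exact hj.symm
  -- the semigroup
  have hcm : ∀ v, comb (hgen m g) v = mval m g (msEquiv κ v) := by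
    intro v
    unfold MPc709deS.hgen
    rw [comb_eq_mval]; rfl
  have hirr : ∀ (o : Option κ) (a : Option κ → ℕ),
      comb (MPc709deS.hgen m g) a = MPc709deS.hgen m g o → a = Pi.single o 1 := by
    intro o a ha
    have hs : comb (MPc709deS.hgen m g) (Pi.single o 1) = MPc709deS.hgen m g o := by
      rw [comb_single, one_mul]
    rw [hcm] at ha hs
    apply (msEquiv κ).injective
    match o with
    | none =>
      have key : ∀ p : ℕ × Multiset κ, mval m g p = m → p = (1, 0) := by
        intro p hp
        rw [mval_apply] at hp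
        by_cases h0 : p.2 = 0
        · rw [h0] at hp
          simp only [Multiset.map_zero, Multiset.sum_zero, add_zero] at hp
          have : p.1 = 1 := Nat.eq_of_mul_eq_mul_right hm (by omega)
          exact Prod.ext this h0
        · exfalso
          obtain ⟨x, hx⟩ := Multiset.exists_mem_of_ne_zero h0
          have h1 := le_vl g hx
          have h2 := hg x
          unfold vl at h1
          omega
      rw [key _ ha, key _ hs]
    | some r =>
      have key : ∀ p : ℕ × Multiset κ, mval m g p = g r → p = (0, {r}) := by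
        intro p hp
        apply hrig _ (h1 r)
        rw [hp]; simp [vl]
      rw [key _ ha, key _ hs]
  have hge : ∀ o : Option κ, m ≤ MPc709deS.hgen m g o := by
    intro o
    match o with
    | none => exact le_rfl
    | some r => exact (hg r).le
  have hpos : ∀ o : Option κ, 0 < MPc709deS.hgen m g o := fun o => lt_of_lt_of_le hm (hge o)
  have hcard' : Fintype.card (Option κ) = e + 1 := by rw [Fintype.card_option, hκ]
  have hnum : IsNumerical (AddMonoidHom.mrange (comb (MPc709deS.hgen m g))) := by
    unfold IsNumerical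
    apply (Finset.finite_toSet (Finset.range (∑ u ∈ Tset, vl g u))).subset
    intro n hn
    rw [Finset.coe_range, Set.mem_Iio]
    by_contra hcon
    push Not at hcon
    apply hn
    have hmem : rep ((n : ℕ) : ZMod m) ∈ Tset := Finset.mem_image_of_mem _ (Finset.mem_univ _)
    have h2 : vl g (rep ((n : ℕ) : ZMod m)) ≤ n :=
      (Finset.single_le_sum (f := fun u => vl g u) (fun _ _ => Nat.zero_le _) hmem).trans hcon
    have h3 : vl g (rep ((n : ℕ) : ZMod m)) ≡ n [MOD m] := by
      rw [← ZMod.natCast_eq_natCast_iff]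
      exact hrep1 _
    obtain ⟨j, hj⟩ := (Nat.modEq_iff_dvd' h2).1 h3
    refine ⟨(msEquiv κ).symm (j, rep ((n : ℕ) : ZMod m)), ?_⟩
    rw [hcm, AddEquiv.apply_symm_apply, mval_apply]
    change j * m + vl g (rep ((n : ℕ) : ZMod m)) = n
    rw [mul_comm j m]
    omega
  have hfin : ((U.card : ℕ) : ℕ∞) ≤ maxRho e m := by
    refine le_maxRho hnum ?_ (mult_mrange (i₀ := none) hm rfl hge) ?_
    · rw [edim_mrange hpos hirr, hcard']
    · refine rho_mrange_ge' he hpos hirr hcard' hnum ?_
      intro R hR
      exact genKer_mval (fun R' hR' => hgenR R' hR') R hR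
  refine le_trans ?_ hfin
  exact_mod_cast hUcard

end

end MPc709deS
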