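import Pool.Agent.Work.MP_c709de_al_sid.Cor

/-! The row `m = e + 7`. -/

namespace MPc709deS

open Finset MPc709de

/-- integer Sidon sets give Sidon sets modulo `m` -/
theorem sidon_of_nat {m : ℕ} {S : Finset ℕ} (hS : ∀ a ∈ S, 2 * a < m)
    (h : ∀ a ∈ S, ∀ b ∈ S, ∀ c ∈ S, ∀ d ∈ S, a + b = c + d → (a = c ∧ b = d) ∨ (a = d ∧ b = c)) :
    ∃ T : Finset (ZMod m), T.card = S.card ∧ IsSidonSet T := by
  classical
  refine ⟨S.image (fun a : ℕ => (a : ZMod m)), ?_, ?_⟩
  · apply Finset.card_image_of_injOn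
    intro a ha b hb hab
    have h1 : a ≡ b [MOD m] := (ZMod.natCast_eq_natCast_iff a b m).1 hab
    have h2 := hS a ha
    have h3 := hS b hb
    exact Nat.ModEq.eq_of_lt_of_lt h1 (by omega) (by omega)
  · intro a ha b hb c hc d hd habcd
    obtain ⟨a, ha', rfl⟩ := Finset.mem_image.1 ha
    obtain ⟨b, hb', rfl⟩ := Finset.mem_image.1 hb
    obtain ⟨c, hc', rfl⟩ := Finset.mem_image.1 hc
    obtain ⟨d, hd', rfl⟩ := Finset.mem_image.1 hd
    have h1 : a + b ≡ c + d [MOD m] := by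
      rw [← ZMod.natCast_eq_natCast_iff]
      push_cast
      exact habcd
    have h2 := hS a ha'
    have h3 := hS b hb'
    have h4 := hS c hc'
    have h5 := hS d hd'
    have h6 : a + b = c + d := Nat.ModEq.eq_of_lt_of_lt h1 (by omega) (by omega)
    rcases h a ha' b hb' c hc' d hd' h6 with ⟨rfl, rfl⟩ | ⟨rfl, rfl⟩
    · exact Or.inl ⟨rfl, rfl⟩
    · exact Or.inr ⟨rfl, rfl⟩

theorem row7 {e : ℕ} (he : 4 ≤ e) :
    maxRho e (e + 7) = (((e + 1).choose 2 + 4 : ℕ) : ℕ∞) ↔ 6 ≤ e := by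
  have h1 := crit_zero (e := e) (k := 3) (by norm_num) (by omega)
  have h2 : cval e 3 0 = (e + 1).choose 2 + 4 := by
    unfold cval
    have e1 : (3 + 2).choose 3 = 10 := by decide
    have e2 : (0 + 1).choose 2 = 0 := by decide
    have e3 : (3 + 1).choose 2 = 6 := by decide
    rw [e1, e2, e3]
    omega
  have h3 : e + 1 + (3 + 1).choose 2 = e + 7 := by
    have e3 : (3 + 1).choose 2 = 6 := by decide
    rw [e3]
  rw [h2, h3] at h1
  rw [h1]
  constructor
  · rintro ⟨S, hS, h⟩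
    have : NeZero (e + 7) := ⟨by omega⟩
    have h4 := h.card_bound
    rw [hS] at h4
    omega
  · intro h
    have h5 := sidon_of_nat (m := e + 7) (S := {0, 1, 4, 6}) (by
      intro a ha
      simp only [Finset.mem_insert, Finset.mem_singleton] at ha
      omega) (by decide)
    exact h5

end MPc709deS
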