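import Pool.Agent.Work.MP_c709de_al_sid.Gap

/-! Second configurations. -/

namespace MPc709deS

open Finset MPc709de

/-- Second configurations: `X` has `n` elements, the sums of at most two elements of `X` are
distinct, and there are `n + 1` further sums. -/
def Config2 (n m : ℕ) : Prop :=
  ∃ X : Finset (ZMod m), X.card = n ∧ ∃ y z w : ZMod m, y ∉ X ∧ z ∉ insert y X ∧ w ∈ X ∧
    ∃ Z : Finset (ZMod m), (Z = X ∨ Z = insert y (X.erase w)) ∧
      Set.InjOn Multiset.sum
        (low X ∪ {{y}} ∪ {u | ∃ a ∈ Z, u = {y, a}} ∪ {{z}} ∪ {{z, w}})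

section

variable {m : ℕ} [NeZero m]

/-- the family of a second configuration -/
def fam2 (X Z : Finset (ZMod m)) (y z w : ZMod m) : Finset (Multiset (ZMod m)) :=
  base X ∪ {{y}} ∪ Z.image (fun a => ({y, a} : Multiset (ZMod m))) ∪ {{z}} ∪ {{z, w}}

omit [NeZero m] in
theorem mem_fam2 {X Z : Finset (ZMod m)} {y z w : ZMod m} (u : Multiset (ZMod m)) :
    u ∈ fam2 X Z y z w ↔ (((u ∈ base X ∨ u = {y}) ∨ ∃ a ∈ Z, u = {y, a}) ∨ u = {z}) ∨
      u = {z, w} := by
  unfold fam2
  rw [Finset.mem_union, Finset.mem_union, Finset.mem_union, Finset.mem_union,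
    Finset.mem_singleton, Finset.mem_singleton, Finset.mem_singleton, Finset.mem_image]
  have : (∃ a ∈ Z, ({y, a} : Multiset (ZMod m)) = u) ↔ ∃ a ∈ Z, u = {y, a} := by
    constructor
    · rintro ⟨a, h1, h2⟩; exact ⟨a, h1, h2.symm⟩
    · rintro ⟨a, h1, h2⟩; exact ⟨a, h1, h2.symm⟩
  rw [this]

theorem fam_fam2 {X Z : Finset (ZMod m)} {y z w : ZMod m} (hw : w ∈ X) (hZ : Z ⊆ insert y X)
    (hinj : Set.InjOn Multiset.sum
        (low X ∪ {{y}} ∪ {u | ∃ a ∈ Z, u = {y, a}} ∪ {{z}} ∪ {{z, w}})) :
    Fam (fam2 X Z y z w) := by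
  have hsing : ∀ a ∈ insert y X, ({a} : Multiset (ZMod m)) ∈ fam2 X Z y z w := by
    intro a ha
    rw [mem_fam2]
    rcases Finset.mem_insert.1 ha with rfl | ha
    · left; left; left; right; rfl
    · left; left; left; left
      rw [mem_base]
      refine ⟨by simp, fun x hx => ?_⟩
      rw [Multiset.mem_singleton] at hx
      rw [hx]; exact ha
  have h0S : (0 : Multiset (ZMod m)) ∈ fam2 X Z y z w :=
    (mem_fam2 _).2 (Or.inl (Or.inl (Or.inl (Or.inl (zero_mem_base X)))))
  refine ⟨h0S, ?_, ?_⟩
  · intro u hu x hx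
    rcases (mem_fam2 u).1 hu with (((hu | rfl) | ⟨a, ha, rfl⟩) | rfl) | rfl
    · exact (mem_fam2 _).2 (Or.inl (Or.inl (Or.inl (Or.inl (base_down hu hx)))))
    · rw [Multiset.mem_singleton] at hx
      subst hx
      rw [Multiset.erase_singleton]
      exact h0S
    · simp only [Multiset.insert_eq_cons, Multiset.mem_cons, Multiset.mem_singleton] at hx
      by_cases hxy : x = y
      · subst hxy
        rw [Multiset.insert_eq_cons, Multiset.erase_cons_head]
        exact hsing a (hZ ha)
      · have hxz : x = a := hx.resolve_left hxy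
        subst hxz
        have h1 : ({y, x} : Multiset (ZMod m)).erase x = {y} := by
          rw [Multiset.pair_comm]; exact Multiset.erase_cons_head _ _
        rw [h1]
        exact hsing y (Finset.mem_insert_self _ _)
    · rw [Multiset.mem_singleton] at hx
      subst hx
      rw [Multiset.erase_singleton]
      exact h0S
    · simp only [Multiset.insert_eq_cons, Multiset.mem_cons, Multiset.mem_singleton] at hx
      by_cases hxz : x = z
      · subst hxz
        rw [Multiset.insert_eq_cons, Multiset.erase_cons_head]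
        exact hsing w (Finset.mem_insert_of_mem hw)
      · have hxw : x = w := hx.resolve_left hxz
        subst hxw
        have h1 : ({z, x} : Multiset (ZMod m)).erase x = {z} := by
          rw [Multiset.pair_comm]; exact Multiset.erase_cons_head _ _
        rw [h1, mem_fam2]
        left; right; rfl
  · have : (fam2 X Z y z w : Set (Multiset (ZMod m))) =
        low X ∪ {{y}} ∪ {u | ∃ a ∈ Z, u = {y, a}} ∪ {{z}} ∪ {{z, w}} := by
      ext u
      rw [Finset.mem_coe, mem_fam2, ← coe_base]
      rfl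
    rw [this]
    exact hinj

omit [NeZero m] in
theorem two_fam2 {X Z : Finset (ZMod m)} {y z w : ZMod m} :
    two (fam2 X Z y z w) =
      mset X 2 ∪ Z.image (fun a => ({y, a} : Multiset (ZMod m))) ∪ {{z, w}} := by
  ext u
  rw [mem_two, mem_fam2, Finset.mem_union, Finset.mem_union, mem_mset, Finset.mem_image, mem_base,
    Finset.mem_singleton]
  constructor
  · rintro ⟨(((⟨h1, h2⟩ | rfl) | ⟨a, ha, rfl⟩) | rfl) | rfl, h3⟩
    · left; left; exact ⟨by omega, h2⟩
    · simp at h3
    · left; right; exact ⟨a, ha, rfl⟩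
    · simp at h3
    · right; rfl
  · rintro ((⟨h1, h2⟩ | ⟨a, ha, rfl⟩) | rfl)
    · exact ⟨Or.inl (Or.inl (Or.inl (Or.inl ⟨by omega, h2⟩))), by omega⟩
    · exact ⟨Or.inl (Or.inl (Or.inr ⟨a, ha, rfl⟩)), by simp⟩
    · exact ⟨Or.inr rfl, by simp⟩

omit [NeZero m] in
theorem card_two_fam2 {n : ℕ} {X Z : Finset (ZMod m)} {y z w : ZMod m} (hX : X.card = n)
    (hy : y ∉ X) (hz : z ∉ insert y X) (hZ : Z ⊆ insert y X) (hZn : Z.card = n) :
    (two (fam2 X Z y z w)).card = (n + 2).choose 2 := by
  have hzy : z ≠ y := fun h => hz (h ▸ Finset.mem_insert_self _ _)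
  have hzX : z ∉ X := fun h => hz (Finset.mem_insert_of_mem h)
  have hdis1 : Disjoint (mset X 2) (Z.image (fun a => ({y, a} : Multiset (ZMod m)))) := by
    rw [Finset.disjoint_left]
    intro u hu hu'
    rw [Finset.mem_image] at hu'
    obtain ⟨a, -, rfl⟩ := hu'
    exact hy ((mem_mset.1 hu).2 y (by simp))
  rw [two_fam2, Finset.card_union_of_disjoint, Finset.card_union_of_disjoint hdis1, card_mset2, hX,
    Finset.card_image_of_injective, hZn, Finset.card_singleton]
  · have e1 := choose2 n
    have e2 := choose2 (n + 1)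
    have e3 : n + 1 + 1 = n + 2 := rfl
    rw [e3] at e2
    nlinarith
  · intro a a' h; exact pair_inj h
  · rw [Finset.disjoint_singleton_right, Finset.mem_union, Finset.mem_image]
    rintro (h | ⟨a, ha, h⟩)
    · exact hzX ((mem_mset.1 h).2 z (by simp))
    · have h5 : z ∈ ({y, a} : Multiset (ZMod m)) := by rw [h]; simp
      simp only [Multiset.insert_eq_cons, Multiset.mem_cons, Multiset.mem_singleton] at h5
      rcases h5 with h5 | h5
      · exact hzy h5
      · exact hz (h5 ▸ hZ ha)

theorem card_cc_fam2 {n : ℕ} {X Z : Finset (ZMod m)} {y z w : ZMod m} (hX : X.card = n)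
    (hy : y ∉ X) (hz : z ∉ insert y X) (hw : w ∈ X) (hZ : Z ⊆ insert y X) (hZn : Z.card = n) :
    (n + 2).choose 3 + (n + 1).choose 2 + 1 ≤ (cc (two (fam2 X Z y z w))).card := by
  have hzy : z ≠ y := fun h => hz (h ▸ Finset.mem_insert_self _ _)
  have hzX : z ∉ X := fun h => hz (Finset.mem_insert_of_mem h)
  have hc1 : (mset X 3 ∪ (mset Z 2).image (fun v => y ::ₘ v) ∪ {{z, w, w}}).card =
      (n + 2).choose 3 + (n + 1).choose 2 + 1 := by
    rw [Finset.card_union_of_disjoint, Finset.card_union_of_disjoint, card_mset3, hX,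
      Finset.card_image_of_injective, card_mset2, hZn, Finset.card_singleton]
    · intro a a' h; exact (Multiset.cons_inj_right y).1 h
    · rw [Finset.disjoint_left]
      intro u hu hu'
      rw [Finset.mem_image] at hu'
      obtain ⟨v, -, rfl⟩ := hu'
      exact hy ((mem_mset.1 hu).2 y (by simp))
    · rw [Finset.disjoint_singleton_right, Finset.mem_union, Finset.mem_image]
      rintro (h | ⟨v, hv, h⟩)
      · exact hzX ((mem_mset.1 h).2 z (by simp))
      · have h5 : z ∈ y ::ₘ v := by rw [h]; simp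
        rw [Multiset.mem_cons] at h5
        rcases h5 with h5 | h5
        · exact hzy h5
        · exact hz (hZ ((mem_mset.1 hv).2 z h5))
  rw [← hc1]
  apply Finset.card_le_card
  intro u hu
  rw [mem_cc, two_fam2]
  rw [Finset.mem_union, Finset.mem_union, Finset.mem_singleton] at hu
  rcases hu with (hu | hu) | rfl
  · refine ⟨?_, fun x hx => ?_⟩
    · rintro rfl
      rw [mem_mset] at hu
      simp at hu
    · rw [Finset.mem_union, Finset.mem_union]; left; left; exact mset3_erase hu hx
  · rw [Finset.mem_image] at hu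
    obtain ⟨v, hv, rfl⟩ := hu
    rw [mem_mset] at hv
    refine ⟨Multiset.cons_ne_zero, fun x hx => ?_⟩
    rw [Finset.mem_union, Finset.mem_union]
    left
    by_cases hxy : x = y
    · subst hxy
      rw [Multiset.erase_cons_head]
      by_cases hxw : x ∈ v
      · right
        obtain ⟨a, rfl⟩ := card_two_of_mem hv.1 hxw
        rw [Finset.mem_image]
        exact ⟨a, hv.2 a (by simp), rfl⟩
      · left
        rw [mem_mset]
        refine ⟨hv.1, fun a ha => ?_⟩
        rcases Finset.mem_insert.1 (hZ (hv.2 a ha)) with h | h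
        · subst h; exact absurd ha hxw
        · exact h
    · right
      rw [Multiset.mem_cons] at hx
      have hxw : x ∈ v := hx.resolve_left hxy
      obtain ⟨a, rfl⟩ := card_two_of_mem hv.1 hxw
      rw [Multiset.erase_cons_tail _ (by simpa using Ne.symm hxy), Multiset.insert_eq_cons,
        Multiset.erase_cons_head, Finset.mem_image]
      exact ⟨a, hv.2 a (by simp), rfl⟩
  · refine ⟨by simp, fun x hx => ?_⟩
    rw [Finset.mem_union, Finset.mem_union, Finset.mem_singleton]
    simp only [Multiset.insert_eq_cons, Multiset.mem_cons, Multiset.mem_singleton, or_self] at hx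
    by_cases hxz : x = z
    · subst hxz
      left; left
      rw [Multiset.insert_eq_cons, Multiset.erase_cons_head, mem_mset]
      refine ⟨by simp, fun a ha => ?_⟩
      simp only [Multiset.insert_eq_cons, Multiset.mem_cons, Multiset.mem_singleton,
        or_self] at ha
      rw [ha]; exact hw
    · have hxw : x = w := hx.resolve_left hxz
      subst hxw
      right
      rw [Multiset.insert_eq_cons, Multiset.erase_cons_tail _ (by simpa using Ne.symm hxz),
        Multiset.insert_eq_cons, Multiset.erase_cons_head]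
      rfl

omit [NeZero m] in
/-- classification of the pairs outside the family, ordered version -/
theorem class_pair {X Z : Finset (ZMod m)} {y z w : ZMod m} {A b c d : ℕ} {W : ZMod m → ℕ}
    (hWX : ∀ r ∈ X, W r = A) (hWy : W y = b) (hWz : W z = c)
    (hWo : ∀ r, r ∉ X → r ≠ y → r ≠ z → W r = d) (hWA : ∀ r, A ≤ W r)
    (hbc : b ≤ c) (hyxl : ∀ x ∈ X, x ∉ Z → x = w)
    {p q : ZMod m} (hpq : ({p, q} : Multiset (ZMod m)) ∉ fam2 X Z y z w) :
    (∃ q', ({p, q} : Multiset (ZMod m)) = {z, q'} ∧ q' ≠ w ∧ W p + W q = c + A) ∨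
    (({p, q} : Multiset (ZMod m)) = {y, w} ∧ w ∉ Z ∧ W p + W q = b + A) ∨
    (({p, q} : Multiset (ZMod m)) = {y, y} ∧ y ∉ Z ∧ W p + W q = 2 * b) ∨
    b + c ≤ W p + W q ∨ A + d ≤ W p + W q := by
  rw [mem_fam2] at hpq
  push Not at hpq
  obtain ⟨⟨⟨⟨hb, -⟩, hyZ⟩, -⟩, hzw⟩ := hpq
  by_cases hpO : p ∉ X ∧ p ≠ y ∧ p ≠ z
  · right; right; right; right
    have h5 := hWo p hpO.1 hpO.2.1 hpO.2.2
    have h6 := hWA q
    omega
  by_cases hqO : q ∉ X ∧ q ≠ y ∧ q ≠ z
  · right; right; right; right
    have h5 := hWo q hqO.1 hqO.2.1 hqO.2.2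
    have h6 := hWA p
    omega
  have hpc : p ∈ X ∨ p = y ∨ p = z := by
    by_contra h
    push Not at h
    exact hpO h
  have hqc : q ∈ X ∨ q = y ∨ q = z := by
    by_contra h
    push Not at h
    exact hqO h
  clear hpO hqO
  rcases hpc with hp | rfl | rfl
  · rcases hqc with hq | rfl | rfl
    · exfalso
      apply hb
      rw [mem_base]
      refine ⟨by simp, ?_⟩
      intro x hx
      simp only [Multiset.insert_eq_cons, Multiset.mem_cons, Multiset.mem_singleton] at hx
      rcases hx with rfl | rfl <;> assumption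
    · have hpZ : p ∉ Z := fun hpZ => hyZ p hpZ (Multiset.pair_comm _ _)
      have hpw : p = w := hyxl p hp hpZ
      subst hpw
      right; left
      exact ⟨Multiset.pair_comm _ _, hpZ, by rw [hWX p hp, hWy, add_comm]⟩
    · left
      refine ⟨p, Multiset.pair_comm _ _, ?_, by rw [hWX p hp, hWz, add_comm]⟩
      rintro rfl
      exact hzw (Multiset.pair_comm _ _)
  · rcases hqc with hq | rfl | rfl
    · have hqZ : q ∉ Z := fun hqZ => hyZ q hqZ rfl
      have hqw : q = w := hyxl q hq hqZ
      subst hqw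
      right; left
      exact ⟨rfl, hqZ, by rw [hWX q hq, hWy]⟩
    · right; right; left
      exact ⟨rfl, fun hyZ' => hyZ _ hyZ' rfl, by rw [hWy, two_mul]⟩
    · right; right; right; left
      rw [hWy, hWz]
  · rcases hqc with hq | rfl | rfl
    · left
      refine ⟨q, rfl, ?_, by rw [hWX q hq, hWz]⟩
      rintro rfl
      exact hzw rfl
    · right; right; right; left
      rw [hWy, hWz, add_comm]
    · right; right; right; left
      rw [hWz]
      exact Nat.add_le_add_right hbc _

/-- weights of a family of type two -/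
theorem lower_second_aux {e n A b c d : ℕ} (he : 2 ≤ e) {X : Finset (ZMod m)} (hX : X.card = n)
    {y z w : ZMod m} (hy : y ∉ X) (hz : z ∉ insert y X) (hw : w ∈ X) {Z : Finset (ZMod m)}
    (hZ : Z ⊆ insert y X) (hZn : Z.card = n)
    (hinj : Set.InjOn Multiset.sum
        (low X ∪ {{y}} ∪ {u | ∃ a ∈ Z, u = {y, a}} ∪ {{z}} ∪ {{z, w}}))
    (hm : m = e + 1 + (n + 2).choose 2) (hA1 : 1 ≤ A) (hAb : A ≤ b) (hbc : b ≤ c) (hcd : c ≤ d)
    (hyxl : ∀ x ∈ X, x ∉ Z → x = w)
    -- small elements
    (k1 : 2 * A + 2 ≤ b + A) (k2 : d + 1 ≤ b + A)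
    (k3 : b + A + 2 ≤ c + A) (k4 : c + A + 2 ≤ b + c) (k5 : c + A + 2 ≤ A + d)
    (k6 : c + A + 2 ≤ 3 * A) (hyy : y ∉ Z → c + A + 2 ≤ 2 * b)
    (hyy' : y ∈ Z → 2 * b + 2 ≤ c + A) :
    (((e + 1).choose 2 + ((n + 2).choose 3 + (n + 1).choose 2 + 1) - (n + 2).choose 2 : ℕ) : ℕ∞)
      ≤ maxRho e m := by
  classical
  have hF := fam_fam2 (m := m) hw hZ hinj
  have h2 := card_two_fam2 (w := w) hX hy hz hZ hZn
  have h3 := card_cc_fam2 (m := m) hX hy hz hw hZ hZn
  have hzy : z ≠ y := fun h => hz (h ▸ Finset.mem_insert_self _ _)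
  have hzX : z ∉ X := fun h => hz (Finset.mem_insert_of_mem h)
  obtain ⟨W, hWX, hWy, hWz, hWo⟩ : ∃ W : ZMod m → ℕ, (∀ r ∈ X, W r = A) ∧ W y = b ∧ W z = c ∧
      ∀ r, r ∉ X → r ≠ y → r ≠ z → W r = d := by
    refine ⟨fun r => if r ∈ X then A else if r = y then b else if r = z then c else d,
      ?_, ?_, ?_, ?_⟩
    · intro r hr; simp only [if_pos hr]
    · simp only [if_neg hy, if_pos]
    · simp only [if_neg hzX, if_neg hzy, if_pos]
    · intro r hr hr' hr''; simp only [if_neg hr, if_neg hr', if_neg hr'']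
  have hWr : ∀ r : ZMod m, A ≤ W r ∧ W r ≤ d := by
    intro r
    by_cases h5 : r ∈ X
    · rw [hWX r h5]; exact ⟨le_rfl, by omega⟩
    by_cases h6 : r = y
    · rw [h6, hWy]; exact ⟨hAb, by omega⟩
    by_cases h7 : r = z
    · rw [h7, hWz]; exact ⟨by omega, hcd⟩
    · rw [hWo r h5 h6 h7]; exact ⟨by omega, le_rfl⟩
  have hpair : ∀ p q : ZMod m, (({p, q} : Multiset (ZMod m)).map W).sum = W p + W q := by
    intro p q
    simp only [Multiset.insert_eq_cons, Multiset.map_cons, Multiset.map_singleton,
      Multiset.sum_cons, Multiset.sum_singleton]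
  have hcp : ∀ p q : ZMod m, Multiset.card ({p, q} : Multiset (ZMod m)) = 2 := by
    intro p q; simp
  have hsum2 : ∀ p q : ZMod m, ({p, q} : Multiset (ZMod m)).sum = p + q := by
    intro p q; simp
  -- classification of `u`
  have hU : ∀ u : Multiset (ZMod m), (u ∈ fam2 X Z y z w ∨ Multiset.card u = 1) →
      (u.map W).sum + Multiset.card u ≤ b + A ∨
      (∃ a ∈ X, a ∈ Z ∧ u = {y, a} ∧ (u.map W).sum + Multiset.card u = b + A + 2) ∨
      (y ∈ Z ∧ u = {y, y} ∧ (u.map W).sum + Multiset.card u = 2 * b + 2) ∨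
      (u = {z, w} ∧ (u.map W).sum + Multiset.card u = c + A + 2) := by
    intro u hu
    have hone : Multiset.card u = 1 → (u.map W).sum + Multiset.card u ≤ b + A := by
      intro h
      obtain ⟨x, rfl⟩ := Multiset.card_eq_one.1 h
      simp only [Multiset.map_singleton, Multiset.sum_singleton, Multiset.card_singleton]
      have := (hWr x).2
      omega
    rcases hu with hu | hu
    · rcases (mem_fam2 u).1 hu with (((hu | rfl) | ⟨a, ha, rfl⟩) | rfl) | rfl
      · left
        rw [mem_base] at hu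
        have h4 : u.map W = u.map (fun _ => A) := by
          apply Multiset.map_congr rfl
          intro x hx
          exact hWX x (hu.2 x hx)
        rw [h4, Multiset.map_const', Multiset.sum_replicate, smul_eq_mul]
        have := Nat.mul_le_mul_right A hu.1
        have := hu.1
        omega
      · exact Or.inl (hone (by simp))
      · right
        rcases Finset.mem_insert.1 (hZ ha) with h | h
        · right; left; subst h; exact ⟨ha, rfl, by rw [hpair, hcp, hWy]; omega⟩
        · left; exact ⟨a, h, ha, rfl, by rw [hpair, hcp, hWy, hWX a h]⟩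
      · exact Or.inl (hone (by simp))
      · exact Or.inr (Or.inr (Or.inr ⟨rfl, by rw [hpair, hcp, hWz, hWX w hw]⟩))
    · exact Or.inl (hone hu)
  have hcond : ∀ u v : Multiset (ZMod m), (u ∈ fam2 X Z y z w ∨ Multiset.card u = 1) →
      v ∉ fam2 X Z y z w → 2 ≤ Multiset.card v → u.sum = v.sum →
      (u.map W).sum + Multiset.card u ≤ (v.map W).sum := by
    intro u v hu hv hv2 huv
    have hu' := hU u hu
    clear hu
    rcases Nat.lt_or_ge (Multiset.card v) 3 with h | h
    · obtain ⟨p, q, rfl⟩ := Multiset.card_eq_two.1 (by omega : Multiset.card v = 2)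
      have hv' := class_pair hWX hWy hWz hWo (fun r => (hWr r).1) hbc hyxl hv
      rw [hpair]
      rcases hv' with ⟨q', he', hq', hvW⟩ | ⟨he', hwZ, hvW⟩ | ⟨he', hyZ, hvW⟩ | hvW | hvW
      · rw [he'] at huv
        rw [hvW]
        rcases hu' with h' | ⟨a, ha, haZ, rfl, h'⟩ | ⟨hyZ, rfl, h'⟩ | ⟨rfl, h'⟩
        · omega
        · omega
        · have := hyy' hyZ
          omega
        · exfalso
          rw [hsum2, hsum2] at huv
          exact hq' (add_left_cancel huv).symm
      · rw [he'] at huv
        rw [hvW]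
        rcases hu' with h' | ⟨a, ha, haZ, rfl, h'⟩ | ⟨hyZ, rfl, h'⟩ | ⟨rfl, h'⟩
        · omega
        · exfalso
          rw [hsum2, hsum2] at huv
          exact hwZ ((add_left_cancel huv) ▸ haZ)
        · exfalso
          rw [hsum2, hsum2] at huv
          exact hy ((add_left_cancel huv).symm ▸ hw)
        · exfalso
          rw [hsum2, hsum2] at huv
          exact hzy (add_right_cancel huv)
      · rw [he'] at huv
        rw [hvW]
        have h8 := hyy hyZ
        rcases hu' with h' | ⟨a, ha, haZ, rfl, h'⟩ | ⟨hyZ', rfl, h'⟩ | ⟨rfl, h'⟩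
        · omega
        · exfalso
          rw [hsum2, hsum2] at huv
          exact hy ((add_left_cancel huv) ▸ ha)
        · exact absurd hyZ' hyZ
        · omega
      · rcases hu' with h' | ⟨a, ha, haZ, rfl, h'⟩ | ⟨hyZ, rfl, h'⟩ | ⟨rfl, h'⟩
        · omega
        · omega
        · have := hyy' hyZ
          omega
        · omega
      · rcases hu' with h' | ⟨a, ha, haZ, rfl, h'⟩ | ⟨hyZ, rfl, h'⟩ | ⟨rfl, h'⟩
        · omega
        · omega
        · have := hyy' hyZ
          omega
        · omega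
    · have h5 := weight_ge (fun r => (hWr r).1) v
      have h6 : A * 3 ≤ A * Multiset.card v := Nat.mul_le_mul_left _ h
      rcases hu' with h' | ⟨a, ha, haZ, rfl, h'⟩ | ⟨hyZ, rfl, h'⟩ | ⟨rfl, h'⟩
      · omega
      · omega
      · have := hyy' hyZ
        omega
      · omega
  have hmain := lower_of_fam he hF (by rw [h2]; exact hm) W
    (by intro r; have := (hWr r).1; omega) hcond
  refine le_trans ?_ hmain
  rw [h2]
  have : (e + 1).choose 2 + ((n + 2).choose 3 + (n + 1).choose 2 + 1) - (n + 2).choose 2 ≤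
      (e + 1).choose 2 + (cc (two (fam2 X Z y z w))).card - (n + 2).choose 2 := by omega
  exact_mod_cast this

theorem lower_second {e n : ℕ} (he : 2 ≤ e) (h : Config2 n m)
    (hm : m = e + 1 + (n + 2).choose 2) :
    (((e + 1).choose 2 + ((n + 2).choose 3 + (n + 1).choose 2 + 1) - (n + 2).choose 2 : ℕ) : ℕ∞)
      ≤ maxRho e m := by
  obtain ⟨X, hX, y, z, w, hy, hz, hw, Z, hZ | hZ, hinj⟩ := h
  · subst hZ
    exact lower_second_aux (A := 10) (b := 14) (c := 16) (d := 18) he hX hy hz hw
      (Finset.subset_insert _ _) hX hinj hm (by norm_num) (by norm_num) (by norm_num)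
      (by norm_num) (fun x hx hx' => absurd hx hx') (by norm_num) (by norm_num) (by norm_num)
      (by norm_num) (by norm_num) (by norm_num) (fun _ => by norm_num)
      (fun h => absurd h hy)
  · subst hZ
    have hyZ : y ∈ insert y (X.erase w) := Finset.mem_insert_self _ _
    refine lower_second_aux (A := 16) (b := 20) (c := 26) (d := 28) he hX hy hz hw
      (Finset.insert_subset_insert _ (Finset.erase_subset _ _)) ?_ hinj hm (by norm_num)
      (by norm_num) (by norm_num) (by norm_num) ?_ (by norm_num) (by norm_num) (by norm_num)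
      (by norm_num) (by norm_num) (by norm_num) (fun h => absurd hyZ h) (fun _ => by norm_num)
    · rw [Finset.card_insert_of_notMem (fun h => hy (Finset.mem_of_mem_erase h)),
        Finset.card_erase_of_mem hw, hX]
      have : 0 < X.card := Finset.card_pos.2 ⟨w, hw⟩
      omega
    · intro x hx hx'
      by_contra hne
      exact hx' (Finset.mem_insert_of_mem (Finset.mem_erase.2 ⟨hne, hx⟩))

end

end MPc709deS
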