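import Mathlib

/-! Singer sets: `q` residues modulo `1 + q + ⋯ + q^h` such that all sums of at most `h` of them are
distinct. -/

namespace MPc709deS

open Polynomial

section

variable {K E : Type*} [Field K] [Field E] [Algebra K E]

/-- elements fixed by the Frobenius of `K` lie in `K` -/
theorem mem_range_of_pow [Fintype K] {μ : E} (h : μ ^ Fintype.card K = μ) : ∃ c : K, algebraMap K E c = μ := by
  classical
  have hq : 1 < Fintype.card K := Fintype.one_lt_card
  set P : E[X] := X ^ Fintype.card K - X with hP
  have hP0 : P ≠ 0 := FiniteField.X_pow_card_sub_X_ne_zero E hq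
  have hdeg : P.natDegree = Fintype.card K := FiniteField.X_pow_card_sub_X_natDegree_eq E hq
  have hsub : (Finset.univ.image (algebraMap K E)) ⊆ P.roots.toFinset := by
    intro x hx
    rw [Finset.mem_image] at hx
    obtain ⟨c, -, rfl⟩ := hx
    rw [Multiset.mem_toFinset, mem_roots hP0, IsRoot.def, hP, eval_sub, eval_pow, eval_X,
      ← map_pow, FiniteField.pow_card, sub_self]
  have hcard : P.roots.toFinset.card ≤ (Finset.univ.image (algebraMap K E)).card := by
    rw [Finset.card_image_of_injective _ (algebraMap K E).injective, Finset.card_univ]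
    calc P.roots.toFinset.card ≤ P.roots.card := Multiset.toFinset_card_le _
      _ ≤ P.natDegree := P.card_roots'
      _ = _ := hdeg
  have heq := Finset.eq_of_subset_of_card_le hsub hcard
  have hμ : μ ∈ P.roots.toFinset := by
    rw [Multiset.mem_toFinset, mem_roots hP0, IsRoot.def, hP, eval_sub, eval_pow, eval_X, h,
      sub_self]
  rw [← heq, Finset.mem_image] at hμ
  obtain ⟨c, -, hc⟩ := hμ
  exact ⟨c, hc⟩

/-- the product of `θ - c` -/
theorem aeval_prod (θ : E) (s : Multiset K) :
    aeval θ ((s.map (fun c => X - C c)).prod) = (s.map (fun c => θ - algebraMap K E c)).prod := by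
  rw [map_multiset_prod, Multiset.map_map]
  congr 1
  apply Multiset.map_congr rfl
  intro c _
  simp

theorem eq_of_prod_eq {θ : E} {n : ℕ} (hθ : n < (minpoly K θ).natDegree) {s t : Multiset K}
    (hs : Multiset.card s ≤ n) (ht : Multiset.card t ≤ n) {c : K}
    (h : (s.map (fun c => θ - algebraMap K E c)).prod =
      algebraMap K E c * (t.map (fun c => θ - algebraMap K E c)).prod) : s = t := by
  set P := (s.map (fun c => X - C c)).prod with hP
  set Q := (t.map (fun c => X - C c)).prod with hQ
  have hPm : P.Monic := monic_multiset_prod_of_monic _ _ (fun c _ => monic_X_sub_C c)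
  have hQm : Q.Monic := monic_multiset_prod_of_monic _ _ (fun c _ => monic_X_sub_C c)
  have hPd : P.natDegree = Multiset.card s := natDegree_multiset_prod_X_sub_C_eq_card s
  have hQd : Q.natDegree = Multiset.card t := natDegree_multiset_prod_X_sub_C_eq_card t
  have h0 : aeval θ (P - C c * Q) = 0 := by
    rw [map_sub, map_mul, aeval_C, aeval_prod, aeval_prod, h, sub_self]
  have hz : P - C c * Q = 0 := by
    by_contra hne
    have h1 := natDegree_le_natDegree (minpoly.degree_le_of_ne_zero K θ hne h0)
    have h2 : (P - C c * Q).natDegree ≤ n := by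
      refine (natDegree_sub_le _ _).trans (max_le (by omega) ?_)
      exact (natDegree_C_mul_le c Q).trans (by omega)
    omega
  have hPQ : P = C c * Q := sub_eq_zero.1 hz
  have hc : c = 1 := by
    have h1 := congrArg leadingCoeff hPQ
    rw [hPm.leadingCoeff, leadingCoeff_mul, leadingCoeff_C, hQm.leadingCoeff, mul_one] at h1
    exact h1.symm
  rw [hc, C_1, one_mul] at hPQ
  have h2 := congrArg roots hPQ
  rwa [hP, hQ, roots_multiset_prod_X_sub_C, roots_multiset_prod_X_sub_C] at h2

end

/-- sum of powers -/
def geo (q h : ℕ) : ℕ := ∑ i ∈ Finset.range (h + 1), q ^ i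

theorem geo_mul (q h : ℕ) (hq : 1 ≤ q) : geo q h * (q - 1) = q ^ (h + 1) - 1 := by
  obtain ⟨r, rfl⟩ := Nat.exists_eq_add_of_le' hq
  rw [Nat.add_sub_cancel]
  unfold geo
  have h2 : (∑ i ∈ Finset.range (h + 1), (r + 1) ^ i) * r + 1 = (r + 1) ^ (h + 1) := by
    induction h with
    | zero => simp
    | succ n ih =>
      rw [Finset.sum_range_succ, add_mul, pow_succ _ (n + 1)]
      nlinarith
  omega

/-- The theorem of Singer and Bose-Chowla. -/
theorem singer {q h : ℕ} (hq : IsPrimePow q) (hh : 1 ≤ h) :
    ∃ X : Finset (ZMod (geo q h)), X.card = q ∧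
      Set.InjOn Multiset.sum {u : Multiset (ZMod (geo q h)) |
        Multiset.card u ≤ h ∧ ∀ x ∈ u, x ∈ X} := by
  classical
  obtain ⟨p, n, hp, hn, rfl⟩ := hq
  have hp' : p.Prime := hp.nat_prime
  have : Fact p.Prime := ⟨hp'⟩
  set q := p ^ n with hqdef
  let K := GaloisField p n
  have : Finite K := inferInstance
  have : Fintype K := Fintype.ofFinite K
  have hK : Fintype.card K = q := by
    rw [← Nat.card_eq_fintype_card]; exact GaloisField.card p n hn.ne'
  have : NeZero (h + 1) := ⟨by omega⟩
  let E := FiniteField.Extension K p (h + 1)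
  have : Fintype E := Fintype.ofFinite E
  have hE : Fintype.card E = q ^ (h + 1) := by
    rw [← Nat.card_eq_fintype_card]
    have h1 := FiniteField.natCard_extension K p (h + 1)
    rw [h1, Nat.card_eq_fintype_card, hK]
  have hfin : Module.finrank K E = h + 1 := FiniteField.finrank_extension K p (h + 1)
  obtain ⟨θ, hθ⟩ := Field.exists_primitive_element K E
  have hdeg : (minpoly K θ).natDegree = h + 1 := by
    have h1 := (Field.primitive_element_iff_minpoly_natDegree_eq K θ).1 hθ
    rw [h1, hfin]
  have hθK : ∀ c : K, θ - algebraMap K E c ≠ 0 := by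
    intro c hc
    have h1 : θ = algebraMap K E c := sub_eq_zero.1 hc
    rw [h1, minpoly.eq_X_sub_C, natDegree_X_sub_C] at hdeg
    omega
  let a : K → Eˣ := fun c => Units.mk0 (θ - algebraMap K E c) (hθK c)
  obtain ⟨g, hg⟩ := IsCyclic.exists_generator (α := Eˣ)
  have hlog : ∀ x : Eˣ, ∃ j : ℕ, g ^ j = x := by
    intro x
    have h1 := hg x
    rw [← mem_powers_iff_mem_zpowers] at h1
    exact h1
  choose ℓ hℓ using hlog
  set M := geo q h with hM
  have hq1 : 1 ≤ q := Nat.one_le_iff_ne_zero.2 (pow_ne_zero _ hp'.ne_zero)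
  have hMq : M * (q - 1) = q ^ (h + 1) - 1 := geo_mul q h hq1
  have hcardU : Fintype.card Eˣ = M * (q - 1) := by
    rw [Fintype.card_units, hE, hMq]
  have hpow : ∀ x : Eˣ, x ^ (M * (q - 1)) = 1 := by
    intro x
    rw [← hcardU]; exact pow_card_eq_one
  let L : K → ZMod M := fun c => ((ℓ (a c) : ℕ) : ZMod M)
  have hprod : ∀ s : Multiset K, g ^ ((s.map (fun c => ℓ (a c))).sum) = (s.map a).prod := by
    intro s
    induction s using Multiset.induction_on with
    | empty => simp
    | cons c s ih =>
      rw [Multiset.map_cons, Multiset.sum_cons, pow_add, ih, hℓ, Multiset.map_cons,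
        Multiset.prod_cons]
  have hcoe : ∀ s : Multiset K, (((s.map a).prod : Eˣ) : E) =
      (s.map (fun c => θ - algebraMap K E c)).prod := by
    intro s
    induction s using Multiset.induction_on with
    | empty => simp
    | cons c s ih =>
      rw [Multiset.map_cons, Multiset.prod_cons, Units.val_mul, ih, Multiset.map_cons,
        Multiset.prod_cons]
      rfl
  have hcast : ∀ s : Multiset K, (s.map L).sum = (((s.map (fun c => ℓ (a c))).sum : ℕ) : ZMod M) := by
    intro s
    induction s using Multiset.induction_on with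
    | empty => simp only [Multiset.map_zero, Multiset.sum_zero, Nat.cast_zero]
    | cons c s ih =>
      simp only [Multiset.map_cons, Multiset.sum_cons, Nat.cast_add, ih, L]
  have key : ∀ s t : Multiset K, Multiset.card s ≤ h → Multiset.card t ≤ h →
      (s.map L).sum = (t.map L).sum → s = t := by
    intro s t hs ht hst
    rw [hcast, hcast, ZMod.natCast_eq_natCast_iff] at hst
    -- quotient of the products
    have hlam : ((s.map a).prod * ((t.map a).prod)⁻¹) ^ (q - 1) = 1 := by
      rw [← hprod, ← hprod, mul_pow, inv_pow, mul_inv_eq_one, ← pow_mul, ← pow_mul]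
      rw [pow_eq_pow_iff_modEq]
      have hord : orderOf g = M * (q - 1) := by
        rw [orderOf_eq_card_of_forall_mem_zpowers hg, Nat.card_eq_fintype_card, hcardU]
      rw [hord]
      exact Nat.ModEq.mul_right' _ hst
    set lam : Eˣ := (s.map a).prod * ((t.map a).prod)⁻¹ with hlamdef
    have hlam' : ((lam : Eˣ) : E) ^ Fintype.card K = (lam : E) := by
      rw [hK]
      have h1 : q = (q - 1) + 1 := by omega
      rw [h1, pow_succ, ← Units.val_pow_eq_pow_val, hlam, Units.val_one, one_mul]
    obtain ⟨c, hc⟩ := mem_range_of_pow hlam'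
    apply eq_of_prod_eq (n := h) (θ := θ) (c := c) (by omega) hs ht
    rw [← hcoe, ← hcoe, hc, ← Units.val_mul, hlamdef, inv_mul_cancel_right]
  have hLinj : Function.Injective L := by
    intro c d hcd
    have := key {c} {d} (by simpa using hh) (by simpa using hh) (by simpa using hcd)
    exact Multiset.singleton_inj.1 this
  refine ⟨Finset.univ.image L, ?_, ?_⟩
  · rw [Finset.card_image_of_injective _ hLinj, Finset.card_univ, hK]
  · have hlift : ∀ u : Multiset (ZMod M), (∀ x ∈ u, x ∈ Finset.univ.image L) →
        ∃ s : Multiset K, s.map L = u := by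
      intro u
      induction u using Multiset.induction_on with
      | empty => intro _; exact ⟨0, rfl⟩
      | cons x u ih =>
        intro hu
        obtain ⟨s, hs⟩ := ih (fun y hy => hu y (Multiset.mem_cons_of_mem hy))
        obtain ⟨c, -, hc⟩ := Finset.mem_image.1 (hu x (Multiset.mem_cons_self _ _))
        exact ⟨c ::ₘ s, by rw [Multiset.map_cons, hs, hc]⟩
    rintro u ⟨hu1, hu2⟩ v ⟨hv1, hv2⟩ huv
    obtain ⟨s, rfl⟩ := hlift u hu2
    obtain ⟨t, rfl⟩ := hlift v hv2
    rw [Multiset.card_map] at hu1 hv1
    rw [key s t hu1 hv1 huv]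

end MPc709deS
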