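import Pool.Agent.Work.MP_c709de_al_sid.Crit
import Pool.Agent.Work.MP_c709de_al_sid.Singer

/-! Sidon sets and configurations. -/

namespace MPc709deS

open Finset MPc709de

/-- Sidon sets: the sums of two elements are pairwise distinct. -/
def IsSidonSet {G : Type*} [AddCommGroup G] (S : Finset G) : Prop :=
  ∀ a ∈ S, ∀ b ∈ S, ∀ c ∈ S, ∀ d ∈ S, a + b = c + d → (a = c ∧ b = d) ∨ (a = d ∧ b = c)

theorem IsSidonSet.subset {G : Type*} [AddCommGroup G] {S T : Finset G} (h : IsSidonSet T)
    (hST : S ⊆ T) : IsSidonSet S :=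
  fun a ha b hb c hc d hd => h a (hST ha) b (hST hb) c (hST hc) d (hST hd)

theorem IsSidonSet.translate {G : Type*} [AddCommGroup G] [DecidableEq G] {S : Finset G}
    (h : IsSidonSet S) (x : G) : IsSidonSet (S.image (fun a => a - x)) := by
  intro a ha b hb c hc d hd habcd
  obtain ⟨a, ha', rfl⟩ := Finset.mem_image.1 ha
  obtain ⟨b, hb', rfl⟩ := Finset.mem_image.1 hb
  obtain ⟨c, hc', rfl⟩ := Finset.mem_image.1 hc
  obtain ⟨d, hd', rfl⟩ := Finset.mem_image.1 hd
  have h1 : a + b = c + d := by
    have h2 : a - x + (b - x) = (a + b) - (x + x) := by abel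
    have h3 : c - x + (d - x) = (c + d) - (x + x) := by abel
    rw [h2, h3] at habcd
    exact sub_left_injective habcd
  rcases h a ha' b hb' c hc' d hd' h1 with ⟨h2, h3⟩ | ⟨h2, h3⟩
  · left; rw [h2, h3]; exact ⟨rfl, rfl⟩
  · right; rw [h2, h3]; exact ⟨rfl, rfl⟩

theorem pair_eq {α : Type*} {a b c d : α} (h : ({a, b} : Multiset α) = {c, d}) :
    (a = c ∧ b = d) ∨ (a = d ∧ b = c) := by
  have ha : a ∈ ({c, d} : Multiset α) := by rw [← h]; simp
  simp only [Multiset.insert_eq_cons, Multiset.mem_cons, Multiset.mem_singleton] at ha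
  rcases ha with rfl | rfl
  · exact Or.inl ⟨rfl, pair_inj h⟩
  · refine Or.inr ⟨rfl, pair_inj (x := a) ?_⟩
    rw [h, Multiset.pair_comm]

section

variable {m : ℕ}

theorem filter_pad {X : Finset (ZMod m)} (h0 : (0 : ZMod m) ∉ X) {u : Multiset (ZMod m)}
    (hu : u ∈ low X) (j : ℕ) : (u + Multiset.replicate j 0).filter (fun x => x ≠ 0) = u := by
  rw [Multiset.filter_add]
  have h1 : (Multiset.replicate j (0 : ZMod m)).filter (fun x => x ≠ 0) = 0 := by
    rw [Multiset.filter_eq_nil]
    intro x hx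
    rw [Multiset.eq_of_mem_replicate hx]
    simp
  rw [h1, add_zero, Multiset.filter_eq_self]
  intro x hx hx0
  rw [hx0] at hx
  exact h0 (hu.2 _ hx)

theorem injOn_low_iff (X : Finset (ZMod m)) :
    Set.InjOn Multiset.sum (low X) ↔ (0 : ZMod m) ∉ X ∧ IsSidonSet (insert 0 X) := by
  constructor
  · intro h
    have h0 : (0 : ZMod m) ∉ X := by
      intro h0
      have h1 : ({0} : Multiset (ZMod m)) ∈ low X := by
        refine ⟨by simp, ?_⟩
        intro x hx
        rw [Multiset.mem_singleton] at hx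
        rw [hx]; exact h0
      have h2 : (0 : Multiset (ZMod m)) ∈ low X := ⟨by simp, by simp⟩
      have h3 : ({0} : Multiset (ZMod m)) = 0 := h h1 h2 (by simp)
      exact Multiset.singleton_ne_zero _ h3
    refine ⟨h0, ?_⟩
    intro a ha b hb c hc d hd habcd
    apply pair_eq
    have key : ∀ a b : ZMod m, a ∈ insert (0 : ZMod m) X → b ∈ insert (0 : ZMod m) X →
        ({a, b} : Multiset (ZMod m)).filter (fun x => x ≠ 0) ∈ low X := by
      intro a b ha hb
      refine ⟨(Multiset.card_le_card (Multiset.filter_le _ _)).trans (by simp), ?_⟩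
      intro x hx
      rw [Multiset.mem_filter] at hx
      simp only [Multiset.insert_eq_cons, Multiset.mem_cons, Multiset.mem_singleton] at hx
      rcases hx with ⟨rfl | rfl, hx⟩
      · exact (Finset.mem_insert.1 ha).resolve_left hx
      · exact (Finset.mem_insert.1 hb).resolve_left hx
    have hsum : ∀ u : Multiset (ZMod m), (u.filter (fun x => x ≠ 0)).sum = u.sum := by
      intro u
      conv_rhs => rw [← Multiset.filter_add_not (fun x : ZMod m => x ≠ 0) u]
      rw [Multiset.sum_add]
      have : (u.filter (fun x => ¬ x ≠ 0)).sum = 0 := by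
        apply Multiset.sum_eq_zero
        intro x hx
        rw [Multiset.mem_filter] at hx
        exact not_not.1 hx.2
      rw [this, add_zero]
    have hzero : ∀ u : Multiset (ZMod m), u.filter (fun x => ¬ x ≠ 0) =
        Multiset.replicate (Multiset.card u - Multiset.card (u.filter (fun x => x ≠ 0))) 0 := by
      intro u
      rw [Multiset.eq_replicate]
      constructor
      · have := congrArg Multiset.card (Multiset.filter_add_not (fun x : ZMod m => x ≠ 0) u)
        rw [Multiset.card_add] at this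
        omega
      · intro x hx
        rw [Multiset.mem_filter] at hx
        exact not_not.1 hx.2
    have h1 := h (key a b ha hb) (key c d hc hd) (by rw [hsum, hsum]; simpa using habcd)
    rw [← Multiset.filter_add_not (fun x : ZMod m => x ≠ 0) ({a, b} : Multiset (ZMod m)),
      ← Multiset.filter_add_not (fun x : ZMod m => x ≠ 0) ({c, d} : Multiset (ZMod m)),
      hzero, hzero, h1]
    have h2 : Multiset.card ({a, b} : Multiset (ZMod m)) =
        Multiset.card ({c, d} : Multiset (ZMod m)) := by simp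
    rw [h2]
  · rintro ⟨h0, h⟩ u hu v hv huv
    have key : ∀ u ∈ low X, ∃ a ∈ insert (0 : ZMod m) X, ∃ b ∈ insert (0 : ZMod m) X,
        u + Multiset.replicate (2 - Multiset.card u) 0 = {a, b} := by
      intro u hu
      have hc : Multiset.card (u + Multiset.replicate (2 - Multiset.card u) (0 : ZMod m)) = 2 := by
        rw [Multiset.card_add, Multiset.card_replicate]
        have := hu.1
        omega
      obtain ⟨a, b, hab⟩ := Multiset.card_eq_two.1 hc
      have hmem : ∀ x ∈ ({a, b} : Multiset (ZMod m)), x ∈ insert (0 : ZMod m) X := by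
        intro x hx
        rw [← hab, Multiset.mem_add] at hx
        rw [Finset.mem_insert]
        rcases hx with hx | hx
        · right; exact hu.2 x hx
        · left; exact Multiset.eq_of_mem_replicate hx
      exact ⟨a, hmem a (by simp), b, hmem b (by simp), hab⟩
    obtain ⟨a, ha, b, hb, hab⟩ := key u hu
    obtain ⟨c, hc, d, hd, hcd⟩ := key v hv
    have h1 : a + b = c + d := by
      have e1 := congrArg Multiset.sum hab
      have e2 := congrArg Multiset.sum hcd
      simp only [Multiset.sum_add, Multiset.sum_replicate, smul_zero, add_zero,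
        Multiset.insert_eq_cons, Multiset.sum_cons, Multiset.sum_singleton] at e1 e2
      rw [← e1, ← e2]
      exact huv
    have h2 : ({a, b} : Multiset (ZMod m)) = {c, d} := by
      rcases h a ha b hb c hc d hd h1 with ⟨rfl, rfl⟩ | ⟨rfl, rfl⟩
      · rfl
      · exact Multiset.pair_comm _ _
    rw [← filter_pad h0 hu (2 - Multiset.card u), ← filter_pad h0 hv (2 - Multiset.card v), hab,
      hcd, h2]

/-- A configuration contains a Sidon set with `k + 1` elements. -/
theorem sidon_of_config {k t : ℕ} (h : Config k t m) :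
    ∃ S : Finset (ZMod m), S.card = k + 1 ∧ IsSidonSet S := by
  obtain ⟨X, hX, h⟩ := h
  have hlow : Set.InjOn Multiset.sum (low X) := by
    rcases h with ⟨-, h⟩ | ⟨y, -, Z, -, -, h⟩ | ⟨-, x, -, h⟩
    · exact h
    · exact h.mono (fun u hu => Or.inl (Or.inl hu))
    · exact h.mono (fun u hu => Or.inl hu)
  rw [injOn_low_iff] at hlow
  refine ⟨insert 0 X, ?_, hlow.2⟩
  rw [Finset.card_insert_of_notMem hlow.1, hX]

/-- normalise a Sidon set so that it contains `0` -/
theorem IsSidonSet.normalise {S : Finset (ZMod m)} (h : IsSidonSet S) {n : ℕ}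
    (hS : S.card = n + 1) : ∃ X : Finset (ZMod m), X.card = n ∧ (0 : ZMod m) ∉ X ∧
      IsSidonSet (insert 0 X) := by
  obtain ⟨x, hx⟩ := Finset.card_pos.1 (by omega : 0 < S.card)
  have hinj : Function.Injective (fun a : ZMod m => a - x) := sub_left_injective
  have h0 : (0 : ZMod m) ∈ S.image (fun a => a - x) := Finset.mem_image.2 ⟨x, hx, sub_self x⟩
  refine ⟨(S.image (fun a => a - x)).erase 0, ?_, Finset.notMem_erase _ _, ?_⟩
  · rw [Finset.card_erase_of_mem h0, Finset.card_image_of_injective _ hinj, hS]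
    omega
  · rw [Finset.insert_erase h0]
    exact h.translate x

theorem config_zero_iff {k : ℕ} :
    Config k 0 m ↔ ∃ S : Finset (ZMod m), S.card = k + 1 ∧ IsSidonSet S := by
  constructor
  · exact sidon_of_config
  · rintro ⟨S, hS, h⟩
    obtain ⟨X, hX, h0, h1⟩ := h.normalise hS
    exact ⟨X, hX, Or.inl ⟨rfl, (injOn_low_iff X).2 ⟨h0, h1⟩⟩⟩

theorem config_of_sidon {k t : ℕ} (ht : t ≤ k)
    (h : ∃ S : Finset (ZMod m), S.card = k + 2 ∧ IsSidonSet S) : Config k t m := by
  obtain ⟨S, hS, h⟩ := h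
  obtain ⟨Y, hY, h0, h1⟩ := h.normalise (n := k + 1) hS
  obtain ⟨y, hy⟩ := Finset.card_pos.1 (by omega : 0 < Y.card)
  have hX : (Y.erase y).card = k := by rw [Finset.card_erase_of_mem hy, hY]; omega
  obtain ⟨Z, hZ, hZt⟩ := Finset.exists_subset_card_eq (s := Y.erase y) (n := t) (by omega)
  refine ⟨Y.erase y, hX, Or.inr (Or.inl ⟨y, Finset.notMem_erase _ _, Z, ?_, hZt, ?_⟩)⟩
  · exact hZ.trans (Finset.subset_insert _ _)
  · apply ((injOn_low_iff Y).2 ⟨h0, h1⟩).mono
    rintro u ((hu | hu) | ⟨z, hz, rfl⟩)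
    · exact ⟨hu.1, fun x hx => Finset.mem_of_mem_erase (hu.2 x hx)⟩
    · rw [Set.mem_singleton_iff] at hu
      subst hu
      refine ⟨by simp, fun x hx => ?_⟩
      rw [Multiset.mem_singleton] at hx
      rw [hx]; exact hy
    · refine ⟨by simp, fun x hx => ?_⟩
      simp only [Multiset.insert_eq_cons, Multiset.mem_cons, Multiset.mem_singleton] at hx
      rcases hx with rfl | rfl
      · exact hy
      · exact Finset.mem_of_mem_erase (hZ hz)

/-- differences of a Sidon set -/
theorem IsSidonSet.card_bound [NeZero m] {S : Finset (ZMod m)} (h : IsSidonSet S) :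
    S.card * (S.card - 1) + 1 ≤ m := by
  have h1 : (S.offDiag).card ≤ ((univ : Finset (ZMod m)).erase 0).card := by
    apply Finset.card_le_card_of_injOn (fun p => p.1 - p.2)
    · rintro ⟨a, b⟩ hab
      rw [Finset.mem_coe, Finset.mem_offDiag] at hab
      rw [Finset.mem_coe, Finset.mem_erase]
      exact ⟨sub_ne_zero.2 hab.2.2, Finset.mem_univ _⟩
    · rintro ⟨a, b⟩ hab ⟨c, d⟩ hcd he
      rw [Finset.mem_coe, Finset.mem_offDiag] at hab hcd
      have he' : a - b = c - d := he
      have h2 : a + d = c + b := by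
        have : a = c - d + b := by rw [← he']; abel
        rw [this]; abel
      rcases h a hab.1 d hcd.2.1 c hcd.1 b hab.2.1 h2 with ⟨h3, h4⟩ | ⟨h3, h4⟩
      · exact Prod.ext h3 h4.symm
      · exact absurd h3 hab.2.2
  rw [Finset.offDiag_card, Finset.card_erase_of_mem (Finset.mem_univ _), Finset.card_univ,
    ZMod.card] at h1
  have hm : 0 < m := Nat.pos_of_ne_zero (NeZero.ne m)
  have h2 : S.card * (S.card - 1) = S.card * S.card - S.card := by
    rw [Nat.mul_sub, mul_one]
  omega

end

/-- transfer of Sidon sets to larger moduli -/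
theorem sidon_transfer {M m n : ℕ} [NeZero M] (hm : 2 * M ≤ m + 1)
    (h : ∃ S : Finset (ZMod M), S.card = n ∧ IsSidonSet S) :
    ∃ S : Finset (ZMod m), S.card = n ∧ IsSidonSet S := by
  obtain ⟨S, hS, h⟩ := h
  have hM : 0 < M := Nat.pos_of_ne_zero (NeZero.ne M)
  have key : ∀ a b c d : ZMod M, (((a.val : ℕ) : ZMod m) + ((b.val : ℕ) : ZMod m) =
      ((c.val : ℕ) : ZMod m) + ((d.val : ℕ) : ZMod m)) → a + b = c + d := by
    intro a b c d he
    have ha := ZMod.val_lt a
    have hb := ZMod.val_lt b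
    have hc := ZMod.val_lt c
    have hd := ZMod.val_lt d
    rw [← Nat.cast_add, ← Nat.cast_add, ZMod.natCast_eq_natCast_iff] at he
    have h1 : a.val + b.val = c.val + d.val := by
      have h2 := Nat.ModEq.eq_of_lt_of_lt he (by omega) (by omega)
      exact h2
    have h3 := congrArg (fun x : ℕ => (x : ZMod M)) h1
    simpa using h3
  have hinj : Function.Injective (fun a : ZMod M => ((a.val : ℕ) : ZMod m)) := by
    intro a b hab
    have hab' : ((a.val : ℕ) : ZMod m) = ((b.val : ℕ) : ZMod m) := hab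
    have := key a 0 b 0 (by rw [hab'])
    simpa using this
  refine ⟨S.image (fun a => ((a.val : ℕ) : ZMod m)), ?_, ?_⟩
  · rw [Finset.card_image_of_injective _ hinj, hS]
  · intro a ha b hb c hc d hd habcd
    obtain ⟨a, ha', rfl⟩ := Finset.mem_image.1 ha
    obtain ⟨b, hb', rfl⟩ := Finset.mem_image.1 hb
    obtain ⟨c, hc', rfl⟩ := Finset.mem_image.1 hc
    obtain ⟨d, hd', rfl⟩ := Finset.mem_image.1 hd
    rcases h a ha' b hb' c hc' d hd' (key a b c d habcd) with ⟨rfl, rfl⟩ | ⟨rfl, rfl⟩
    · exact Or.inl ⟨rfl, rfl⟩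
    · exact Or.inr ⟨rfl, rfl⟩

theorem exists_subset_sidon {m n n' : ℕ} (hn : n' ≤ n)
    (h : ∃ S : Finset (ZMod m), S.card = n ∧ IsSidonSet S) :
    ∃ S : Finset (ZMod m), S.card = n' ∧ IsSidonSet S := by
  obtain ⟨S, hS, h⟩ := h
  obtain ⟨T, hT, hTc⟩ := Finset.exists_subset_card_eq (s := S) (n := n') (by omega)
  exact ⟨T, hTc, h.subset hT⟩

theorem geo_two (q : ℕ) : geo q 2 = q ^ 2 + q + 1 := by
  unfold geo
  simp [Finset.sum_range_succ]
  ring

/-- Singer difference sets. -/
theorem singer_sidon {q : ℕ} (hq : IsPrimePow q) :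
    ∃ S : Finset (ZMod (q ^ 2 + q + 1)), S.card = q + 1 ∧ IsSidonSet S := by
  obtain ⟨X, hX, h⟩ := singer hq (h := 2) (by norm_num)
  rw [← geo_two]
  have h2 := (injOn_low_iff X).1 h
  exact ⟨insert 0 X, by rw [Finset.card_insert_of_notMem h2.1, hX], h2.2⟩

end MPc709deS
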