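import Pool.Agent.Work.MP_c709de_al_sid.CC

/-! Structure of the extremal families. -/

namespace MPc709deS

open Finset

variable {κ : Type*} [Fintype κ] [DecidableEq κ]

/-- the extremal graphs -/
theorem graph_struct {A : Finset (Multiset κ)} (hA : ∀ v ∈ A, Multiset.card v = 2)
    (heq : ff A.card ≤ (cc A).card) (ht : 1 ≤ tt A.card) :
    ∃ K : Finset κ, K.card = kk A.card ∧ mset K 2 ⊆ A ∧ ∃ y ∉ K, ∃ Z ⊆ insert y K,
      Z.card = tt A.card ∧ ∀ z ∈ Z, ({y, z} : Multiset κ) ∈ A := by
  obtain ⟨K, hK1, hK2⟩ := clique_of_eq _ A rfl hA heq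
  have hA2 : ∀ v ∈ A, 2 ≤ Multiset.card v := fun v hv => by rw [hA v hv]
  have hspec := kt_spec A.card
  have hKc : (mset K 2).card = (kk A.card + 1).choose 2 := by
    rw [card_mset, hK1]
    have : kk A.card + 2 - 1 = kk A.card + 1 := by omega
    rw [this]
  refine ⟨K, hK1, hK2, ?_⟩
  -- an edge outside the clique
  obtain ⟨e, he, heK⟩ : ∃ e ∈ A, e ∉ mset K 2 := by
    by_contra hcon
    push Not at hcon
    have := Finset.card_le_card (fun x hx => hcon x hx : A ⊆ mset K 2)
    omega
  obtain ⟨y, hy, hyK⟩ : ∃ y ∈ e, y ∉ K := by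
    by_contra hcon
    push Not at hcon
    exact heK (mem_mset.2 ⟨hA e he, hcon⟩)
  obtain ⟨z₀, rfl⟩ := card_two_of_mem (hA e he) hy
  have hdpos : 0 < (nb A y).card := Finset.card_pos.2 ⟨z₀, mem_nb.2 he⟩
  have h1 := card_split A hA2 y
  have h2 := cc_split A hA2 y
  have hdv : dv A y = ∅ := by
    rw [Finset.eq_empty_iff_forall_notMem]
    intro w hw
    rw [mem_dv] at hw
    have := hA _ hw.1
    rw [Multiset.card_cons] at this
    omega
  rw [hdv] at h1 h2
  rw [cc_empty] at h2
  simp only [Finset.card_empty, add_zero] at h1 h2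
  set A' := A.filter (fun v => y ∉ v) with hA'
  have hKA' : mset K 2 ⊆ A' := by
    intro u hu
    rw [hA', Finset.mem_filter]
    refine ⟨hK2 hu, fun hyu => hyK ((mem_mset.1 hu).2 y hyu)⟩
  have h3 : (cc A').card ≤ ff A'.card :=
    cc_le (fun v hv => hA2 v (Finset.mem_filter.1 hv).1)
  have h4 : (mset (nb A y) 2).card = ((nb A y).card + 1).choose 2 := by
    rw [card_mset]
    have : (nb A y).card + 2 - 1 = (nb A y).card + 1 := by omega
    rw [this]
  have h5 : (mset (nb A y) 2 ∩ A).card ≤ (mset (nb A y) 2).card :=
    Finset.card_le_card Finset.inter_subset_left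
  have h6 := Finset.card_le_card hKA'
  have hdt : (nb A y).card ≤ tt A.card := by omega
  have h7 := ff_remove_small hdt
  have h8 : A.card - (nb A y).card = A'.card := by omega
  rw [h8] at h7
  have h9 : (nb A y).card * (tt A.card - (nb A y).card) = 0 := by omega
  have h10 : (nb A y).card = tt A.card := by
    rcases Nat.mul_eq_zero.1 h9 with h | h <;> omega
  have h11 : (mset (nb A y) 2).card ≤ (mset (nb A y) 2 ∩ A).card := by omega
  have h12 : mset (nb A y) 2 ⊆ A := by
    have := Finset.eq_of_subset_of_card_le
      (Finset.inter_subset_left (s₁ := mset (nb A y) 2) (s₂ := A)) h11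
    rw [← this]
    exact Finset.inter_subset_right
  have h13 : mset K 2 = A' := Finset.eq_of_subset_of_card_le hKA' (by omega)
  refine ⟨y, hyK, nb A y, ?_, h10, fun z hz => mem_nb.1 hz⟩
  intro z hz
  rw [Finset.mem_insert]
  by_cases hzy : z = y
  · exact Or.inl hzy
  · right
    have h14 : ({z, z} : Multiset κ) ∈ A := by
      apply h12
      rw [mem_mset]
      refine ⟨by simp, fun x hx => ?_⟩
      simp only [Multiset.insert_eq_cons, Multiset.mem_cons, Multiset.mem_singleton, or_self] at hx
      rw [hx]; exact hz
    have h15 : ({z, z} : Multiset κ) ∈ mset K 2 := by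
      rw [h13, hA', Finset.mem_filter]
      refine ⟨h14, ?_⟩
      simp only [Multiset.insert_eq_cons, Multiset.mem_cons, Multiset.mem_singleton, or_self]
      exact Ne.symm hzy
    exact (mem_mset.1 h15).2 z (by simp)

/-- closed under division, down to degree two -/
def Closed (N : Finset (Multiset κ)) : Prop :=
  (∀ v ∈ N, 2 ≤ Multiset.card v) ∧ ∀ v ∈ N, ∀ x ∈ v, 3 ≤ Multiset.card v → v.erase x ∈ N

omit [Fintype κ] in
theorem Closed.of_le {N : Finset (Multiset κ)} (h : Closed N) : ∀ {u v : Multiset κ}, u ∈ N →
    v ≤ u → 2 ≤ Multiset.card v → v ∈ N := by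
  intro u
  induction hn : Multiset.card u using Nat.strong_induction_on generalizing u with
  | _ n ih =>
    intro v hu hvu hv
    rcases eq_or_lt_of_le hvu with rfl | hlt
    · exact hu
    · obtain ⟨x, hx⟩ := Multiset.lt_iff_cons_le.1 hlt
      have hxu : x ∈ u := Multiset.mem_of_le hx (Multiset.mem_cons_self _ _)
      have hc := Multiset.card_le_card hx
      rw [Multiset.card_cons] at hc
      have h1 : v ≤ u.erase x := by
        have := Multiset.erase_le_erase x hx
        rwa [Multiset.erase_cons_head] at this
      have h2 := h.2 u hu x hxu (by omega)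
      have h3 : Multiset.card (u.erase x) = Multiset.card u - 1 := by
        rw [Multiset.card_erase_of_mem hxu, Nat.pred_eq_sub_one]
      exact ih _ (by omega) h3 h2 h1 hv

theorem Closed.cc_of_le {N : Finset (Multiset κ)} (h : Closed N) {u v : Multiset κ}
    (hu : u ∈ cc N) (hvu : v < u) (hv : 2 ≤ Multiset.card v) : v ∈ N := by
  obtain ⟨x, hx⟩ := Multiset.lt_iff_cons_le.1 hvu
  have hxu : x ∈ u := Multiset.mem_of_le hx (Multiset.mem_cons_self _ _)
  have h1 : v ≤ u.erase x := by
    have := Multiset.erase_le_erase x hx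
    rwa [Multiset.erase_cons_head] at this
  exact h.of_le ((mem_cc.1 hu).2 x hxu) h1 hv

theorem Closed.card_cc {N : Finset (Multiset κ)} (h : Closed N) {u : Multiset κ}
    (hu : u ∈ cc N) : 3 ≤ Multiset.card u := by
  rw [mem_cc] at hu
  obtain ⟨x, hx⟩ := Multiset.exists_mem_of_ne_zero hu.1
  have h1 := h.1 _ (hu.2 x hx)
  rw [Multiset.card_erase_of_mem hx, Nat.pred_eq_sub_one] at h1
  omega

omit [Fintype κ] [DecidableEq κ] in
/-- if all quadratic divisors of `u` are equal to `w` then `u` is a power -/
theorem power_of_unique {u w : Multiset κ} (hu : 3 ≤ Multiset.card u)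
    (h : ∀ v ≤ u, Multiset.card v = 2 → v = w) : ∃ x, u = Multiset.replicate (Multiset.card u) x := by
  obtain ⟨x, hx⟩ : ∃ x, x ∈ u := Multiset.card_pos_iff_exists_mem.1 (by omega)
  refine ⟨x, Multiset.eq_replicate.2 ⟨rfl, ?_⟩⟩
  intro y hy
  by_contra hne
  -- u = x :: y :: z :: ...
  obtain ⟨v, rfl⟩ := Multiset.exists_cons_of_mem hx
  rw [Multiset.mem_cons] at hy
  rcases hy with hy | hy
  · exact hne hy
  obtain ⟨v', rfl⟩ := Multiset.exists_cons_of_mem hy
  rw [Multiset.card_cons, Multiset.card_cons] at hu
  obtain ⟨z, hz⟩ : ∃ z, z ∈ v' := Multiset.card_pos_iff_exists_mem.1 (by omega)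
  obtain ⟨v'', rfl⟩ := Multiset.exists_cons_of_mem hz
  have h1 : ({x, z} : Multiset κ) = w := by
    apply h _ _ (by simp)
    change x ::ₘ z ::ₘ 0 ≤ x ::ₘ y ::ₘ z ::ₘ v''
    apply Multiset.cons_le_cons
    rw [Multiset.cons_swap]
    exact Multiset.cons_le_cons _ (Multiset.zero_le _)
  have h2 : ({y, z} : Multiset κ) = w := by
    apply h _ _ (by simp)
    change y ::ₘ z ::ₘ 0 ≤ x ::ₘ y ::ₘ z ::ₘ v''
    refine le_trans ?_ (Multiset.le_cons_self _ _)
    apply Multiset.cons_le_cons
    exact Multiset.cons_le_cons _ (Multiset.zero_le _)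
  have h3 : ({z, x} : Multiset κ) = {z, y} := by
    rw [Multiset.pair_comm, h1, ← h2, Multiset.pair_comm]
  exact hne (pair_inj h3).symm

/-- The structure of the extremal families. -/
theorem struct {N : Finset (Multiset κ)} (hN : Closed N) (hs : 3 ≤ N.card)
    (heq : ff N.card ≤ (cc N).card) :
    ∃ K : Finset κ, K.card = kk N.card ∧ mset K 2 ⊆ N ∧
      (tt N.card = 0 ∨
        (∃ y ∉ K, ∃ Z ⊆ insert y K, Z.card = tt N.card ∧ ∀ z ∈ Z, ({y, z} : Multiset κ) ∈ N) ∨
        (tt N.card = 1 ∧ ∃ x ∈ K, ({x, x, x} : Multiset κ) ∈ N)) := by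
  set A := N.filter (fun v => Multiset.card v = 2) with hA
  set B := N.filter (fun v => ¬ Multiset.card v = 2) with hB
  have hAB : A.card + B.card = N.card := Finset.card_filter_add_card_filter_not _
  have hA2 : ∀ v ∈ A, Multiset.card v = 2 := fun v hv => (Finset.mem_filter.1 hv).2
  have hB2 : ∀ v ∈ B, 3 ≤ Multiset.card v := fun v hv => by
    have h1 := (Finset.mem_filter.1 hv).2
    have h2 := hN.1 v (Finset.mem_filter.1 hv).1
    omega
  have hsub : cc N ⊆ cc A ∪ cc B := by
    intro u hu
    have h3 := hN.card_cc hu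
    rw [mem_cc] at hu
    rw [Finset.mem_union, mem_cc, mem_cc]
    rcases Nat.lt_or_ge (Multiset.card u) 4 with h4 | h4
    · left
      refine ⟨hu.1, fun x hx => ?_⟩
      rw [hA, Finset.mem_filter, Multiset.card_erase_of_mem hx, Nat.pred_eq_sub_one]
      exact ⟨hu.2 x hx, by omega⟩
    · right
      refine ⟨hu.1, fun x hx => ?_⟩
      rw [hB, Finset.mem_filter, Multiset.card_erase_of_mem hx, Nat.pred_eq_sub_one]
      exact ⟨hu.2 x hx, by omega⟩
  have h1 : (cc N).card ≤ (cc A).card + (cc B).card :=
    (Finset.card_le_card hsub).trans (Finset.card_union_le _ _)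
  have h2 : (cc A).card ≤ ff A.card := cc_le (fun v hv => by rw [hA2 v hv])
  have h3 : (cc B).card ≤ ff B.card := cc_le (fun v hv => by have := hB2 v hv; omega)
  have h4 := ff_superadd A.card B.card
  rw [hAB] at h4
  rcases Nat.eq_zero_or_pos B.card with hb | hb
  · -- pure graph
    have hBe : B = ∅ := Finset.card_eq_zero.1 hb
    have hAN : A = N :=
      Finset.eq_of_subset_of_card_le (Finset.filter_subset _ _ : A ⊆ N) (by omega)
    rcases Nat.eq_zero_or_pos (tt N.card) with ht | ht
    · obtain ⟨K, hK1, hK2⟩ := clique_of_eq _ N rfl (by rw [← hAN]; exact hA2) heq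
      exact ⟨K, hK1, hK2, Or.inl ht⟩
    · obtain ⟨K, hK1, hK2, hK3⟩ := graph_struct (A := N) (by rw [← hAN]; exact hA2) heq ht
      exact ⟨K, hK1, hK2, Or.inr (Or.inl hK3)⟩
  · -- some element of degree at least three
    obtain ⟨u, hu⟩ := Finset.card_pos.1 hb
    have huN : u ∈ N := (Finset.mem_filter.1 hu).1
    have hu3 := hB2 u hu
    have ha : 0 < A.card := by
      apply Finset.card_pos.2
      obtain ⟨x, hx⟩ : ∃ x, x ∈ u := Multiset.card_pos_iff_exists_mem.1 (by omega)
      obtain ⟨v, rfl⟩ := Multiset.exists_cons_of_mem hx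
      rw [Multiset.card_cons] at hu3
      obtain ⟨y, hy⟩ : ∃ y, y ∈ v := Multiset.card_pos_iff_exists_mem.1 (by omega)
      obtain ⟨v', rfl⟩ := Multiset.exists_cons_of_mem hy
      refine ⟨{x, y}, ?_⟩
      rw [hA, Finset.mem_filter]
      refine ⟨hN.of_le huN ?_ (by simp), by simp⟩
      exact Multiset.cons_le_cons _ (Multiset.cons_le_cons _ (Multiset.zero_le _))
    rcases Nat.lt_or_ge A.card 2 with ha2 | ha2
    · -- a single quadratic element
      exfalso
      have ha1 : A.card = 1 := by omega
      obtain ⟨w, hw⟩ := Finset.card_eq_one.1 ha1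
      have hpow : ∀ u ∈ cc N, ∃ x, u = Multiset.replicate (Multiset.card u) x ∧
          w = Multiset.replicate 2 x := by
        intro u hu
        have hc := hN.card_cc hu
        have hall : ∀ v ≤ u, Multiset.card v = 2 → v = w := by
          intro v hv hv2
          have h5 : v < u := by
            refine lt_of_le_of_ne hv ?_
            rintro rfl; omega
          have h6 : v ∈ A := by
            rw [hA, Finset.mem_filter]
            exact ⟨hN.cc_of_le hu h5 (by omega), hv2⟩
          rw [hw] at h6
          exact Finset.mem_singleton.1 h6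
        obtain ⟨x, hx⟩ := power_of_unique hc hall
        refine ⟨x, hx, (hall _ ?_ (by simp)).symm⟩
        rw [hx]
        exact (Multiset.replicate_le_replicate x).2 (by omega)
      have h7 : (cc N).card ≤ N.card := by
        rcases Finset.eq_empty_or_nonempty (cc N) with h0 | ⟨u₀, hu₀⟩
        · rw [h0]; simp
        · obtain ⟨x₀, -, hx₀⟩ := hpow u₀ hu₀
          apply Finset.card_le_card_of_injOn (fun u => u.erase x₀)
          · intro u hu
            obtain ⟨x, hx, hx'⟩ := hpow u hu
            have hxx : x = x₀ := by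
              have : (Multiset.replicate 2 x : Multiset κ) = Multiset.replicate 2 x₀ := by
                rw [← hx', hx₀]
              exact (Multiset.replicate_right_inj (by norm_num)).1 this
            have hmem : x₀ ∈ u := by
              rw [hx, hxx]
              have := hN.card_cc hu
              exact Multiset.mem_replicate.2 ⟨by omega, rfl⟩
            exact (mem_cc.1 hu).2 x₀ hmem
          · intro u hu v hv h
            have hmem : ∀ u ∈ cc N, x₀ ∈ u := by
              intro u hu
              obtain ⟨x, hx, hx'⟩ := hpow u hu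
              have hxx : x = x₀ := by
                have : (Multiset.replicate 2 x : Multiset κ) = Multiset.replicate 2 x₀ := by
                  rw [← hx', hx₀]
                exact (Multiset.replicate_right_inj (by norm_num)).1 this
              rw [hx, hxx]
              have := hN.card_cc hu
              exact Multiset.mem_replicate.2 ⟨by omega, rfl⟩
            have h' : u.erase x₀ = v.erase x₀ := h
            rw [← Multiset.cons_erase (hmem u hu), h', Multiset.cons_erase (hmem v hv)]
      have h8 := lt_ff hs
      omega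
    · rcases Nat.lt_or_ge B.card 2 with hb2 | hb2
      · -- exactly one element of degree at least three
        have hb1 : B.card = 1 := by omega
        obtain ⟨w, hw⟩ := Finset.card_eq_one.1 hb1
        have hwB : w ∈ B := by rw [hw]; exact Finset.mem_singleton_self _
        have hwN : w ∈ N := (Finset.mem_filter.1 hwB).1
        have hw3 := hB2 w hwB
        rw [hb1, ff_one] at h3 h4
        have h5 := ff_succ A.card
        have h6 : N.card = A.card + 1 := by omega
        rw [h6] at heq h4
        have ht0 : tt A.card = 0 := by omega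
        have h7 : ff A.card ≤ (cc A).card := by omega
        have h8 : (cc B).card = 1 := by omega
        obtain ⟨K, hK1, hK2⟩ := clique_of_eq _ A rfl hA2 h7
        have h9 := kt_spec A.card
        have h10 : 0 < kk A.card := kk_pos ha
        obtain ⟨h11, h12⟩ := kt_unique (k := kk A.card) (t := 1) (n := A.card + 1) h10 (by omega)
        have hKA : mset K 2 = A := by
          apply Finset.eq_of_subset_of_card_le hK2
          rw [card_mset, hK1]
          have : kk A.card + 2 - 1 = kk A.card + 1 := by omega
          rw [this]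
          omega
        refine ⟨K, by rw [h6, h11, hK1], hK2.trans (Finset.filter_subset _ _), ?_⟩
        right; right
        refine ⟨by rw [h6]; exact h12, ?_⟩
        obtain ⟨v, hv⟩ := Finset.card_eq_one.1 h8
        have hvB : v ∈ cc B := by rw [hv]; exact Finset.mem_singleton_self _
        rw [mem_cc] at hvB
        obtain ⟨x, hx⟩ := Multiset.exists_mem_of_ne_zero hvB.1
        have hall : ∀ y ∈ v, v.erase y = w := by
          intro y hy
          have := hvB.2 y hy
          rw [hw] at this
          exact Finset.mem_singleton.1 this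
        have hwx : w = Multiset.replicate (Multiset.card w) x := by
          rw [Multiset.eq_replicate]
          refine ⟨rfl, ?_⟩
          intro y hy
          have hyv : y ∈ v := by
            rw [← hall x hx] at hy
            exact Multiset.mem_of_mem_erase hy
          have e1 : x ::ₘ w = v := by rw [← hall x hx]; exact Multiset.cons_erase hx
          have e2 : y ::ₘ w = v := by rw [← hall y hyv]; exact Multiset.cons_erase hyv
          rw [← e1] at e2
          exact (Multiset.cons_inj_left w).1 e2
        have hxx : ({x, x} : Multiset κ) ≤ w := by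
          rw [hwx]
          exact (Multiset.replicate_le_replicate x (k := 2)).2 (by omega)
        have hxxx : ({x, x, x} : Multiset κ) ≤ w := by
          rw [hwx]
          exact (Multiset.replicate_le_replicate x (k := 3)).2 (by omega)
        refine ⟨x, ?_, hN.of_le hwN hxxx (by simp)⟩
        have h13 : ({x, x} : Multiset κ) ∈ mset K 2 := by
          rw [hKA, hA, Finset.mem_filter]
          exact ⟨hN.of_le hwN hxx (by simp), by simp⟩
        exact (mem_mset.1 h13).2 x (by simp)
      · exfalso
        have := ff_strict ha2 hb2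
        rw [hAB] at this
        omega

end MPc709deS
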