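import Pool.Agent.Work.MP_c709de_al_sid.Bh

/-! Transfer of `B_h` sets and explicit lower bounds. -/

namespace MPc709deS

open Finset MPc709de

/-- transfer of `B_h` sets to larger moduli -/
theorem bh_transfer {M m h n : ℕ} [NeZero M] (hh : 1 ≤ h) (hm : h * M ≤ m)
    (hX : ∃ X : Finset (ZMod M), X.card = n ∧ Set.InjOn Multiset.sum (lowH h X)) :
    ∃ X : Finset (ZMod m), X.card = n ∧ Set.InjOn Multiset.sum (lowH h X) := by
  classical
  obtain ⟨X, hXn, hinj⟩ := hX
  have hM : 0 < M := Nat.pos_of_ne_zero (NeZero.ne M)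
  let f : ZMod M → ZMod m := fun a => ((a.val : ℕ) : ZMod m)
  have hsum : ∀ u : Multiset (ZMod M), (u.map f).sum = (((u.map ZMod.val).sum : ℕ) : ZMod m) := by
    intro u
    induction u using Multiset.induction_on with
    | empty => simp
    | cons a u ih => simp only [Multiset.map_cons, Multiset.sum_cons, ih, f, Nat.cast_add]
  have hval : ∀ u : Multiset (ZMod M), (((u.map ZMod.val).sum : ℕ) : ZMod M) = u.sum := by
    intro u
    induction u using Multiset.induction_on with
    | empty => simp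
    | cons a u ih => simp [ih]
  have hlt : ∀ u : Multiset (ZMod M), Multiset.card u ≤ h → (u.map ZMod.val).sum < m := by
    intro u hu
    have h1 := Multiset.sum_le_card_nsmul (u.map ZMod.val) (M - 1) (by
      intro y hy
      rw [Multiset.mem_map] at hy
      obtain ⟨x, -, rfl⟩ := hy
      have := ZMod.val_lt x
      omega)
    rw [Multiset.card_map, smul_eq_mul] at h1
    have h2 : Multiset.card u * (M - 1) ≤ h * (M - 1) := Nat.mul_le_mul_right _ hu
    have h3 : h * (M - 1) < h * M := Nat.mul_lt_mul_of_pos_left (by omega) hh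
    omega
  have key : ∀ u v : Multiset (ZMod M), Multiset.card u ≤ h → Multiset.card v ≤ h →
      (u.map f).sum = (v.map f).sum → u.sum = v.sum := by
    intro u v hu hv he
    rw [hsum, hsum, ZMod.natCast_eq_natCast_iff] at he
    have h1 := Nat.ModEq.eq_of_lt_of_lt he (hlt u hu) (hlt v hv)
    rw [← hval u, ← hval v, h1]
  have hfinj : Function.Injective f := by
    intro a b hab
    have := key {a} {b} (by simpa using hh) (by simpa using hh) (by simpa using hab)
    simpa using this
  refine ⟨X.image f, by rw [Finset.card_image_of_injective _ hfinj, hXn], ?_⟩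
  have hlift : ∀ u : Multiset (ZMod m), (∀ x ∈ u, x ∈ X.image f) →
      ∃ s : Multiset (ZMod M), s.map f = u ∧ ∀ x ∈ s, x ∈ X := by
    intro u
    induction u using Multiset.induction_on with
    | empty => intro _; exact ⟨0, rfl, by simp⟩
    | cons x u ih =>
      intro hu
      obtain ⟨s, hs, hs'⟩ := ih (fun y hy => hu y (Multiset.mem_cons_of_mem hy))
      obtain ⟨c, hcX, hc⟩ := Finset.mem_image.1 (hu x (Multiset.mem_cons_self _ _))
      refine ⟨c ::ₘ s, by rw [Multiset.map_cons, hs, hc], ?_⟩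
      intro y hy
      rw [Multiset.mem_cons] at hy
      rcases hy with rfl | hy
      · exact hcX
      · exact hs' y hy
  rintro u ⟨hu1, hu2⟩ v ⟨hv1, hv2⟩ huv
  obtain ⟨s, rfl, hs⟩ := hlift u hu2
  obtain ⟨t, rfl, ht⟩ := hlift v hv2
  rw [Multiset.card_map] at hu1 hv1
  have h1 := key s t hu1 hv1 huv
  have h2 : s = t := hinj ⟨hu1, hs⟩ ⟨hv1, ht⟩ h1
  rw [h2]

theorem bh_subset {m h n n' : ℕ} (hn : n' ≤ n)
    (hX : ∃ X : Finset (ZMod m), X.card = n ∧ Set.InjOn Multiset.sum (lowH h X)) :
    ∃ X : Finset (ZMod m), X.card = n' ∧ Set.InjOn Multiset.sum (lowH h X) := by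
  obtain ⟨X, hXn, hinj⟩ := hX
  obtain ⟨Y, hY, hYc⟩ := Finset.exists_subset_card_eq (s := X) (n := n') (by omega)
  refine ⟨Y, hYc, hinj.mono ?_⟩
  rintro u ⟨hu1, hu2⟩
  exact ⟨hu1, fun x hx => hY (hu2 x hx)⟩

theorem geo_le {q h : ℕ} (hq : 2 ≤ q) : geo q h ≤ 2 * q ^ h := by
  induction h with
  | zero => simp [geo]
  | succ n ih =>
    have h1 : geo q (n + 1) = geo q n + q ^ (n + 1) := by
      unfold geo; rw [Finset.sum_range_succ]
    rw [h1, pow_succ]
    nlinarith [pow_pos (by omega : 0 < q) n]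

/-- The lower bound attached to a prime power. -/
theorem lower_pp {m e k h q : ℕ} (hh : 1 ≤ h) (hq : IsPrimePow q) (hkq : k ≤ q)
    (hm : h * geo q h ≤ m) (hke : k < e) (he : 2 ≤ e) (hroom : e - k + (k + h).choose h ≤ m) :
    (((k + h).choose (h + 1) - m : ℕ) : ℕ∞) ≤ maxRho e m := by
  have hq2 := hq.two_le
  have hg : 0 < geo q h := by
    unfold geo
    exact Finset.sum_pos (fun i _ => pow_pos (by omega) i) (Finset.nonempty_range_iff.2 (by omega))
  have : NeZero (geo q h) := ⟨hg.ne'⟩
  have hm0 : 0 < m := lt_of_lt_of_le (Nat.mul_pos (by omega) hg) hm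
  have : NeZero m := ⟨hm0.ne'⟩
  obtain ⟨X, hX, hinj⟩ := bh_subset hkq (bh_transfer (m := m) hh hm (singer hq hh))
  exact lower_bh hh hX hinj hke he hroom

/-- An explicit version. -/
theorem lower_explicit {m e k h : ℕ} (hh : 1 ≤ h) (hk : 1 ≤ k)
    (hm : h * (2 * (2 * k) ^ h) ≤ m) (hke : k < e) (he : 2 ≤ e)
    (hroom : e - k + (k + h).choose h ≤ m) :
    (((k + h).choose (h + 1) - m : ℕ) : ℕ∞) ≤ maxRho e m := by
  obtain ⟨p, hp, h1, h2⟩ := Nat.exists_prime_lt_and_le_two_mul k (by omega)
  refine lower_pp hh hp.isPrimePow h1.le ?_ hke he hroom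
  refine le_trans (Nat.mul_le_mul_left h ?_) hm
  exact (geo_le hp.two_le).trans (Nat.mul_le_mul_left 2 (Nat.pow_le_pow_left h2 h))

/-- the linear case -/
theorem lower_one {m e k : ℕ} (hke : k < e) (he : 2 ≤ e) (hem : e < m) :
    (((k + 1).choose 2 - m : ℕ) : ℕ∞) ≤ maxRho e m := by
  classical
  have : NeZero m := ⟨by omega⟩
  have hinjf : Set.InjOn (fun i : ℕ => ((i + 1 : ℕ) : ZMod m)) (Finset.range k : Set ℕ) := by
    intro a ha b hb hab
    rw [Finset.coe_range, Set.mem_Iio] at ha hb
    have h1 : a + 1 ≡ b + 1 [MOD m] := (ZMod.natCast_eq_natCast_iff _ _ m).1 hab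
    have := Nat.ModEq.eq_of_lt_of_lt h1 (by omega) (by omega)
    omega
  have h0 : (0 : ZMod m) ∉ (Finset.range k).image (fun i : ℕ => ((i + 1 : ℕ) : ZMod m)) := by
    intro h
    rw [Finset.mem_image] at h
    obtain ⟨i, hi, h⟩ := h
    rw [Finset.mem_range] at hi
    rw [ZMod.natCast_eq_zero_iff] at h
    have := Nat.le_of_dvd (by omega) h
    omega
  refine lower_bh (h := 1) le_rfl (X := (Finset.range k).image (fun i : ℕ => ((i + 1 : ℕ) : ZMod m)))
    (by rw [Finset.card_image_of_injOn hinjf, Finset.card_range]) ?_ hke he ?_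
  · rintro u ⟨hu1, hu2⟩ v ⟨hv1, hv2⟩ huv
    rcases Nat.eq_zero_or_pos (Multiset.card u) with hu | hu
    · rcases Nat.eq_zero_or_pos (Multiset.card v) with hv | hv
      · rw [Multiset.card_eq_zero.1 hu, Multiset.card_eq_zero.1 hv]
      · exfalso
        obtain ⟨y, rfl⟩ := Multiset.card_eq_one.1 (by omega : Multiset.card v = 1)
        rw [Multiset.card_eq_zero.1 hu] at huv
        simp only [Multiset.sum_zero, Multiset.sum_singleton] at huv
        exact h0 (huv ▸ hv2 y (by simp))
    · obtain ⟨x, rfl⟩ := Multiset.card_eq_one.1 (by omega : Multiset.card u = 1)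
      rcases Nat.eq_zero_or_pos (Multiset.card v) with hv | hv
      · exfalso
        rw [Multiset.card_eq_zero.1 hv] at huv
        simp only [Multiset.sum_zero, Multiset.sum_singleton] at huv
        exact h0 (huv ▸ hu2 x (by simp))
      · obtain ⟨y, rfl⟩ := Multiset.card_eq_one.1 (by omega : Multiset.card v = 1)
        simp only [Multiset.sum_singleton] at huv
        rw [huv]
  · rw [Nat.choose_one_right]
    omega

end MPc709deS
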